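import Pool.Agent.LibCR14.Defs2
import Pool.Agent.LibSMP.LDS

/-!
[CR14 A1] (SHORT/MEDIUM, 2 lemmas) Idempotents inside long words, values in `WithOne S` (`vl`, LibSMP/LDS.lean).
`CRat_coe`: `x : WithOne S` with `e * x = x`: `x = 1` would give `(e : WithOne S) = 1` (`WithOne.coe_ne_one`); so `x` is a coercion and the hypothesis applies (`WithOne.coe_inj`, `WithOne.coe_mul`).
`idem_factor`: for `j ≤ Nat.card S` let `s j : S` be the value of `l.take (j + 1)` (`vl_ne_nil`). `Nat.card S + 1` values: `s i = s j` for some `i < j`. `l.take (j+1) = l.take (i+1) ++ m`, `m ≠ []`, `vl m = y` in `S`: `s i * y = s i` (`vl_append`).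
`exists_idem_pow (y : WithOne S)`: `k > 0` with `y ^ k` idempotent; it is the coercion of an idempotent `e` of `S` (a positive power of a coercion is a coercion: induction); `s i * y ^ k = s i`. So `vl l = s i * e * (vl (l.drop (i+1)))`.
-/

set_option autoImplicit false

namespace Pool.Agent.LibCR14

open Pool.Agent.LibSMP

variable {S : Type*} [Semigroup S]

theorem CRat_coe (h : ∀ e x : S, e * e = e → e * x = x → x * e = x → ∃ y : S, x * y * x = x ∧ x * y = y * x)
    {e : S} (he : e * e = e) : CRat (e : WithOne S) := by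
  refine ⟨by rw [← WithOne.coe_mul, he], ?_⟩
  intro x hx1 hx2
  induction x using WithOne.recOneCoe with
  | one =>
    rw [mul_one] at hx1
    exact absurd hx1 WithOne.coe_ne_one
  | coe x =>
    rw [← WithOne.coe_mul] at hx1 hx2
    obtain ⟨y, hy1, hy2⟩ := h e x he (WithOne.coe_injective hx1) (WithOne.coe_injective hx2)
    refine ⟨(y : WithOne S), ?_, ?_⟩
    · rw [← WithOne.coe_mul, ← WithOne.coe_mul, hy1]
    · rw [← WithOne.coe_mul, ← WithOne.coe_mul, hy2]

theorem idem_factor [Finite S] (l : List S) (hl : Nat.card S < l.length) :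
    ∃ (x z : WithOne S) (e : S), e * e = e ∧ vl l = x * (e : WithOne S) * z := by
  have hc : Nat.card (WithOne S) = Nat.card S + 1 := by
    have := Finite.card_option (α := S)
    exact this
  obtain ⟨t, e, he⟩ := exists_window l (by omega)
  refine ⟨vl (l.take t), vl (l.drop t), e.1, e.2, ?_⟩
  rw [he, ← vl_append, List.take_append_drop]

end Pool.Agent.LibCR14
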