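import Pool.Agent.LibCR14.Defs2

/-!
[CR14 N0] (SHORT, several) Paths in a net. All by induction on the list (`simp [Pt, pv, mul_assoc]`, `N.hl`, `N.hr`, `(N.cr q i).1`). `pt_split`: an edge `a ∈ w` splits the path: `List.append_of_mem` and `pt_append`.
`dep_lt`: the set of `y` is a proper subset of the set of `x` (`y` itself is in the second one): `Set.ncard_lt_ncard` with `Set.toFinite`. `dep_mono`: `Set.ncard_le_ncard`: `JLe x y`: if `y ≤ z`, not `z ≤ y`, then `x ≤ z`, not `z ≤ x`.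
`dep_le`: `Set.ncard_le_card`-like: `dep x ≤ Nat.card M` (`Set.ncard_le_ncard (Set.subset_univ _)`, `Set.ncard_univ`).
`Req_of`, `Leq_of`: `stab_R`, `stab_L` (LibSMP/Green.lean): `y = x * s` and `x` is J-below `y`.
-/

set_option autoImplicit false

namespace Pool.Agent.LibCR14

open Pool.Agent.LibSMP

variable {M : Type*} [Monoid M] {n : ℕ} {Q E : Type*} {N : Net M n Q E}

theorem pt_append {l l' : List E} {q q'' : Q} : Pt N q (l ++ l') q'' ↔ ∃ q', Pt N q l q' ∧ Pt N q' l' q'' := by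
  induction l generalizing q with
  | nil => simp [Pt]
  | cons a l ih => simp [Pt, ih, and_assoc]

theorem pt_unique {l : List E} {q q' q'' : Q} (h : Pt N q l q') (h' : Pt N q l q'') : q' = q'' := by
  induction l generalizing q with
  | nil =>
    have h1 : q = q' := h
    have h2 : q = q'' := h'
    exact h1.symm.trans h2
  | cons a l ih => exact ih h.2 h'.2

theorem pt_split {w : List E} {q q' : Q} (h : Pt N q w q') {a : E} (ha : a ∈ w) :
    ∃ w₁ w₂, w = w₁ ++ a :: w₂ ∧ Pt N q w₁ (N.src a) ∧ Pt N (N.tgt a) w₂ q' := by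
  obtain ⟨w₁, w₂, rfl⟩ := List.append_of_mem ha
  obtain ⟨q₁, h1, h2, h3⟩ := pt_append.1 h
  subst h2
  exact ⟨w₁, w₂, rfl, h1, h3⟩

theorem pv_left {l : List E} {q q' : Q} (h : Pt N q l q') (i : Fin n) : N.ep q i * pv N q l i = pv N q l i := by
  cases l with
  | nil => exact (N.cr q i).1
  | cons a l =>
    have h1 : N.src a = q := h.1
    subst h1
    change N.ep (N.src a) i * (N.vl a i * pv N (N.tgt a) l i) = N.vl a i * pv N (N.tgt a) l i
    rw [← mul_assoc, N.hl]

theorem pv_right {l : List E} {q q' : Q} (h : Pt N q l q') (i : Fin n) : pv N q l i * N.ep q' i = pv N q l i := by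
  induction l generalizing q with
  | nil =>
    have h1 : q = q' := h
    subst h1
    exact (N.cr q i).1
  | cons a l ih =>
    change N.vl a i * pv N (N.tgt a) l i * N.ep q' i = N.vl a i * pv N (N.tgt a) l i
    rw [mul_assoc, ih h.2]

theorem pv_append {l l' : List E} {q q' q'' : Q} (h : Pt N q l q') (h' : Pt N q' l' q'') (i : Fin n) :
    pv N q (l ++ l') i = pv N q l i * pv N q' l' i := by
  induction l generalizing q with
  | nil =>
    have h1 : q = q' := h
    subst h1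
    exact (pv_left h' i).symm
  | cons a l ih =>
    change N.vl a i * pv N (N.tgt a) (l ++ l') i = N.vl a i * pv N (N.tgt a) l i * pv N q' l' i
    rw [ih h.2, mul_assoc]

theorem pv_nil (q : Q) (i : Fin n) : pv N q [] i = N.ep q i := rfl

theorem pv_cons (q : Q) (a : E) (l : List E) (i : Fin n) :
    pv N q (a :: l) i = N.vl a i * pv N (N.tgt a) l i := rfl

/-- a path followed by an edge -/
theorem pv_snoc {l : List E} {q : Q} {a : E} (h : Pt N q l (N.src a)) (i : Fin n) :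
    pv N q (l ++ [a]) i = pv N q l i * N.vl a i := by
  have h1 : Pt N (N.src a) [a] (N.tgt a) := ⟨rfl, rfl⟩
  rw [pv_append h h1 i]
  change pv N q l i * (N.vl a i * N.ep (N.tgt a) i) = pv N q l i * N.vl a i
  rw [N.hr]

theorem pt_snoc {l : List E} {q : Q} {a : E} (h : Pt N q l (N.src a)) : Pt N q (l ++ [a]) (N.tgt a) :=
  pt_append.2 ⟨N.src a, h, rfl, rfl⟩

private theorem N0_sub {x y : M} (h : JLe x y) :
    {z : M | JLe y z ∧ ¬ JLe z y} ⊆ {z : M | JLe x z ∧ ¬ JLe z x} := by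
  intro z hz
  exact ⟨h.trans hz.1, fun hx => hz.2 (hx.trans h)⟩

theorem dep_lt [Finite M] {x y : M} (h : JLe x y) (h' : ¬ JLe y x) : dep y < dep x := by
  unfold dep
  refine Set.ncard_lt_ncard ⟨N0_sub h, fun hs => ?_⟩ (Set.toFinite _)
  have h1 : y ∈ {z : M | JLe x z ∧ ¬ JLe z x} := ⟨h, h'⟩
  exact (hs h1).2 (JLe.refl y)

theorem dep_mono [Finite M] {x y : M} (h : JLe x y) : dep y ≤ dep x := by
  unfold dep
  exact Set.ncard_le_ncard (N0_sub h) (Set.toFinite _)

theorem dep_le [Finite M] (x : M) : dep x ≤ Nat.card M := by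
  unfold dep
  rw [← Set.ncard_univ]
  exact Set.ncard_le_ncard (Set.subset_univ _) (Set.toFinite _)

theorem Req_of [Finite M] {x s : M} (h : JLe x (x * s)) : Req x (x * s) := ⟨stab_R h, s, rfl⟩

theorem Leq_of [Finite M] {x s : M} (h : JLe x (s * x)) : Leq x (s * x) := ⟨stab_L h, s, rfl⟩

theorem Req_trans {x y z : M} (h : Req x y) (h' : Req y z) : Req x z := by
  obtain ⟨⟨a, ha⟩, b, hb⟩ := h
  obtain ⟨⟨c, hc⟩, d, hd⟩ := h'
  exact ⟨⟨c * a, by rw [← mul_assoc, ← hc, ← ha]⟩, b * d, by rw [← mul_assoc, ← hb, ← hd]⟩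

theorem Req_symm {x y : M} (h : Req x y) : Req y x := ⟨h.2, h.1⟩

theorem Leq_trans {x y z : M} (h : Leq x y) (h' : Leq y z) : Leq x z := by
  obtain ⟨⟨a, ha⟩, b, hb⟩ := h
  obtain ⟨⟨c, hc⟩, d, hd⟩ := h'
  exact ⟨⟨a * c, by rw [mul_assoc, ← hc, ← ha]⟩, d * b, by rw [mul_assoc, ← hb, ← hd]⟩

theorem Leq_symm {x y : M} (h : Leq x y) : Leq y x := ⟨h.2, h.1⟩

theorem Req_J {x y : M} (h : Req x y) : JLe x y := by
  obtain ⟨⟨a, ha⟩, -⟩ := h
  exact ⟨1, a, by rw [one_mul, ← ha]⟩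

theorem Leq_J {x y : M} (h : Leq x y) : JLe x y := by
  obtain ⟨⟨a, ha⟩, -⟩ := h
  exact ⟨a, 1, by rw [mul_one, ← ha]⟩

end Pool.Agent.LibCR14
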