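import Pool.Agent.LibCR14.A1
import Pool.Agent.LibCR14.N0
import Pool.Agent.LibSMP.Window

/-!
[CR14 A2] (MEDIUM) The net of blocks of length `R = Nat.card S + 1`. For a block `b : Fin R → Fin k` and a coordinate `i` choose (`idem_factor` for the list `(List.ofFn b).map (fun j => a j i)`, length `R > Nat.card S`; `vw` in LibSMP/Window.lean is
`vl` of this list) `x = X b i`, `e = ep b i`, `z = Z b i` with `vw a i (List.ofFn b) = X b i * ep b i * Z b i`. Net: `src = Prod.fst`, `tgt = Prod.snd`, `ep`, `vl (b, b') i = ep b i * Z b i * X b' i * ep b' i`, `cr` by `CRat_coe`; `hl`, `hr` by `e * e = e`.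
The last statement by induction on `l` (generalizing `b`): `l = []`: `b' = b`. `(b₀, b₁) :: l`: `b₀ = b` (`Pt`), `pv = vl (b, b₁) * pv N b₁ l`, `ep b₁ * pv N b₁ l = pv N b₁ l` (`pv_left`), `vw_append`.
-/

set_option autoImplicit false

namespace Pool.Agent.LibCR14

open Pool.Agent.LibSMP

private theorem A2_fac {S : Type*} [Semigroup S] [Finite S] {n k : ℕ} (a : Fin k → Fin n → S)
    (b : Fin (Nat.card S + 1) → Fin k) (i : Fin n) :
    ∃ (x z : WithOne S) (e : S), e * e = e ∧ vw a i (List.ofFn b) = x * (e : WithOne S) * z := by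
  unfold vw
  apply idem_factor
  rw [List.length_map, List.length_ofFn]
  exact Nat.lt_succ_self _

theorem word_net {S : Type*} [Semigroup S] [Finite S]
    (h : ∀ e x : S, e * e = e → e * x = x → x * e = x → ∃ y : S, x * y * x = x ∧ x * y = y * x)
    {n k : ℕ} (a : Fin k → Fin n → S) :
    ∃ (N : Net (WithOne S) n (Fin (Nat.card S + 1) → Fin k)
        ((Fin (Nat.card S + 1) → Fin k) × (Fin (Nat.card S + 1) → Fin k)))
      (X Z : (Fin (Nat.card S + 1) → Fin k) → Fin n → WithOne S),
      N.src = Prod.fst ∧ N.tgt = Prod.snd ∧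
      ∀ (b b' : Fin (Nat.card S + 1) → Fin k)
        (l : List ((Fin (Nat.card S + 1) → Fin k) × (Fin (Nat.card S + 1) → Fin k))) (i : Fin n), Pt N b l b' →
        X b i * pv N b l i * Z b' i = vw a i (List.ofFn b ++ l.flatMap (fun p => List.ofFn p.2)) := by
  choose X Z e he hv using A2_fac a
  have hee : ∀ b i, (e b i : WithOne S) * (e b i : WithOne S) = (e b i : WithOne S) := by
    intro b i
    rw [← WithOne.coe_mul, he b i]
  let N : Net (WithOne S) n (Fin (Nat.card S + 1) → Fin k)
      ((Fin (Nat.card S + 1) → Fin k) × (Fin (Nat.card S + 1) → Fin k)) :=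
    { src := Prod.fst
      tgt := Prod.snd
      ep := fun b i => (e b i : WithOne S)
      vl := fun p i => (e p.1 i : WithOne S) * Z p.1 i * X p.2 i * (e p.2 i : WithOne S)
      cr := fun b i => CRat_coe h (he b i)
      hl := fun p i => by
        show (e p.1 i : WithOne S) * ((e p.1 i : WithOne S) * Z p.1 i * X p.2 i * (e p.2 i : WithOne S)) =
          (e p.1 i : WithOne S) * Z p.1 i * X p.2 i * (e p.2 i : WithOne S)
        rw [← mul_assoc, ← mul_assoc, ← mul_assoc, hee]
      hr := fun p i => by
        show (e p.1 i : WithOne S) * Z p.1 i * X p.2 i * (e p.2 i : WithOne S) * (e p.2 i : WithOne S) =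
          (e p.1 i : WithOne S) * Z p.1 i * X p.2 i * (e p.2 i : WithOne S)
        rw [mul_assoc _ (e p.2 i : WithOne S) (e p.2 i : WithOne S), hee] }
  refine ⟨N, X, Z, rfl, rfl, ?_⟩
  intro b b' l
  induction l generalizing b with
  | nil =>
    intro i hp
    have hb : b = b' := hp
    subst hb
    show X b i * (e b i : WithOne S) * Z b i = _
    rw [List.flatMap_nil, List.append_nil]
    exact (hv b i).symm
  | cons p l ih =>
    intro i hp
    obtain ⟨hp1, hp2⟩ := hp
    have hb : p.1 = b := hp1
    have hp3 : Pt N p.2 l b' := hp2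
    have h1 := ih p.2 i hp3
    have h2 : (e p.2 i : WithOne S) * pv N p.2 l i = pv N p.2 l i := pv_left hp3 i
    have h3 : pv N b (p :: l) i =
        (e p.1 i : WithOne S) * Z p.1 i * X p.2 i * (e p.2 i : WithOne S) * pv N p.2 l i := rfl
    rw [List.flatMap_cons, vw_append, ← h1, h3, hb, hv b i]
    simp only [mul_assoc]
    rw [← mul_assoc (e p.2 i : WithOne S) (pv N p.2 l i), h2]

end Pool.Agent.LibCR14
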