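import Pool.Agent.LibCR14.N3

/-!
[CR14 N7] (MEDIUM) From loops to paths. `hL`: every loop with `dep < D` on `A` has a short replacement (length `≤ b`).
Induction on `k`, generalizing `F`, `q`, `w`. `k = 0` is impossible (`q ∉ F`, `q ∈ univ \ F`). `k + 1`: let `t` be the largest number `≤ w.length` such that the vertex after `w.take t` is `q` (`t = 0` is one; `pt_append` and `pt_unique`; `Nat.findGreatest` or strong induction on
the length: split at the last return to `q`). `ℓ = w.take t` is a loop at `q`, `w₂ = w.drop t : q → q'` and no edge of `w₂` has target `q` (maximality). `dep` of `pv ℓ i` is `≤ dep (pv w i) < D` (`dep_mono`: `pv w = pv ℓ * pv w₂`), so `hL` gives `ℓ'`. If `w₂ = []`: `q' = q`, `w' = ℓ'`.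
If `w₂ = a :: w₃`: `q₁ = N.tgt a ∉ insert q F`, all targets of `w₃` are `∉ insert q F`; induction hypothesis for `insert q F` (card of the complement drops), `q₁`, `w₃`: `w₃'`. `w' = ℓ' ++ a :: w₃'`, length `≤ b + 1 + k (b+1)`.
-/

set_option autoImplicit false

namespace Pool.Agent.LibCR14

open Pool.Agent.LibSMP

variable {M : Type*} [Monoid M] {n : ℕ} {Q E : Type*} {N : Net M n Q E}

private theorem N7_last {q q' : Q} : ∀ (m : ℕ) (w : List E), w.length ≤ m → Pt N q w q' →
    ∃ l w₂ : List E, w = l ++ w₂ ∧ Pt N q l q ∧ Pt N q w₂ q' ∧ ∀ a ∈ w₂, N.tgt a ≠ q := by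
  intro m
  induction m with
  | zero =>
    intro w hw h
    have h0 : w = [] := List.eq_nil_of_length_eq_zero (Nat.le_zero.1 hw)
    subst h0
    exact ⟨[], [], rfl, rfl, h, fun a ha => absurd ha List.not_mem_nil⟩
  | succ m ih =>
    intro w hw h
    by_cases hex : ∃ a ∈ w, N.tgt a = q
    · obtain ⟨a, ha, hta⟩ := hex
      obtain ⟨w₁, w₂, hw12, h1, h2⟩ := pt_split h ha
      rw [hta] at h2
      have hlen : w₂.length ≤ m := by
        rw [hw12, List.length_append, List.length_cons] at hw
        omega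
      obtain ⟨l', w₂', he, hl', hw', hne⟩ := ih w₂ hlen h2
      refine ⟨w₁ ++ a :: l', w₂', ?_, ?_, hw', hne⟩
      · rw [hw12, he, List.append_assoc, List.cons_append]
      · refine pt_append.2 ⟨N.src a, h1, rfl, ?_⟩
        rw [hta]
        exact hl'
    · exact ⟨[], w, rfl, rfl, h, fun a ha he => hex ⟨a, ha, he⟩⟩

theorem path_of_loops [Finite M] [Fintype Q] [DecidableEq Q] {D b : ℕ} {A : Finset (Fin n)}
    (hL : ∀ (v : Q) (l : List E), Pt N v l v → (∀ i ∈ A, dep (pv N v l i) < D) →
      ∃ l' : List E, Pt N v l' v ∧ (∀ a ∈ l', a ∈ l) ∧ (∀ i ∈ A, pv N v l' i = pv N v l i) ∧ l'.length ≤ b)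
    (k : ℕ) : ∀ (F : Finset Q) (q q' : Q) (w : List E), (Finset.univ \ F).card ≤ k → Pt N q w q' → q ∉ F →
      (∀ a ∈ w, N.tgt a ∉ F) → (∀ i ∈ A, dep (pv N q w i) < D) →
      ∃ w' : List E, Pt N q w' q' ∧ (∀ a ∈ w', a ∈ w) ∧ (∀ i ∈ A, pv N q w' i = pv N q w i) ∧
        w'.length ≤ k * (b + 1) := by
  induction k with
  | zero =>
    intro F q q' w hc _ hq _ _
    have h1 : q ∈ Finset.univ \ F := Finset.mem_sdiff.2 ⟨Finset.mem_univ q, hq⟩
    have h2 : 0 < (Finset.univ \ F).card := Finset.card_pos.2 ⟨q, h1⟩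
    omega
  | succ k ih =>
    intro F q q' w hc hw hq ht hd
    obtain ⟨l, w₂, hw2, hl, hp2, hne⟩ := N7_last w.length w le_rfl hw
    subst hw2
    have hpv : ∀ i, pv N q (l ++ w₂) i = pv N q l i * pv N q w₂ i := fun i => pv_append hl hp2 i
    have hdl : ∀ i ∈ A, dep (pv N q l i) < D := fun i hi =>
      lt_of_le_of_lt (dep_mono ⟨1, pv N q w₂ i, by rw [hpv, one_mul]⟩) (hd i hi)
    obtain ⟨l', hl1, hl2, hl3, hl4⟩ := hL q l hl hdl
    cases w₂ with
    | nil =>
      have hqq : q = q' := hp2
      subst hqq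
      refine ⟨l', hl1, fun a ha => List.mem_append_left _ (hl2 a ha), ?_, ?_⟩
      · intro i hi
        rw [hl3 i hi, List.append_nil]
      · calc l'.length ≤ b + 1 := by omega
          _ ≤ (k + 1) * (b + 1) := Nat.le_mul_of_pos_left _ (Nat.succ_pos k)
    | cons a w₃ =>
      obtain ⟨hsrc, hp3⟩ : N.src a = q ∧ Pt N (N.tgt a) w₃ q' := hp2
      have hmema : a ∈ l ++ a :: w₃ := List.mem_append_right _ List.mem_cons_self
      have hq1 : N.tgt a ∉ insert q F := by
        rw [Finset.mem_insert]
        rintro (h | h)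
        · exact hne a List.mem_cons_self h
        · exact ht a hmema h
      have hcard : (Finset.univ \ insert q F).card ≤ k := by
        have h1 : q ∈ Finset.univ \ F := Finset.mem_sdiff.2 ⟨Finset.mem_univ q, hq⟩
        have h2 : Finset.univ \ insert q F = (Finset.univ \ F).erase q := by
          ext x
          simp only [Finset.mem_sdiff, Finset.mem_univ, true_and, Finset.mem_insert, Finset.mem_erase, not_or, ne_eq]
        rw [h2, Finset.card_erase_of_mem h1]
        omega
      have hpw : ∀ i, pv N q (l ++ a :: w₃) i = pv N q l i * N.vl a i * pv N (N.tgt a) w₃ i := by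
        intro i
        rw [hpv, pv_cons, mul_assoc]
      have ht3 : ∀ c ∈ w₃, N.tgt c ∉ insert q F := by
        intro c hc3
        rw [Finset.mem_insert]
        rintro (h | h)
        · exact hne c (List.mem_cons_of_mem _ hc3) h
        · exact ht c (List.mem_append_right _ (List.mem_cons_of_mem _ hc3)) h
      have hd3 : ∀ i ∈ A, dep (pv N (N.tgt a) w₃ i) < D := fun i hi =>
        lt_of_le_of_lt (dep_mono ⟨pv N q l i * N.vl a i, 1, by rw [hpw, mul_one]⟩) (hd i hi)
      obtain ⟨w₃', h31, h32, h33, h34⟩ := ih (insert q F) (N.tgt a) q' w₃ hcard hp3 hq1 ht3 hd3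
      have hp' : Pt N q (a :: w₃') q' := ⟨hsrc, h31⟩
      refine ⟨l' ++ a :: w₃', pt_append.2 ⟨q, hl1, hp'⟩, ?_, ?_, ?_⟩
      · intro c hc'
        rcases List.mem_append.1 hc' with h | h
        · exact List.mem_append_left _ (hl2 c h)
        · rcases List.mem_cons.1 h with h | h
          · rw [h]
            exact hmema
          · exact List.mem_append_right _ (List.mem_cons_of_mem _ (h32 c h))
      · intro i hi
        rw [pv_append hl1 hp' i, pv_cons, hl3 i hi, h33 i hi, hpw, mul_assoc]
      · rw [List.length_append, List.length_cons]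
        have : (k + 1) * (b + 1) = k * (b + 1) + (b + 1) := by ring
        omega

end Pool.Agent.LibCR14
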