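import Pool.Agent.LibCR14.N5
import Pool.Agent.LibCR14.N7

/-!
[CR14 N8] (MEDIUM) Induction on the depth. `SPn_zero`: `dep < 0` on `A` means `A = ∅`: `connect`, `m ≤ (n + m + 2) ^ 1`. `SPn_succ`: `C` from `hd`, `C'` from `compress M`, `e` from `exists_exp M`. In the net `N` (with `m = card Q`, `s = n + m + 2`) `SPb N d (s ^ C)` holds; `short_loop` gives loops of length
`≤ b := 40 e² s^(C'+1) (s^C + 1)`; `path_of_loops` with `F = ∅`, `k = m`: length `≤ m (b + 1)`. `40 ≤ 2^6 ≤ s^6`, `e² ≤ 2^(2e) ≤ s^(2e)`, so `m (b + 1) ≤ s * (s^(6 + 2e + C' + 1 + C + 1) + 1) ≤ s^(2e + C + C' + 11)`.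
`short_path`: `SPn M d` for `d = Nat.card M + 1` by induction; `dep_le`, `A = univ`.
-/

set_option autoImplicit false

namespace Pool.Agent.LibCR14

open Pool.Agent.LibSMP

private theorem N8_arith {s m e C C' : ℕ} (hs : 2 ≤ s) (hm : m ≤ s) :
    m * (40 * e ^ 2 * s ^ (C' + 1) * (s ^ C + 1) + 1) ≤ s ^ (2 * e + C + C' + 11) := by
  have hs0 : 0 < s := by omega
  have h1 : 40 ≤ s ^ 6 := by
    calc 40 ≤ 2 ^ 6 := by norm_num
      _ ≤ s ^ 6 := Nat.pow_le_pow_left hs 6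
  have h2 : e ^ 2 ≤ s ^ (2 * e) := by
    calc e ^ 2 ≤ (2 ^ e) ^ 2 := Nat.pow_le_pow_left (Nat.lt_two_pow_self).le 2
      _ = 2 ^ (2 * e) := by rw [← pow_mul, mul_comm]
      _ ≤ s ^ (2 * e) := Nat.pow_le_pow_left hs _
  have h3 : s ^ C + 1 ≤ s ^ (C + 1) := by
    have h4 : 1 ≤ s ^ C := Nat.one_le_pow _ _ hs0
    calc s ^ C + 1 ≤ s ^ C * 2 := by omega
      _ ≤ s ^ C * s := Nat.mul_le_mul_left _ hs
      _ = s ^ (C + 1) := (pow_succ s C).symm
  have h5 : 40 * e ^ 2 * s ^ (C' + 1) * (s ^ C + 1) ≤ s ^ (2 * e + C + C' + 8) := by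
    calc 40 * e ^ 2 * s ^ (C' + 1) * (s ^ C + 1) ≤ s ^ 6 * s ^ (2 * e) * s ^ (C' + 1) * s ^ (C + 1) :=
          Nat.mul_le_mul (Nat.mul_le_mul_right _ (Nat.mul_le_mul h1 h2)) h3
      _ = s ^ (2 * e + C + C' + 8) := by
          rw [← pow_add, ← pow_add, ← pow_add]
          congr 1
          omega
  have h6 : 40 * e ^ 2 * s ^ (C' + 1) * (s ^ C + 1) + 1 ≤ s ^ (2 * e + C + C' + 9) := by
    have h7 : 1 ≤ s ^ (2 * e + C + C' + 8) := Nat.one_le_pow _ _ hs0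
    calc 40 * e ^ 2 * s ^ (C' + 1) * (s ^ C + 1) + 1 ≤ s ^ (2 * e + C + C' + 8) * 2 := by omega
      _ ≤ s ^ (2 * e + C + C' + 8) * s := Nat.mul_le_mul_left _ hs
      _ = s ^ (2 * e + C + C' + 9) := (pow_succ s (2 * e + C + C' + 8)).symm
  calc m * (40 * e ^ 2 * s ^ (C' + 1) * (s ^ C + 1) + 1) ≤ s * s ^ (2 * e + C + C' + 9) :=
        Nat.mul_le_mul hm h6
    _ = s ^ (2 * e + C + C' + 10) := by rw [mul_comm]; exact (pow_succ s (2 * e + C + C' + 9)).symm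
    _ ≤ s ^ (2 * e + C + C' + 11) := Nat.pow_le_pow_right hs0 (by omega)

theorem SPn_zero (M : Type*) [Monoid M] : SPn M 0 := by
  refine ⟨1, fun n Q E _ N A q q' w hw hA => ?_⟩
  obtain ⟨c, hc, hcw, hcl⟩ := connect hw
  refine ⟨c, hc, hcw, fun i hi => absurd (hA i hi) (Nat.not_lt_zero _), ?_⟩
  rw [pow_one]
  omega

theorem SPn_succ (M : Type*) [Monoid M] [Finite M] {d : ℕ} (hd : SPn M d) : SPn M (d + 1) := by
  obtain ⟨C, hC⟩ := hd
  obtain ⟨C', hC'⟩ := compress M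
  obtain ⟨e, he, hex⟩ := exists_exp M
  refine ⟨2 * e + C + C' + 11, fun n Q E _ N A q q' w hw hA => ?_⟩
  classical
  have hSP : SPb N d ((n + Fintype.card Q + 2) ^ C) := fun A q q' w hw h => hC n Q E N A q q' w hw h
  obtain ⟨w', h1, h2, h3, h4⟩ := path_of_loops (D := d + 1)
    (b := 40 * e ^ 2 * (n + Fintype.card Q + 2) ^ (C' + 1) * ((n + Fintype.card Q + 2) ^ C + 1)) (A := A)
    (fun v l hl hdl => short_loop he hex hC' hSP hl hdl) (Fintype.card Q) ∅ q q' w (by simp) hw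
    (Finset.notMem_empty _) (fun a _ => Finset.notMem_empty _) hA
  exact ⟨w', h1, h2, h3, h4.trans (N8_arith (by omega) (by omega))⟩

private theorem N8_all (M : Type*) [Monoid M] [Finite M] (d : ℕ) : SPn M d := by
  induction d with
  | zero => exact SPn_zero M
  | succ d ih => exact SPn_succ M ih

theorem short_path (M : Type*) [Monoid M] [Finite M] : ∃ C : ℕ, ∀ (n : ℕ) (Q E : Type) [Fintype Q]
    (N : Net M n Q E) (q q' : Q) (w : List E), Pt N q w q' →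
      ∃ w' : List E, Pt N q w' q' ∧ (∀ i, pv N q w' i = pv N q w i) ∧
        w'.length ≤ (n + Fintype.card Q + 2) ^ C := by
  obtain ⟨C, hC⟩ := N8_all M (Nat.card M + 1)
  refine ⟨C, fun n Q E _ N q q' w hw => ?_⟩
  obtain ⟨w', h1, -, h3, h4⟩ := hC n Q E N Finset.univ q q' w hw
    (fun i _ => Nat.lt_succ_of_le (dep_le _))
  exact ⟨w', h1, fun i => h3 i (Finset.mem_univ i), h4⟩

end Pool.Agent.LibCR14
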