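import Pool.Agent.LibCR14.A2
import Pool.Agent.LibCR14.N8
import Pool.Agent.LibSMP.Words

/-!
[CR14 A3] Short words.
-/

set_option autoImplicit false

namespace Pool.Agent.LibCR14

open Pool.Agent.LibSMP

private theorem A3_ofFn {α : Type*} : ∀ (u : List α) (R : ℕ), u.length = R →
    ∃ b : Fin R → α, List.ofFn b = u := by
  rintro u _ rfl
  exact ⟨u.get, List.ofFn_get u⟩

private theorem A3_cut {α : Type*} {R : ℕ} (hR : 0 < R) : ∀ (N : ℕ) (w : List α), w.length ≤ N →
    ∃ (bs : List (Fin R → α)) (t : List α), w = bs.flatMap (fun b => List.ofFn b) ++ t ∧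
      t.length < R := by
  intro N
  induction N with
  | zero =>
    intro w hw
    refine ⟨[], w, rfl, by omega⟩
  | succ N ih =>
    intro w hw
    by_cases h : w.length < R
    · exact ⟨[], w, rfl, h⟩
    · obtain ⟨b, hb⟩ := A3_ofFn (w.take R) R (by rw [List.length_take]; omega)
      obtain ⟨bs, t, h1, h2⟩ := ih (w.drop R) (by rw [List.length_drop]; omega)
      refine ⟨b :: bs, t, ?_, h2⟩
      rw [List.flatMap_cons, List.append_assoc, ← h1, hb, List.take_append_drop]

private def A3_path {Q : Type} : Q → List Q → List (Q × Q)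
  | _, [] => []
  | b, b₁ :: bs => (b, b₁) :: A3_path b₁ bs

private theorem A3_pt {M : Type*} [Monoid M] {n : ℕ} {Q : Type} {N : Net M n Q (Q × Q)}
    (h1 : N.src = Prod.fst) (h2 : N.tgt = Prod.snd) (bs : List Q) :
    ∀ b : Q, ∃ b', Pt N b (A3_path b bs) b' := by
  induction bs with
  | nil => exact fun b => ⟨b, rfl⟩
  | cons b₁ bs ih =>
    intro b
    obtain ⟨b', hb'⟩ := ih b₁
    refine ⟨b', ?_⟩
    change N.src (b, b₁) = b ∧ Pt N (N.tgt (b, b₁)) (A3_path b₁ bs) b'
    rw [h1, h2]
    exact ⟨rfl, hb'⟩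

private theorem A3_flat {α : Type} {R : ℕ} (bs : List (Fin R → α)) : ∀ b : Fin R → α,
    (A3_path b bs).flatMap (fun p => List.ofFn p.2) = bs.flatMap (fun b => List.ofFn b) := by
  induction bs with
  | nil => exact fun b => rfl
  | cons b₁ bs ih =>
    intro b
    change ((b, b₁) :: A3_path b₁ bs).flatMap (fun p => List.ofFn p.2) = _
    rw [List.flatMap_cons, List.flatMap_cons, ih b₁]

private theorem A3_len {α : Type} {R : ℕ} (l : List ((Fin R → α) × (Fin R → α))) :
    (l.flatMap (fun p => List.ofFn p.2)).length = R * l.length := by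
  induction l with
  | nil => rfl
  | cons a l ih =>
    rw [List.flatMap_cons, List.length_append, ih, List.length_ofFn, List.length_cons]
    ring

private theorem A3_bound {n k R C : ℕ} (hR : 0 < R) :
    R * (2 + (n + k ^ R + 2) ^ C) ≤ (n + k + 2) ^ (R + 2 + (R + 1) * C) := by
  set s := n + k + 2 with hs
  have hs2 : 2 ≤ s := by omega
  have h1 : R ≤ s ^ R := (Nat.lt_pow_self (by omega)).le
  have h2 : k ^ R ≤ s ^ R := Nat.pow_le_pow_left (by omega) R
  have h3 : s ≤ s ^ R := by
    calc s = s ^ 1 := (pow_one s).symm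
      _ ≤ s ^ R := Nat.pow_le_pow_right (by omega) hR
  have h4 : n + k ^ R + 2 ≤ s ^ (R + 1) := by
    have h5 : n + 2 ≤ s := by omega
    calc n + k ^ R + 2 ≤ s ^ R + s ^ R := by omega
      _ = 2 * s ^ R := by ring
      _ ≤ s * s ^ R := Nat.mul_le_mul_right _ hs2
      _ = s ^ (R + 1) := by ring
  have h5 : (n + k ^ R + 2) ^ C ≤ s ^ ((R + 1) * C) := by
    rw [pow_mul]
    exact Nat.pow_le_pow_left h4 C
  have h6 : 1 ≤ s ^ ((R + 1) * C) := Nat.one_le_pow _ _ (by omega)
  have h7 : 2 + (n + k ^ R + 2) ^ C ≤ s ^ 2 * s ^ ((R + 1) * C) := by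
    have h8 : 4 ≤ s ^ 2 := by nlinarith
    nlinarith
  calc R * (2 + (n + k ^ R + 2) ^ C) ≤ s ^ R * (s ^ 2 * s ^ ((R + 1) * C)) :=
        Nat.mul_le_mul h1 h7
    _ = s ^ (R + 2 + (R + 1) * C) := by
        rw [pow_add, pow_add]
        ring

theorem short_words_cr {S : Type*} [Semigroup S] [Finite S]
    (h : ∀ e x : S, e * e = e → e * x = x → x * e = x → ∃ y : S, x * y * x = x ∧ x * y = y * x) :
    ∃ C : ℕ, ∀ (n k : ℕ) (a : Fin k → Fin n → S) (b : Fin n → S),
      b ∈ Subsemigroup.closure (Set.range a) →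
        ∃ w : FreeSemigroup (Fin k), w.length ≤ (n + k + 2) ^ C ∧ FreeSemigroup.lift a w = b := by
  classical
  have hfin : Finite (WithOne S) := inferInstanceAs (Finite (Option S))
  obtain ⟨C, hC⟩ := short_path (WithOne S)
  have hR : 0 < Nat.card S + 1 := Nat.succ_pos _
  refine ⟨Nat.card S + 1 + 2 + (Nat.card S + 1 + 1) * C, fun n k a b hb => ?_⟩
  obtain ⟨x, rfl⟩ := (mem_closure_iff a b).1 hb
  have hlist : ∃ w' : List (Fin k), w' ≠ [] ∧
      w'.length ≤ (n + k + 2) ^ (Nat.card S + 1 + 2 + (Nat.card S + 1 + 1) * C) ∧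
      ∀ i, vw a i w' = vw a i (x.head :: x.tail) := by
    have hne : x.head :: x.tail ≠ [] := List.cons_ne_nil _ _
    generalize x.head :: x.tail = w₀ at hne
    obtain ⟨bs, t, hw, ht⟩ := A3_cut hR w₀.length w₀ le_rfl
    have hbd := A3_bound (n := n) (k := k) (C := C) hR
    have hpos : 1 ≤ (n + k ^ (Nat.card S + 1) + 2) ^ C := Nat.one_le_pow _ _ (by omega)
    cases bs with
    | nil =>
      refine ⟨w₀, hne, ?_, fun i => rfl⟩
      have h4 : w₀ = t := by rw [hw, List.flatMap_nil, List.nil_append]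
      rw [h4]
      refine ht.le.trans (le_trans ?_ hbd)
      nlinarith
    | cons c bs =>
      obtain ⟨N, X, Z, hs, htg, hv⟩ := word_net h a
      obtain ⟨b', hb'⟩ := A3_pt hs htg bs c
      obtain ⟨l', hl1, hl2, hl3⟩ := hC n _ _ N c b' (A3_path c bs) hb'
      have e1 : w₀ = List.ofFn c ++ (A3_path c bs).flatMap (fun p => List.ofFn p.2) ++ t := by
        rw [hw, List.flatMap_cons, A3_flat]
      refine ⟨List.ofFn c ++ l'.flatMap (fun p => List.ofFn p.2) ++ t, ?_, ?_, fun i => ?_⟩
      · intro h0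
        have h5 := congrArg List.length h0
        rw [List.length_append, List.length_append, List.length_ofFn, List.length_nil] at h5
        omega
      · rw [List.length_append, List.length_append, List.length_ofFn, A3_len]
        rw [Fintype.card_fun, Fintype.card_fin, Fintype.card_fin] at hl3
        refine le_trans ?_ hbd
        have h6 := Nat.mul_le_mul_left (Nat.card S + 1) hl3
        rw [mul_add]
        omega
      · rw [e1, vw_append a i (List.ofFn c ++ l'.flatMap (fun p => List.ofFn p.2)) t,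
          vw_append a i (List.ofFn c ++ (A3_path c bs).flatMap (fun p => List.ofFn p.2)) t,
          ← hv c b' l' i hl1, ← hv c b' _ i hb', hl2 i]
  obtain ⟨w', h1, h2, h3⟩ := hlist
  obtain ⟨y, hy1, hy2⟩ := lift_of_list a (FreeSemigroup.lift a x) w' h1
    (fun i => by rw [h3 i, ← vw_lift])
  exact ⟨y, by rw [hy1]; exact h2, hy2⟩

end Pool.Agent.LibCR14
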