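import Pool.Agent.LibCR14.Defs

/-!
[CR14 D0] (SHORT, several) Basic lemmas on balls `Bal Y l` in a group.
`bal_pow`: induction on `k` (`g ^ (k+1) = g ^ k * g`). `bal_inv`: `g⁻¹ = g ^ (e - 1)`, then `bal_mono`. `bal_comp`: induction on the list. `bal_list`: induction on the list.
`closure_ind`: `Subgroup.closure_induction` needs inverses; better: for a group of exponent `e > 0` the submonoid closure of `Y` is a subgroup (`y⁻¹ = y ^ (e-1)`), so every `g ∈ closure Y` is the product of a list over `Y`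
(`Submonoid.exists_list_of_mem_closure` after showing `g ∈ Submonoid.closure Y` by `Subgroup.closure_induction`, the inverse of `x ∈ Submonoid.closure Y` is `x ^ (e-1)`); then induct on the list from the right (`List.reverseRecOn`).
`exists_bal`: the same list.
-/

set_option autoImplicit false

namespace Pool.Agent.LibCR14

variable {G : Type*} [Group G] {Y Z : Set G}

theorem bal_one (Y : Set G) (l : ℕ) : (1 : G) ∈ Bal Y l := by
  exact ⟨[], Nat.zero_le _, by simp, by simp⟩

theorem bal_mem {y : G} (hy : y ∈ Y) {l : ℕ} (hl : 1 ≤ l) : y ∈ Bal Y l := by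
  exact ⟨[y], by simpa using hl, by simpa using hy, by simp⟩

theorem bal_mono {l l' : ℕ} (h : l ≤ l') {g : G} (hg : g ∈ Bal Y l) : g ∈ Bal Y l' := by
  obtain ⟨L, h1, h2, h3⟩ := hg
  exact ⟨L, h1.trans h, h2, h3⟩

theorem bal_mul {l l' : ℕ} {g h : G} (hg : g ∈ Bal Y l) (hh : h ∈ Bal Y l') : g * h ∈ Bal Y (l + l') := by
  obtain ⟨L, h1, h2, h3⟩ := hg
  obtain ⟨L', h1', h2', h3'⟩ := hh
  refine ⟨L ++ L', ?_, ?_, ?_⟩
  · rw [List.length_append]
    omega
  · intro x hx
    rcases List.mem_append.1 hx with hx | hx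
    · exact h2 x hx
    · exact h2' x hx
  · rw [List.prod_append, h3, h3']

theorem bal_pow {l : ℕ} {g : G} (hg : g ∈ Bal Y l) (k : ℕ) : g ^ k ∈ Bal Y (k * l) := by
  induction k with
  | zero =>
    rw [pow_zero]
    exact bal_one Y _
  | succ k ih =>
    rw [pow_succ, Nat.succ_mul]
    exact bal_mul ih hg

theorem bal_inv {e : ℕ} (he : 0 < e) (hex : ∀ g : G, g ^ e = 1) {l : ℕ} {g : G} (hg : g ∈ Bal Y l) :
    g⁻¹ ∈ Bal Y (e * l) := by
  have h1 : g⁻¹ = g ^ (e - 1) := by
    rw [inv_eq_iff_mul_eq_one, ← pow_succ', Nat.sub_add_cancel he]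
    exact hex g
  rw [h1]
  exact bal_mono (Nat.mul_le_mul_right _ (Nat.sub_le _ _)) (bal_pow hg _)

theorem bal_closure {l : ℕ} {g : G} (hg : g ∈ Bal Y l) : g ∈ Subgroup.closure Y := by
  obtain ⟨L, _, h2, h3⟩ := hg
  rw [← h3]
  exact Subgroup.list_prod_mem _ fun x hx => Subgroup.subset_closure (h2 x hx)

theorem bal_comp {l l' : ℕ} (h : ∀ z ∈ Z, z ∈ Bal Y l) {g : G} (hg : g ∈ Bal Z l') : g ∈ Bal Y (l' * l) := by
  obtain ⟨L, h1, h2, h3⟩ := hg
  have key : ∀ L : List G, (∀ x ∈ L, x ∈ Bal Y l) → L.prod ∈ Bal Y (L.length * l) := by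
    intro L
    induction L with
    | nil =>
      intro _
      rw [List.prod_nil]
      exact bal_one Y _
    | cons a L ih =>
      intro hL
      rw [List.prod_cons, List.length_cons, Nat.succ_mul, Nat.add_comm]
      exact bal_mul (hL a (List.mem_cons_self ..)) (ih fun x hx => hL x (List.mem_cons_of_mem _ hx))
  rw [← h3]
  exact bal_mono (Nat.mul_le_mul_right _ h1) (key L fun x hx => h x (h2 x hx))

theorem bal_list {l : ℕ} (L : List G) (h : ∀ x ∈ L, x ∈ Bal Y l) : L.prod ∈ Bal Y (L.length * l) := by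
  induction L with
  | nil =>
    rw [List.prod_nil]
    exact bal_one Y _
  | cons a L ih =>
    rw [List.prod_cons, List.length_cons, Nat.succ_mul, Nat.add_comm]
    exact bal_mul (h a (List.mem_cons_self ..)) (ih fun x hx => h x (List.mem_cons_of_mem _ hx))

private theorem D0_list {e : ℕ} (he : 0 < e) (hex : ∀ g : G, g ^ e = 1) {g : G}
    (hg : g ∈ Subgroup.closure Y) : ∃ L : List G, (∀ x ∈ L, x ∈ Y) ∧ L.prod = g := by
  have h1 : g ∈ Submonoid.closure Y := by
    induction hg using Subgroup.closure_induction with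
    | mem x hx => exact Submonoid.subset_closure hx
    | one => exact one_mem _
    | mul x y _ _ hx hy => exact mul_mem hx hy
    | inv x _ hx =>
      have h2 : x⁻¹ = x ^ (e - 1) := by
        rw [inv_eq_iff_mul_eq_one, ← pow_succ', Nat.sub_add_cancel he]
        exact hex x
      rw [h2]
      exact pow_mem hx _
  exact Submonoid.exists_list_of_mem_closure h1

theorem exists_bal {e : ℕ} (he : 0 < e) (hex : ∀ g : G, g ^ e = 1) {g : G} (hg : g ∈ Subgroup.closure Y) :
    ∃ l, g ∈ Bal Y l := by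
  obtain ⟨L, h1, h2⟩ := D0_list he hex hg
  exact ⟨L.length, L, le_rfl, h1, h2⟩

theorem closure_ind {e : ℕ} (he : 0 < e) (hex : ∀ g : G, g ^ e = 1) {P : G → Prop} (h1 : P 1)
    (hs : ∀ g ∈ Subgroup.closure Y, P g → ∀ y ∈ Y, P (g * y)) {g : G} (hg : g ∈ Subgroup.closure Y) : P g := by
  obtain ⟨L, h2, h3⟩ := D0_list he hex hg
  rw [← h3]
  clear h3
  induction L using List.reverseRecOn with
  | nil =>
    rw [List.prod_nil]
    exact h1
  | append_singleton L a ih =>
    have h4 : ∀ x ∈ L, x ∈ Y := fun x hx => h2 x (List.mem_append_left _ hx)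
    rw [List.prod_append, List.prod_singleton]
    refine hs _ (Subgroup.list_prod_mem _ fun x hx => Subgroup.subset_closure (h4 x hx)) (ih h4) a
      (h2 a (List.mem_append_right _ (List.mem_singleton_self a)))

private theorem D0_lift {H : Type*} [Group H] (f : G → H) (h1 : f 1 = 1)
    (hf : ∀ g ∈ Subgroup.closure Y, ∀ y ∈ Y, f (g * y) = f g * f y) {l : ℕ} {h : H} (hh : h ∈ Bal (f '' Y) l) :
    ∃ g ∈ Bal Y l, f g = h := by
  obtain ⟨L, h2, h3, h4⟩ := hh
  have key : ∀ L : List H, (∀ x ∈ L, x ∈ f '' Y) →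
      ∃ L' : List G, L'.length = L.length ∧ (∀ x ∈ L', x ∈ Y) ∧ f L'.prod = L.prod := by
    intro L
    induction L using List.reverseRecOn with
    | nil =>
      intro _
      exact ⟨[], rfl, by simp, by simpa using h1⟩
    | append_singleton L a ih =>
      intro hL
      obtain ⟨L', h5, h6, h7⟩ := ih fun x hx => hL x (List.mem_append_left _ hx)
      obtain ⟨y, hy, hya⟩ := hL a (List.mem_append_right _ (List.mem_singleton_self a))
      refine ⟨L' ++ [y], ?_, ?_, ?_⟩
      · rw [List.length_append, List.length_append, h5, List.length_singleton,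
          List.length_singleton]
      · intro x hx
        rcases List.mem_append.1 hx with hx | hx
        · exact h6 x hx
        · rw [List.mem_singleton.1 hx]
          exact hy
      · rw [List.prod_append, List.prod_singleton, List.prod_append, List.prod_singleton,
          hf _ (Subgroup.list_prod_mem _ fun x hx => Subgroup.subset_closure (h6 x hx)) y hy, h7,
          hya]
  obtain ⟨L', h5, h6, h7⟩ := key L h3
  exact ⟨L'.prod, ⟨L', h5.le.trans h2, h6, rfl⟩, h7.trans h4⟩

/-- images of balls under homomorphisms, both directions -/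
theorem bal_map {H : Type*} [Group H] (f : G →* H) {l : ℕ} {g : G} (hg : g ∈ Bal Y l) : f g ∈ Bal (f '' Y) l := by
  obtain ⟨L, h1, h2, h3⟩ := hg
  refine ⟨L.map f, ?_, ?_, ?_⟩
  · rw [List.length_map]
    exact h1
  · intro x hx
    obtain ⟨a, ha, rfl⟩ := List.mem_map.1 hx
    exact Set.mem_image_of_mem f (h2 a ha)
  · rw [← h3, map_list_prod]

theorem bal_lift {H : Type*} [Group H] (f : G →* H) {l : ℕ} {h : H} (hh : h ∈ Bal (f '' Y) l) :
    ∃ g ∈ Bal Y l, f g = h := by
  exact D0_lift (fun g => f g) (map_one f) (fun g _ y _ => map_mul f g y) hh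

/-- lifting of words along a map which is multiplicative on the subgroup generated by `Y` only -/
theorem bal_lift' {H : Type*} [Group H] (f : G → H) (h1 : f 1 = 1)
    (hf : ∀ g ∈ Subgroup.closure Y, ∀ y ∈ Y, f (g * y) = f g * f y) {l : ℕ} {h : H} (hh : h ∈ Bal (f '' Y) l) :
    ∃ g ∈ Bal Y l, f g = h := by
  exact D0_lift f h1 hf hh

end Pool.Agent.LibCR14
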