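import Pool.Agent.LibCR14.D0

/-!
[CR14 D1] (SHORT/MEDIUM) In a finite group `G` every element generated by `Y` is a product of at most `Nat.card G` elements of `Y`.
Take the least `l` with `g ∈ Bal Y l` (`exists_bal` with `e = Nat.card G`, `pow_card_eq_one'`), with list `L`, `L.length = l`. If `l > Nat.card G`: the `l + 1` prefix products `(L.take j).prod`, `j ≤ l`, are not distinct
(`Fintype.exists_ne_map_eq_of_card_lt` on `Fin (l + 1) → G`): `(L.take i).prod = (L.take j).prod`, `i < j`; then `L.take i ++ L.drop j` is shorter with the same product: contradiction to minimality.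
-/

set_option autoImplicit false

namespace Pool.Agent.LibCR14

theorem bal_card {G : Type*} [Group G] [Finite G] {Y : Set G} {g : G} (hg : g ∈ Subgroup.closure Y) :
    g ∈ Bal Y (Nat.card G) := by
  classical
  have hex : ∀ x : G, x ^ Nat.card G = 1 := fun x => pow_card_eq_one'
  have hB := exists_bal Nat.card_pos hex hg
  have hl := Nat.find_spec hB
  have hmin : ∀ l, g ∈ Bal Y l → Nat.find hB ≤ l := fun l h => Nat.find_min' hB h
  obtain ⟨L, hL1, hL2, hL3⟩ := hl
  have hlen : Nat.find hB ≤ L.length := hmin _ ⟨L, le_rfl, hL2, hL3⟩
  refine ⟨L, ?_, hL2, hL3⟩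
  by_contra hc
  push Not at hc
  have := Fintype.ofFinite G
  have hcard : Fintype.card G < Fintype.card (Fin (L.length + 1)) := by
    rw [Fintype.card_fin, ← Nat.card_eq_fintype_card]
    omega
  obtain ⟨i, j, hij, he⟩ := Fintype.exists_ne_map_eq_of_card_lt
    (fun i : Fin (L.length + 1) => (L.take i.1).prod) hcard
  have key : ∀ i j : Fin (L.length + 1), i < j → (L.take i.1).prod = (L.take j.1).prod → False := by
    intro i j hlt he
    have h1 : g ∈ Bal Y (L.take i.1 ++ L.drop j.1).length := by
      refine ⟨_, le_rfl, ?_, ?_⟩
      · intro x hx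
        rcases List.mem_append.1 hx with h | h
        · exact hL2 x (List.mem_of_mem_take h)
        · exact hL2 x (List.mem_of_mem_drop h)
      · rw [List.prod_append, he, List.prod_take_mul_prod_drop, hL3]
    have h2 := hmin _ h1
    rw [List.length_append, List.length_take, List.length_drop] at h2
    have h3 := i.2
    have h4 := j.2
    have h5 : i.1 < j.1 := hlt
    omega
  rcases lt_or_gt_of_ne hij with h | h
  · exact key i j h he
  · exact key j i h he.symm

end Pool.Agent.LibCR14
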