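import Pool.Agent.LibCR14.D0

/-!
[CR14 D2] (SHORT/MEDIUM) Schreier's lemma with lengths. `N'` is any subgroup (not normal).
`schreier`: `closure_ind` on `g`: `g = 1`: `z = 1`, `t = 1`. Step: `g = z t`, `g y = z (t y)`; `t y ∈ closure Y`, `h` gives `t' ∈ Bal Y l` with `s := t y t'⁻¹ ∈ N'`; `s ∈ Bal Y (l + 1 + e l)` (bal_mul, bal_mem, bal_inv); `g y = (z s) t'`.
`schreier_mem`: if moreover `g ∈ N'`, then `t = z⁻¹ g ∈ N'` (`z ∈ N'` since `closure (N' ∩ _) ≤ N'`), `t ∈ Bal Y l ⊆ Bal Y (l + 1 + e l)`.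
-/

set_option autoImplicit false

namespace Pool.Agent.LibCR14

variable {G : Type*} [Group G] {Y : Set G}

theorem schreier {e : ℕ} (he : 0 < e) (hex : ∀ g : G, g ^ e = 1) (N' : Subgroup G) {l : ℕ}
    (h : ∀ g ∈ Subgroup.closure Y, ∃ t ∈ Bal Y l, g * t⁻¹ ∈ N') {g : G} (hg : g ∈ Subgroup.closure Y) :
    ∃ z ∈ Subgroup.closure ((N' : Set G) ∩ Bal Y (l + 1 + e * l)), ∃ t ∈ Bal Y l, g = z * t := by
  refine closure_ind (Y := Y) (P := fun g => ∃ z ∈ Subgroup.closure ((N' : Set G) ∩ Bal Y (l + 1 + e * l)),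
    ∃ t ∈ Bal Y l, g = z * t) he hex ?_ ?_ hg
  · exact ⟨1, one_mem _, 1, bal_one Y l, (one_mul 1).symm⟩
  · rintro g - ⟨z, hz, t, ht, rfl⟩ y hy
    have hty : t * y ∈ Subgroup.closure Y :=
      mul_mem (bal_closure ht) (Subgroup.subset_closure hy)
    obtain ⟨t', ht', hs⟩ := h (t * y) hty
    have hb : t * y * t'⁻¹ ∈ Bal Y (l + 1 + e * l) :=
      bal_mul (bal_mul ht (bal_mem hy le_rfl)) (bal_inv he hex ht')
    refine ⟨z * (t * y * t'⁻¹), mul_mem hz (Subgroup.subset_closure ⟨hs, hb⟩), t', ht', ?_⟩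
    group

theorem schreier_mem {e : ℕ} (he : 0 < e) (hex : ∀ g : G, g ^ e = 1) (N' : Subgroup G) {l : ℕ}
    (h : ∀ g ∈ Subgroup.closure Y, ∃ t ∈ Bal Y l, g * t⁻¹ ∈ N') {g : G} (hg : g ∈ Subgroup.closure Y)
    (hN : g ∈ N') : g ∈ Subgroup.closure ((N' : Set G) ∩ Bal Y (l + 1 + e * l)) := by
  obtain ⟨z, hz, t, ht, rfl⟩ := schreier he hex N' h hg
  have hzN : z ∈ N' := ((Subgroup.closure_le N').2 Set.inter_subset_left) hz
  have htN : t ∈ N' := by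
    have h1 : z⁻¹ * (z * t) ∈ N' := mul_mem (inv_mem hzN) hN
    rwa [inv_mul_cancel_left] at h1
  have hb : t ∈ Bal Y (l + 1 + e * l) := bal_mono (by omega) ht
  exact mul_mem hz (Subgroup.subset_closure ⟨htN, hb⟩)

end Pool.Agent.LibCR14
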