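import Pool.Agent.LibCR14.D2

/-!
[CR14 D3] (MEDIUM) Extensions. `e = Nat.card G` (`pow_card_eq_one'`, in `Fin n → G` coordinatewise).
`C₁` for `N`, `C₂` for `G ⧸ N`. Given `n`, `Y ⊆ Fin n → G`, `g ∈ closure Y`. `π : (Fin n → G) →* (Fin n → G ⧸ N)`, `π x i = QuotientGroup.mk (x i)` (`MonoidHom.compLeft` or `Pi.monoidHom`). `N' = π.ker`.
For `g ∈ closure Y`: `π g ∈ closure (π '' Y)` (`MonoidHom.map_closure`), so in `Bal (π '' Y) ((n+2)^C₂)`; `bal_lift` gives `t ∈ Bal Y ((n+2)^C₂)` with `π t = π g`, so `g * t⁻¹ ∈ N'`.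
`schreier`: `g = z t`, `z ∈ closure Z`, `Z = N' ∩ Bal Y l'`, `l' = l + 1 + e l`. The elements of `Z` have all coordinates in `N`: let `ι : (Fin n → N) →* (Fin n → G)` be the inclusion, `Z₀ = ι ⁻¹' Z`, `ι '' Z₀ = Z`
(`QuotientGroup.eq_one_iff`). `z = ι z₀`, `z₀ ∈ closure Z₀` (`MonoidHom.map_closure`, injectivity not even needed: `closure Z = (closure Z₀).map ι`). `Dia N`: `z₀ ∈ Bal Z₀ ((n+2)^C₁)`, so `z ∈ Bal Z ((n+2)^C₁)` (bal_map),
`z ∈ Bal Y ((n+2)^C₁ * l')` (bal_comp). Total `≤ (n+2)^C₁ * (l + 1 + e l) + l`, `l = (n+2)^C₂`; `e ≤ 2 ^ e ≤ (n+2)^e`; so `C = C₁ + C₂ + e + 3` is enough.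
-/

set_option autoImplicit false

namespace Pool.Agent.LibCR14

theorem Dia_ext {G : Type*} [Group G] [Finite G] (N : Subgroup G) [N.Normal] (h1 : Dia N) (h2 : Dia (G ⧸ N)) :
    Dia G := by
  obtain ⟨C₁, h1⟩ := h1
  obtain ⟨C₂, h2⟩ := h2
  have he : 0 < Nat.card G := Nat.card_pos
  refine ⟨C₁ + C₂ + Nat.card G + 3, fun n Y g hg => ?_⟩
  have hex : ∀ x : Fin n → G, x ^ Nat.card G = 1 := by
    intro x
    funext i
    rw [Pi.pow_apply, Pi.one_apply]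
    exact pow_card_eq_one'
  set l := (n + 2) ^ C₂ with hl
  let π : (Fin n → G) →* (Fin n → G ⧸ N) := (QuotientGroup.mk' N).compLeft (Fin n)
  have h : ∀ g ∈ Subgroup.closure Y, ∃ t ∈ Bal Y l, g * t⁻¹ ∈ π.ker := by
    intro g hg
    have h3 : π g ∈ Subgroup.closure (π '' Y) := by
      rw [← MonoidHom.map_closure]
      exact Subgroup.mem_map_of_mem π hg
    obtain ⟨t, ht, e⟩ := bal_lift π (h2 n (π '' Y) (π g) h3)
    exact ⟨t, ht, by rw [MonoidHom.mem_ker, map_mul, map_inv, e, mul_inv_cancel]⟩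
  obtain ⟨z, hz, t, ht, rfl⟩ := schreier he hex π.ker h hg
  set l' := l + 1 + Nat.card G * l with hl'
  let ι : (Fin n → N) →* (Fin n → G) := N.subtype.compLeft (Fin n)
  have hZ : ι '' (ι ⁻¹' ((π.ker : Set (Fin n → G)) ∩ Bal Y l')) = (π.ker : Set (Fin n → G)) ∩ Bal Y l' := by
    apply Set.image_preimage_eq_of_subset
    rintro x ⟨hx, -⟩
    have hx' : ∀ i, x i ∈ N := by
      intro i
      have h4 : π x = 1 := hx
      have h5 := congrFun h4 i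
      exact (QuotientGroup.eq_one_iff (x i)).1 h5
    exact ⟨fun i => ⟨x i, hx' i⟩, rfl⟩
  rw [← hZ, ← MonoidHom.map_closure] at hz
  obtain ⟨z₀, hz₀, rfl⟩ := hz
  have h3 := bal_map ι (h1 n _ z₀ hz₀)
  rw [hZ] at h3
  have h4 : ι z₀ ∈ Bal Y ((n + 2) ^ C₁ * l') := bal_comp (fun z hz => hz.2) h3
  refine bal_mono ?_ (bal_mul h4 ht)
  have hA : 1 ≤ (n + 2) ^ C₁ := Nat.one_le_pow _ _ (by omega)
  have hL : 1 ≤ l := Nat.one_le_pow _ _ (by omega)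
  have hE : Nat.card G ≤ (n + 2) ^ Nat.card G :=
    (Nat.lt_two_pow_self).le.trans (Nat.pow_le_pow_left (by omega) _)
  have hB : 1 ≤ (n + 2) ^ Nat.card G := Nat.one_le_pow _ _ (by omega)
  have h4' : 4 ≤ (n + 2) ^ 3 := by
    have : 2 ^ 3 ≤ (n + 2) ^ 3 := Nat.pow_le_pow_left (by omega) 3
    omega
  calc (n + 2) ^ C₁ * l' + l ≤ (n + 2) ^ C₁ * (l + l + Nat.card G * l) + (n + 2) ^ C₁ * l := by
        refine Nat.add_le_add (Nat.mul_le_mul_left _ ?_) ?_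
        · rw [hl']; omega
        · exact Nat.le_mul_of_pos_left l (by omega)
    _ = (n + 2) ^ C₁ * l * (3 + Nat.card G) := by ring
    _ ≤ (n + 2) ^ C₁ * l * (4 * (n + 2) ^ Nat.card G) := Nat.mul_le_mul_left _ (by omega)
    _ ≤ (n + 2) ^ C₁ * l * ((n + 2) ^ 3 * (n + 2) ^ Nat.card G) :=
        Nat.mul_le_mul_left _ (Nat.mul_le_mul_right _ h4')
    _ = (n + 2) ^ (C₁ + C₂ + Nat.card G + 3) := by
        rw [hl, ← pow_add, ← pow_add, ← pow_add]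
        congr 1
        ring

end Pool.Agent.LibCR14
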