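import Pool.Agent.LibCR14.D3

/-!
[CR14 D4] (SHORT/MEDIUM) Closure properties of `Dia`.
`Dia_inj`: `F : (Fin n → H) →* (Fin n → G)`, `x ↦ (i ↦ f (x i))`, injective. `g ∈ closure Y` gives `F g ∈ closure (F '' Y)`, `F g ∈ Bal (F '' Y) _`, `bal_lift`: `g' ∈ Bal Y _` with `F g' = F g`, so `g' = g`.
`Dia_trivial`: `C = 0`, `g = 1` (`bal_one`).
`Dia_prod`: `Dia_ext` with `N = (MonoidHom.snd A B).ker`: `N` embeds in `A` (`Dia_inj` with `x ↦ x.1.1`, injective on the kernel), `(A × B) ⧸ N` embeds in `B` (`QuotientGroup.kerLift`, `QuotientGroup.kerLift_injective`).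
`Dia_pi`: induction on `Finite ι`: `Finite.induction_empty_option`: transport along `ι ≃ ι'` with `MulEquiv.piCongrLeft'`-like injection (`Dia_inj`), empty: `Dia_trivial`, option: `(∀ i : Option ι, G i)` embeds in
`G none × ∀ i, G (some i)` (`Dia_inj`, `Dia_prod`). Alternative: choose an equiv `ι ≃ Fin k` and induct on `k` (`Fin.cons`).
-/

set_option autoImplicit false

namespace Pool.Agent.LibCR14

theorem Dia_inj {G H : Type*} [Group G] [Group H] (f : H →* G) (hf : Function.Injective f) (h : Dia G) : Dia H := by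
  obtain ⟨C, h⟩ := h
  refine ⟨C, fun n Y g hg => ?_⟩
  let F : (Fin n → H) →* (Fin n → G) := f.compLeft (Fin n)
  have h1 : F g ∈ Subgroup.closure (F '' Y) := by
    rw [← MonoidHom.map_closure]
    exact Subgroup.mem_map_of_mem F hg
  obtain ⟨g', hg', e⟩ := bal_lift F (h n (F '' Y) (F g) h1)
  have h2 : g' = g := by
    funext i
    exact hf (congrFun e i)
  rwa [h2] at hg'

theorem Dia_trivial {G : Type*} [Group G] [Subsingleton G] : Dia G := by
  refine ⟨0, fun n Y g _ => ?_⟩
  rw [Subsingleton.elim g 1]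
  exact bal_one _ _

theorem Dia_prod {A B : Type*} [Group A] [Group B] [Finite A] [Finite B] (hA : Dia A) (hB : Dia B) :
    Dia (A × B) := by
  refine Dia_ext (MonoidHom.snd A B).ker ?_ ?_
  · refine Dia_inj ((MonoidHom.fst A B).comp (MonoidHom.snd A B).ker.subtype) ?_ hA
    rintro ⟨⟨a, b⟩, hx⟩ ⟨⟨a', b'⟩, hy⟩ hxy
    have h1 : b = 1 := hx
    have h2 : b' = 1 := hy
    have h3 : a = a' := hxy
    subst h1 h2 h3
    rfl
  · exact Dia_inj (QuotientGroup.kerLift (MonoidHom.snd A B)) (QuotientGroup.kerLift_injective _) hB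

private theorem D4_fin (k : ℕ) : ∀ (G : Fin k → Type*) [∀ i, Group (G i)] [∀ i, Finite (G i)]
    (_ : ∀ i, Dia (G i)), Dia (∀ i, G i) := by
  induction k with
  | zero =>
    intro G _ _ _
    exact Dia_trivial
  | succ k ih =>
    intro G _ _ h
    have h1 : Dia (G 0 × ∀ i : Fin k, G i.succ) := Dia_prod (h 0) (ih (fun i => G i.succ) fun i => h i.succ)
    let f : (∀ i, G i) →* (G 0 × ∀ i : Fin k, G i.succ) :=
      { toFun := fun x => (x 0, fun i : Fin k => x i.succ)
        map_one' := rfl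
        map_mul' := fun _ _ => rfl }
    refine Dia_inj f ?_ h1
    intro x y hxy
    have h2 : x 0 = y 0 := congrArg Prod.fst hxy
    have h3 : ∀ j : Fin k, x j.succ = y j.succ := fun j => congrFun (congrArg Prod.snd hxy) j
    funext i
    exact Fin.cases h2 h3 i

theorem Dia_pi {ι : Type*} [Finite ι] (G : ι → Type*) [∀ i, Group (G i)] [∀ i, Finite (G i)]
    (h : ∀ i, Dia (G i)) : Dia (∀ i, G i) := by
  obtain ⟨k, ⟨e⟩⟩ := Finite.exists_equiv_fin ι
  have h1 : Dia (∀ j : Fin k, G (e.symm j)) := D4_fin k (fun j => G (e.symm j)) fun j => h _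
  let f : (∀ i, G i) →* (∀ j : Fin k, G (e.symm j)) :=
    { toFun := fun x j => x (e.symm j)
      map_one' := rfl
      map_mul' := fun _ _ => rfl }
  refine Dia_inj f ?_ h1
  intro x y hxy
  funext i
  obtain ⟨j, rfl⟩ := e.symm.surjective i
  exact congrFun hxy j

end Pool.Agent.LibCR14
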