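import Pool.Agent.LibCR14.D0

/-!
[CR14 D5] (MEDIUM) Commutative groups.
`exists_small_gen`: for a subset `Y` of a finite group `Γ` (here `Γ = Fin n → G`) there is a finite `Y₀ ⊆ Y` with `closure Y₀ = closure Y` and `2 ^ Y₀.card ≤ Nat.card Γ`: prove by induction on `k`: either there is `Y₀ ⊆ Y` with
`closure Y₀ = closure Y` and `2 ^ Y₀.card ≤ Nat.card (closure Y₀)`, or there is `Y₀ ⊆ Y`, `Y₀.card = k`, `2 ^ k ≤ Nat.card (closure Y₀)`: if some `y ∈ Y` is not in `H = closure Y₀`, then `H < closure (insert y Y₀)`, the index is at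
least 2 (`Subgroup.card_dvd_of_le`, strictly larger), stop since `2 ^ k ≤ Nat.card Γ`. (Or: take `Y₀ ⊆ Y` finite of MAXIMAL card with `2 ^ Y₀.card ≤ Nat.card (closure Y₀)`.)
`comm_bal`: commutative, `g ∈ closure Y₀`: `g ∈ Bal Y₀ (Y₀.card * e)`: `Finset.induction_on Y₀` : `closure (insert y Y₀) = closure {y} ⊔ closure Y₀` (`Subgroup.closure_insert`/`mem_sup`, commutative), an element of `closure {y}` is
`y ^ z = y ^ (z mod e).toNat`, in `Bal _ e`.
`Dia_comm`: `2 ^ card ≤ Nat.card (Fin n → G) = (Nat.card G) ^ n ≤ 2 ^ (Nat.card G * n)`, so `card ≤ Nat.card G * n`; length `≤ Nat.card G * n * Nat.card G ≤ (n+2)^(2 * Nat.card G + 1)`.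
-/

set_option autoImplicit false

namespace Pool.Agent.LibCR14

private theorem D5_sub {Γ : Type*} [Group Γ] {Y Z : Set Γ} (h : Y ⊆ Z) {l : ℕ} {g : Γ} (hg : g ∈ Bal Y l) :
    g ∈ Bal Z l := by
  obtain ⟨L, h1, h2, h3⟩ := hg
  exact ⟨L, h1, fun x hx => h (h2 x hx), h3⟩

theorem exists_small_gen {Γ : Type*} [Group Γ] [Finite Γ] (Y : Set Γ) :
    ∃ Y₀ : Finset Γ, (Y₀ : Set Γ) ⊆ Y ∧ Subgroup.closure (Y₀ : Set Γ) = Subgroup.closure Y ∧
      2 ^ Y₀.card ≤ Nat.card Γ := by
  classical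
  have := Fintype.ofFinite Γ
  let s : Finset (Finset Γ) := Finset.univ.filter
    (fun Y₀ => (Y₀ : Set Γ) ⊆ Y ∧ 2 ^ Y₀.card ≤ Nat.card (Subgroup.closure (Y₀ : Set Γ)))
  have hs : ∀ Y₀, Y₀ ∈ s ↔ (Y₀ : Set Γ) ⊆ Y ∧ 2 ^ Y₀.card ≤ Nat.card (Subgroup.closure (Y₀ : Set Γ)) := by
    intro Y₀
    simp [s]
  have hne : s.Nonempty := by
    refine ⟨∅, (hs ∅).2 ⟨by simp, ?_⟩⟩
    rw [Finset.card_empty, pow_zero]
    exact Nat.card_pos
  obtain ⟨Y₀, hY₀, hmax⟩ := Finset.exists_max_image s Finset.card hne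
  obtain ⟨h1, h2⟩ := (hs Y₀).1 hY₀
  refine ⟨Y₀, h1, ?_, h2.trans (Subgroup.card_le_card_group _)⟩
  refine le_antisymm (Subgroup.closure_mono h1) ?_
  rw [Subgroup.closure_le]
  intro y hy
  by_contra hy'
  have hy0 : y ∉ Y₀ := fun h => hy' (Subgroup.subset_closure (by exact_mod_cast h))
  have hle : Subgroup.closure (Y₀ : Set Γ) ≤ Subgroup.closure ((insert y Y₀ : Finset Γ) : Set Γ) :=
    Subgroup.closure_mono (by exact_mod_cast Finset.subset_insert y Y₀)
  have hmem : y ∈ Subgroup.closure ((insert y Y₀ : Finset Γ) : Set Γ) :=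
    Subgroup.subset_closure (by exact_mod_cast Finset.mem_insert_self y Y₀)
  have hcard : 2 * Nat.card (Subgroup.closure (Y₀ : Set Γ)) ≤
      Nat.card (Subgroup.closure ((insert y Y₀ : Finset Γ) : Set Γ)) := by
    obtain ⟨c, hc⟩ := Subgroup.card_dvd_of_le hle
    have hpos : 0 < Nat.card (Subgroup.closure ((insert y Y₀ : Finset Γ) : Set Γ)) := Nat.card_pos
    rcases Nat.lt_or_ge c 2 with h3 | h3
    · exfalso
      have h4 : c = 0 ∨ c = 1 := by omega
      rcases h4 with rfl | rfl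
      · rw [mul_zero] at hc
        omega
      · rw [mul_one] at hc
        have h5 := Subgroup.eq_of_le_of_card_ge hle hc.le
        rw [← h5] at hmem
        exact hy' hmem
    · rw [hc, mul_comm]
      exact Nat.mul_le_mul_left _ h3
  have hin : insert y Y₀ ∈ s := by
    refine (hs _).2 ⟨?_, ?_⟩
    · intro x hx
      rw [Finset.mem_coe, Finset.mem_insert] at hx
      rcases hx with rfl | hx
      · exact hy
      · exact h1 (by exact_mod_cast hx)
    · rw [Finset.card_insert_of_notMem hy0, pow_succ]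
      omega
  have := hmax _ hin
  rw [Finset.card_insert_of_notMem hy0] at this
  omega

theorem comm_bal {Γ : Type*} [CommGroup Γ] {e : ℕ} (he : 0 < e) (hex : ∀ g : Γ, g ^ e = 1) (Y₀ : Finset Γ) :
    ∀ g ∈ Subgroup.closure (Y₀ : Set Γ), g ∈ Bal (Y₀ : Set Γ) (Y₀.card * e) := by
  classical
  induction Y₀ using Finset.induction_on with
  | empty =>
    intro g hg
    rw [Finset.coe_empty, Subgroup.closure_empty, Subgroup.mem_bot] at hg
    rw [hg]
    exact bal_one _ _
  | insert y s hy ih =>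
    intro g hg
    rw [Finset.coe_insert, Set.insert_eq, Subgroup.closure_union, Subgroup.mem_sup] at hg
    obtain ⟨a, ha, b, hb, rfl⟩ := hg
    rw [Subgroup.mem_closure_singleton] at ha
    obtain ⟨z, rfl⟩ := ha
    have he' : (e : ℤ) ≠ 0 := by exact_mod_cast he.ne'
    have h1 : y ^ z = y ^ (z % (e : ℤ)).toNat := by
      have h2 : ((z % (e : ℤ)).toNat : ℤ) = z % (e : ℤ) := Int.toNat_of_nonneg (Int.emod_nonneg z he')
      rw [← zpow_natCast, h2]
      conv_lhs => rw [← Int.mul_ediv_add_emod z (e : ℤ)]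
      rw [zpow_add, zpow_mul, zpow_natCast, hex, one_zpow, one_mul]
    have h3 : (z % (e : ℤ)).toNat ≤ e := by
      have h4 := Int.emod_lt_of_pos z (show (0 : ℤ) < e by exact_mod_cast he)
      omega
    have hy1 : y ∈ Bal ((insert y s : Finset Γ) : Set Γ) 1 :=
      bal_mem (by exact_mod_cast Finset.mem_insert_self y s) le_rfl
    have h5 : y ^ z ∈ Bal ((insert y s : Finset Γ) : Set Γ) e := by
      rw [h1]
      exact bal_mono (by rw [mul_one]; exact h3) (bal_pow hy1 _)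
    have h6 : b ∈ Bal ((insert y s : Finset Γ) : Set Γ) (s.card * e) :=
      D5_sub (by exact_mod_cast Finset.subset_insert y s) (ih b hb)
    refine bal_mono ?_ (bal_mul h5 h6)
    rw [Finset.card_insert_of_notMem hy, Nat.add_mul, one_mul, add_comm]

theorem Dia_comm {G : Type*} [Group G] [Finite G] (hc : ∀ a b : G, a * b = b * a) : Dia G := by
  refine ⟨2 * Nat.card G + 1, fun n Y g hg => ?_⟩
  let _ : CommGroup G := { (inferInstance : Group G) with mul_comm := hc }
  obtain ⟨Y₀, h1, h2, h3⟩ := exists_small_gen Y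
  have hex : ∀ g : Fin n → G, g ^ Nat.card G = 1 := by
    intro g
    funext i
    exact pow_card_eq_one'
  have hc0 : 0 < Nat.card G := Nat.card_pos
  rw [← h2] at hg
  have h4 := comm_bal hc0 hex Y₀ g hg
  have h5 : 2 ^ Y₀.card ≤ 2 ^ (Nat.card G * n) := by
    refine h3.trans ?_
    rw [Nat.card_fun, Nat.card_fin, pow_mul]
    exact Nat.pow_le_pow_left Nat.lt_two_pow_self.le n
  have h6 : Y₀.card ≤ Nat.card G * n := (Nat.pow_le_pow_iff_right (by norm_num)).1 h5
  refine bal_mono ?_ (D5_sub h1 h4)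
  have h7 : Nat.card G ≤ (n + 2) ^ Nat.card G :=
    Nat.lt_two_pow_self.le.trans (Nat.pow_le_pow_left (by omega) _)
  calc Y₀.card * Nat.card G ≤ (Nat.card G * n) * Nat.card G := Nat.mul_le_mul_right _ h6
    _ = (Nat.card G * Nat.card G) * n := by ring
    _ ≤ ((n + 2) ^ Nat.card G * (n + 2) ^ Nat.card G) * (n + 2) :=
      Nat.mul_le_mul (Nat.mul_le_mul h7 h7) (by omega)
    _ = (n + 2) ^ (2 * Nat.card G + 1) := by
      rw [pow_succ, two_mul, pow_add]

end Pool.Agent.LibCR14
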