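import Pool.Agent.LibCR14.D6c

/-!
[CR14 D6d] (MEDIUM) The commutator tree. `e = Nat.card T`.
Induction on `k`. `k = 0`: `J.card ≤ 1`: `J = ∅`: `one_word`; `J = {j}` (`Finset.card_le_one_iff_subset_singleton` / `Finset.card_eq_one`): `j ∈ R.erase r`, so `Unl _ r j` by `hR`, `pair_word`.
`k + 1`: `J = J₁ ∪ J₂` with both cards `≤ 2 ^ k` (`Finset.exists_subset_card_eq` or: if `J.card ≤ 2^k` take `J₁ = J₂ = J`, otherwise a subset `J₁` of card `2^k` and `J₂ = J \ J₁`), `v = a b a⁻¹ b⁻¹`, `w₁` for `a, J₁`, `w₂` for `b, J₂`,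
`w = w₁ w₂ w₁⁻¹ w₂⁻¹ ∈ Bal Z (l + l + e l + e l)` (bal_mul, bal_inv with `pow_card_eq_one'` coordinatewise). On `J₁`: `w₁ j = 1`, so `w j = 1`; on `J₂`: `w₂ j = 1`.
-/

set_option autoImplicit false

namespace Pool.Agent.LibCR14

variable {T : Type*} [Group T] [Finite T] {n : ℕ} {Z : Set (Fin n → T)}

theorem tree_word (R : Finset (Fin n)) (hF : ∀ r ∈ R, Ful (Subgroup.closure Z) r)
    (hR : ∀ r ∈ R, ∀ r' ∈ R, r ≠ r' → Unl (Subgroup.closure Z) r r') (k : ℕ) :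
    ∀ r ∈ R, ∀ J ⊆ R.erase r, J.card ≤ 2 ^ k → ∀ v ∈ Vk T k,
      ∃ w ∈ Bal Z (Nat.card T * Nat.card T * (2 * Nat.card T + 2) ^ k), w r = v ∧ ∀ j ∈ J, w j = 1 := by
  have he : 0 < Nat.card T := Nat.card_pos
  have hex : ∀ g : Fin n → T, g ^ Nat.card T = 1 := fun g => funext fun i => by
    rw [Pi.pow_apply, Pi.one_apply]
    exact pow_card_eq_one'
  induction k with
  | zero =>
    intro r hr J hJ hc v _
    rw [pow_zero] at hc
    rw [pow_zero, mul_one]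
    rcases J.eq_empty_or_nonempty with rfl | ⟨j, hj⟩
    · obtain ⟨w, hw, hwr⟩ := one_word (hF r hr) v
      exact ⟨w, hw, hwr, fun j hj => absurd hj (Finset.notMem_empty j)⟩
    · have hjR := Finset.mem_erase.mp (hJ hj)
      obtain ⟨w, hw, hwr, hwj⟩ := pair_word (hR r hr j hjR.2 hjR.1.symm) v
      refine ⟨w, hw, hwr, fun j' hj' => ?_⟩
      rw [Finset.card_le_one.mp hc j' hj' j hj]
      exact hwj
  | succ k ih =>
    intro r hr J hJ hc v hv
    obtain ⟨_, a, ha, b, hb, rfl⟩ := hv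
    have hsplit : ∃ J1 J2 : Finset (Fin n), J1 ⊆ J ∧ J2 ⊆ J ∧ J ⊆ J1 ∪ J2 ∧ J1.card ≤ 2 ^ k ∧
        J2.card ≤ 2 ^ k := by
      by_cases hle : J.card ≤ 2 ^ k
      · exact ⟨J, J, Finset.Subset.refl _, Finset.Subset.refl _, Finset.subset_union_left, hle, hle⟩
      · obtain ⟨J1, hJ1, hc1⟩ := Finset.exists_subset_card_eq (not_le.mp hle).le
        refine ⟨J1, J \ J1, hJ1, Finset.sdiff_subset, ?_, hc1.le, ?_⟩
        · rw [Finset.union_sdiff_of_subset hJ1]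
        · rw [Finset.card_sdiff_of_subset hJ1, hc1]
          rw [pow_succ] at hc
          omega
    obtain ⟨J1, J2, h1, h2, hsub, c1, c2⟩ := hsplit
    obtain ⟨w1, hw1, hw1r, hw1j⟩ := ih r hr J1 (h1.trans hJ) c1 a ha
    obtain ⟨w2, hw2, hw2r, hw2j⟩ := ih r hr J2 (h2.trans hJ) c2 b hb
    refine ⟨w1 * w2 * w1⁻¹ * w2⁻¹, ?_, ?_, ?_⟩
    · have h3 := bal_mul (bal_mul (bal_mul hw1 hw2) (bal_inv he hex hw1)) (bal_inv he hex hw2)
      refine bal_mono (le_of_eq ?_) h3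
      rw [pow_succ]
      ring
    · rw [Pi.mul_apply, Pi.mul_apply, Pi.mul_apply, Pi.inv_apply, Pi.inv_apply, hw1r, hw2r]
    · intro j hj
      rw [Pi.mul_apply, Pi.mul_apply, Pi.mul_apply, Pi.inv_apply, Pi.inv_apply]
      rcases Finset.mem_union.mp (hsub hj) with h3 | h3
      · rw [hw1j j h3, inv_one, mul_one, one_mul, mul_inv_cancel]
      · rw [hw2j j h3, inv_one, mul_one, mul_one, mul_inv_cancel]

end Pool.Agent.LibCR14
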