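import Pool.Agent.LibCR14.D6a

/-!
[CR14 D6e] (SHORT/MEDIUM) Representatives. Among the finsets `R` of full coordinates with pairwise `Unl` (all ordered pairs `r ≠ r'`) take one of maximal card (`Finset.exists_max_image` over the powerset of `univ`, or `Finset.exists_maximal`).
Let `g ∈ K`, `g r = 1` for all `r ∈ R`. Show `g i = 1` for every `i`: if `i` is not full then all elements of `K` have `i`-th coordinate `1` (`h`). If `i ∈ R`: given. Otherwise `insert i R` is not pairwise unlinked (maximality),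
so there is `r ∈ R` with `¬ Unl K i r` or `¬ Unl K r i`; `linked` (for `(i, r)` resp. `(r, i)`) gives `g r = 1 → g i = 1` in both cases.
-/

set_option autoImplicit false

namespace Pool.Agent.LibCR14

theorem exists_reps {T : Type*} [Group T] [Finite T] [IsSimpleGroup T] {n : ℕ} (K : Subgroup (Fin n → T))
    (h : ∀ i, (∀ g ∈ K, g i = 1) ∨ Ful K i) :
    ∃ R : Finset (Fin n), (∀ r ∈ R, Ful K r) ∧ (∀ r ∈ R, ∀ r' ∈ R, r ≠ r' → Unl K r r') ∧
      ∀ g ∈ K, (∀ r ∈ R, g r = 1) → g = 1 := by
  classical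
  let P : Finset (Finset (Fin n)) := (Finset.univ : Finset (Finset (Fin n))).filter fun R =>
    (∀ r ∈ R, Ful K r) ∧ (∀ r ∈ R, ∀ r' ∈ R, r ≠ r' → Unl K r r')
  have hPe : P.Nonempty := ⟨∅, by simp [P]⟩
  obtain ⟨R, hRP, hmax⟩ := Finset.exists_max_image P Finset.card hPe
  have hR : (∀ r ∈ R, Ful K r) ∧ (∀ r ∈ R, ∀ r' ∈ R, r ≠ r' → Unl K r r') := (Finset.mem_filter.1 hRP).2
  refine ⟨R, hR.1, hR.2, ?_⟩
  intro g hg h1
  funext i
  rw [Pi.one_apply]
  rcases h i with h2 | hi
  · exact h2 g hg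
  by_cases hiR : i ∈ R
  · exact h1 i hiR
  have hnot : ¬ ((∀ r ∈ insert i R, Ful K r) ∧
      (∀ r ∈ insert i R, ∀ r' ∈ insert i R, r ≠ r' → Unl K r r')) := by
    intro hc
    have h3 := hmax (insert i R) (Finset.mem_filter.2 ⟨Finset.mem_univ _, hc⟩)
    rw [Finset.card_insert_of_notMem hiR] at h3
    omega
  have h4 : ∃ r ∈ R, ¬ Unl K i r ∨ ¬ Unl K r i := by
    by_contra hc
    push Not at hc
    apply hnot
    refine ⟨?_, ?_⟩
    · intro r hr
      rcases Finset.mem_insert.1 hr with rfl | hr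
      · exact hi
      · exact hR.1 r hr
    · intro r hr r' hr' hne
      rcases Finset.mem_insert.1 hr with e1 | hr1
      · rcases Finset.mem_insert.1 hr' with e2 | hr2
        · exact absurd (e1.trans e2.symm) hne
        · rw [e1]
          exact (hc r' hr2).1
      · rcases Finset.mem_insert.1 hr' with e2 | hr2
        · rw [e2]
          exact (hc r hr1).2
        · exact hR.2 r hr1 r' hr2 hne
  obtain ⟨r, hr, h5⟩ := h4
  rcases h5 with h5 | h5
  · rcases linked K hi (hR.1 r hr) with h6 | h6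
    · exact absurd h6 h5
    · exact h6.1 g hg (h1 r hr)
  · rcases linked K (hR.1 r hr) hi with h6 | h6
    · exact absurd h6 h5
    · exact h6.2 g hg (h1 r hr)

end Pool.Agent.LibCR14
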