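import Pool.Agent.LibCR14.D6b
import Pool.Agent.LibCR14.D6d
import Pool.Agent.LibCR14.D6e

/-!
[CR14 D6] (MEDIUM) Semisimple case. `c = Nat.card T`, `K = closure Z`. `R` from `exists_reps`. `k := Nat.clog 2 (n + 1)`: `n ≤ 2 ^ k`, `2 ^ k ≤ 2 (n + 1)`. `l := c * c * (2 c + 2) ^ k`.
(1) For `r ∈ R`, `v ∈ Vk T k`: `tree_word` with `J = R.erase r` (card `≤ n ≤ 2^k`): `w ∈ Bal Z l`, `w r = v`, `w = 1` on `R.erase r`. (2) For `r ∈ R` and every `t : T`: `t ∈ closure (Vk T k) = ⊤`, so by `bal_card` `t = ∏` of at most `c` elements of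
`Vk T k`; the product of the words of (1) (induction on the list) is `w^(r,t) ∈ Bal Z (c * l)`, `= t` at `r`, `1` on `R.erase r`. (3) For `g ∈ K`: induction over subsets `S ⊆ R` (`Finset.induction_on`): there is `x ∈ Bal Z (S.card * (c * l))` with
`x r = g r` for `r ∈ S`, `x r = 1` for `r ∈ R \ S`. For `S = R`: `x` and `g` agree on `R`, `x * g⁻¹ ∈ K` is `1` on `R`, so `x = g`. (4) Bound: `(2 c + 2) ^ k ≤ (2 ^ (2 c + 2)) ^ k = (2 ^ k) ^ (2 c + 2) ≤ (2 (n + 1)) ^ (2 c + 2) ≤ ((n + 2) ^ 2) ^ (2 c + 2)`,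
`c ≤ 2 ^ c ≤ (n + 2) ^ c`; `C = 3 c + 2 (2 c + 2) + 1`. (The theorem says that the constant depends on `T` only.)
-/

set_option autoImplicit false

namespace Pool.Agent.LibCR14

private theorem D6_exp (n : ℕ) : ∃ k : ℕ, n ≤ 2 ^ k ∧ 2 ^ k ≤ 2 * (n + 1) := by
  induction n with
  | zero => exact ⟨0, by norm_num, by norm_num⟩
  | succ n ih =>
    obtain ⟨k, h1, h2⟩ := ih
    by_cases h3 : n + 1 ≤ 2 ^ k
    · exact ⟨k, h3, by omega⟩
    · have h4 : 0 < 2 ^ k := by positivity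
      refine ⟨k + 1, ?_, ?_⟩
      · rw [pow_succ]
        omega
      · rw [pow_succ]
        omega

private theorem D6_bound (n c k m : ℕ) (hk : 2 ^ k ≤ 2 * (n + 1)) (hm : m ≤ n) :
    m * (c * (c * c * (2 * c + 2) ^ k)) ≤ (n + 2) ^ (1 + 3 * c + 2 * (2 * c + 2)) := by
  have h1 : m ≤ (n + 2) ^ 1 := by
    rw [pow_one]
    omega
  have h2 : c ≤ (n + 2) ^ c :=
    (Nat.lt_two_pow_self (n := c)).le.trans (Nat.pow_le_pow_left (by omega) c)
  have h3 : (2 * c + 2) ^ k ≤ (n + 2) ^ (2 * (2 * c + 2)) := by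
    calc (2 * c + 2) ^ k ≤ (2 ^ (2 * c + 2)) ^ k :=
          Nat.pow_le_pow_left (Nat.lt_two_pow_self (n := 2 * c + 2)).le k
      _ = (2 ^ k) ^ (2 * c + 2) := by rw [← pow_mul, ← pow_mul, Nat.mul_comm]
      _ ≤ ((n + 2) ^ 2) ^ (2 * c + 2) := by
          apply Nat.pow_le_pow_left
          refine hk.trans ?_
          nlinarith
      _ = (n + 2) ^ (2 * (2 * c + 2)) := by rw [← pow_mul]
  calc m * (c * (c * c * (2 * c + 2) ^ k))
      ≤ (n + 2) ^ 1 * ((n + 2) ^ c * ((n + 2) ^ c * (n + 2) ^ c * (n + 2) ^ (2 * (2 * c + 2)))) :=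
        Nat.mul_le_mul h1 (Nat.mul_le_mul h2 (Nat.mul_le_mul (Nat.mul_le_mul h2 h2) h3))
    _ = (n + 2) ^ (1 + 3 * c + 2 * (2 * c + 2)) := by
        rw [← pow_add, ← pow_add, ← pow_add, ← pow_add]
        congr 1
        ring

private theorem D6_list {T : Type*} [Group T] {n : ℕ} {Z : Set (Fin n → T)} {V : Set T}
    {r : Fin n} {J : Finset (Fin n)} {l : ℕ}
    (h : ∀ v ∈ V, ∃ w ∈ Bal Z l, w r = v ∧ ∀ j ∈ J, w j = 1) (L : List T) :
    (∀ x ∈ L, x ∈ V) → ∃ w ∈ Bal Z (L.length * l), w r = L.prod ∧ ∀ j ∈ J, w j = 1 := by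
  induction L with
  | nil =>
    intro _
    exact ⟨1, bal_one _ _, rfl, fun _ _ => rfl⟩
  | cons v L ih =>
    intro hL
    obtain ⟨w, hw, hwr, hwj⟩ := ih fun x hx => hL x (List.mem_cons_of_mem _ hx)
    obtain ⟨w', hw', hwr', hwj'⟩ := h v (hL v (List.mem_cons_self))
    refine ⟨w' * w, ?_, ?_, ?_⟩
    · have h1 := bal_mul hw' hw
      have h2 : (v :: L).length * l = l + L.length * l := by
        rw [List.length_cons]
        ring
      rw [h2]
      exact h1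
    · rw [Pi.mul_apply, hwr', hwr, List.prod_cons]
    · intro j hj
      rw [Pi.mul_apply, hwj' j hj, hwj j hj, mul_one]

theorem semisimple (T : Type*) [Group T] [Finite T] [IsSimpleGroup T] (hna : ∃ a b : T, a * b ≠ b * a) :
    ∃ C : ℕ, ∀ (n : ℕ) (Z : Set (Fin n → T)),
      (∀ i, (∀ g ∈ Subgroup.closure Z, g i = 1) ∨ Ful (Subgroup.closure Z) i) →
      ∀ g ∈ Subgroup.closure Z, g ∈ Bal Z ((n + 2) ^ C) := by
  refine ⟨1 + 3 * Nat.card T + 2 * (2 * Nat.card T + 2), ?_⟩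
  intro n Z h g hg
  obtain ⟨R, hF, hR, hdet⟩ := exists_reps (Subgroup.closure Z) h
  obtain ⟨k, hk1, hk2⟩ := D6_exp n
  have hRn : R.card ≤ n := by
    have h1 := Finset.card_le_univ R
    rw [Fintype.card_fin] at h1
    exact h1
  obtain ⟨l, hl⟩ : ∃ l, l = Nat.card T * Nat.card T * (2 * Nat.card T + 2) ^ k := ⟨_, rfl⟩
  have h1 : ∀ r ∈ R, ∀ v ∈ Vk T k, ∃ w ∈ Bal Z l, w r = v ∧ ∀ j ∈ R.erase r, w j = 1 := by
    intro r hr v hv
    rw [hl]
    refine tree_word R hF hR k r hr (R.erase r) (Finset.Subset.refl _) ?_ v hv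
    exact (Finset.card_le_card (Finset.erase_subset r R)).trans (hRn.trans hk1)
  have h2 : ∀ r ∈ R, ∀ t : T, ∃ w ∈ Bal Z (Nat.card T * l), w r = t ∧
      ∀ j ∈ R.erase r, w j = 1 := by
    intro r hr t
    have ht : t ∈ Subgroup.closure (Vk T k) := by
      rw [Vk_closure hna k]
      exact Subgroup.mem_top t
    obtain ⟨L, hL1, hL2, hL3⟩ := bal_card ht
    obtain ⟨w, hw, hwr, hwj⟩ := D6_list (h1 r hr) L hL2
    exact ⟨w, bal_mono (Nat.mul_le_mul_right l hL1) hw, hwr.trans hL3, hwj⟩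
  have h3 : ∀ S : Finset (Fin n), S ⊆ R → ∃ x ∈ Bal Z (S.card * (Nat.card T * l)),
      (∀ r ∈ S, x r = g r) ∧ ∀ r ∈ R, r ∉ S → x r = 1 := by
    intro S
    induction S using Finset.induction_on with
    | empty =>
      intro _
      exact ⟨1, bal_one _ _, fun r hr => absurd hr (Finset.notMem_empty r), fun _ _ _ => rfl⟩
    | insert r S hrS ih =>
      intro hS
      obtain ⟨x, hx, hx1, hx2⟩ := ih ((Finset.subset_insert r S).trans hS)
      have hr : r ∈ R := hS (Finset.mem_insert_self r S)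
      obtain ⟨w, hw, hwr, hwj⟩ := h2 r hr (g r)
      refine ⟨x * w, ?_, ?_, ?_⟩
      · have h4 := bal_mul hx hw
        have h5 : (insert r S).card * (Nat.card T * l) =
            S.card * (Nat.card T * l) + Nat.card T * l := by
          rw [Finset.card_insert_of_notMem hrS]
          ring
        rw [h5]
        exact h4
      · intro s hs
        rw [Pi.mul_apply]
        by_cases hsr : s = r
        · rw [hsr, hx2 r hr hrS, hwr, one_mul]
        · have hs' : s ∈ S := by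
            rcases Finset.mem_insert.1 hs with h6 | h6
            · exact absurd h6 hsr
            · exact h6
          rw [hx1 s hs', hwj s (Finset.mem_erase.2 ⟨hsr, hS hs⟩), mul_one]
      · intro s hs hsS
        rw [Finset.mem_insert, not_or] at hsS
        rw [Pi.mul_apply, hx2 s hs hsS.2, hwj s (Finset.mem_erase.2 ⟨hsS.1, hs⟩), mul_one]
  obtain ⟨x, hx, hx1, _⟩ := h3 R (Finset.Subset.refl R)
  have h4 : x * g⁻¹ = 1 := by
    apply hdet
    · exact Subgroup.mul_mem _ (bal_closure hx) (Subgroup.inv_mem _ hg)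
    · intro r hr
      rw [Pi.mul_apply, Pi.inv_apply, hx1 r hr, mul_inv_cancel]
  have h5 : x = g := mul_inv_eq_one.1 h4
  rw [← h5]
  refine bal_mono ?_ hx
  rw [hl]
  exact D6_bound n (Nat.card T) k R.card hk2 hRn

end Pool.Agent.LibCR14
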