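import Pool.Agent.LibCR14.D0

/-!
[CR14 D6a] (SHORT/MEDIUM) Linked coordinates. `T` simple, `K ≤ T^n`, coordinates `i`, `j` full.
Let `A = {t | ∃ g ∈ K, g i = t ∧ g j = 1}`: a subgroup of `T`, normal (conjugate by an element of `K` with given `i`-th coordinate: `hi`). `IsSimpleGroup.eq_bot_or_eq_top_of_normal`. If `A = ⊤`: `Unl K i j`.
If `A = ⊥`: `g j = 1 → g i = 1` on `K`. Then `g i = 1 → g j = 1`: the map `T → T`, `t ↦` the `i`-th coordinate of some `g ∈ K` with `g j = t` is well defined (two such `g`, `g'`: `(g g'⁻¹) j = 1`, so `(g g'⁻¹) i = 1`),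
surjective (`hi`), so injective (`Finite.injective_iff_surjective`), and maps `1` to `1`; if `g i = 1` then `g j` and `1` have the same image. (Alternative: both `{g j : g ∈ K, g i = 1}` is normal, so `⊥` or `⊤`; if it is `⊤`, then
`K → T × T` would be... counting; the map is simpler.)
-/

set_option autoImplicit false

namespace Pool.Agent.LibCR14

theorem linked {T : Type*} [Group T] [Finite T] [IsSimpleGroup T] {n : ℕ} (K : Subgroup (Fin n → T)) {i j : Fin n}
    (hi : Ful K i) (hj : Ful K j) : Unl K i j ∨ ((∀ g ∈ K, g j = 1 → g i = 1) ∧ ∀ g ∈ K, g i = 1 → g j = 1) := by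
  let A : Subgroup T :=
    { carrier := {t | ∃ g ∈ K, g i = t ∧ g j = 1}
      mul_mem' := by
        rintro a b ⟨g, hg, h1, h2⟩ ⟨g', hg', h1', h2'⟩
        exact ⟨g * g', K.mul_mem hg hg', by rw [Pi.mul_apply, h1, h1'], by rw [Pi.mul_apply, h2, h2', one_mul]⟩
      one_mem' := ⟨1, K.one_mem, rfl, rfl⟩
      inv_mem' := by
        rintro a ⟨g, hg, h1, h2⟩
        exact ⟨g⁻¹, K.inv_mem hg, by rw [Pi.inv_apply, h1], by rw [Pi.inv_apply, h2, inv_one]⟩ }
  have hA : A.Normal := by
    constructor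
    rintro a ⟨g, hg, h1, h2⟩ t
    obtain ⟨k, hk, hkt⟩ := hi t
    refine ⟨k * g * k⁻¹, K.mul_mem (K.mul_mem hk hg) (K.inv_mem hk), ?_, ?_⟩
    · rw [Pi.mul_apply, Pi.mul_apply, Pi.inv_apply, hkt, h1]
    · rw [Pi.mul_apply, Pi.mul_apply, Pi.inv_apply, h2, mul_one, mul_inv_cancel]
  rcases hA.eq_bot_or_eq_top with h | h
  · right
    have key : ∀ g ∈ K, g j = 1 → g i = 1 := by
      intro g hg h1
      have : g i ∈ A := ⟨g, hg, rfl, h1⟩
      rw [h, Subgroup.mem_bot] at this
      exact this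
    refine ⟨key, ?_⟩
    choose f hfK hfj using hj
    have key2 : ∀ g ∈ K, f (g j) i = g i := by
      intro g hg
      have h1 : (g * (f (g j))⁻¹) i = 1 := by
        apply key _ (K.mul_mem hg (K.inv_mem (hfK _)))
        rw [Pi.mul_apply, Pi.inv_apply, hfj, mul_inv_cancel]
      rw [Pi.mul_apply, Pi.inv_apply, mul_inv_eq_one] at h1
      exact h1.symm
    have hsurj : Function.Surjective (fun t => f t i) := by
      intro t
      obtain ⟨g, hg, hgt⟩ := hi t
      exact ⟨g j, by show f (g j) i = t; rw [key2 g hg, hgt]⟩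
    have hinj : Function.Injective (fun t => f t i) := Finite.injective_iff_surjective.2 hsurj
    intro g hg h1
    apply hinj
    show f (g j) i = f 1 i
    rw [key2 g hg, h1]
    have := key2 1 K.one_mem
    rw [Pi.one_apply] at this
    rw [this, Pi.one_apply]
  · left
    intro t
    have ht : t ∈ A := by rw [h]; exact Subgroup.mem_top t
    exact ht

end Pool.Agent.LibCR14
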