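import Pool.Agent.LibCR14.D0

/-!
[CR14 D6b] (SHORT, several) The commutator sets `Vk T k` of a nonabelian simple group.
`Vk_conj`: induction on `k`; conjugation is a homomorphism. `gen_of_conj`: if `V` is invariant under conjugation and contains some `v ≠ 1` then `closure V` is normal (`Subgroup.normalClosure`/`Subgroup.closure` of a conjugation
invariant set: `Subgroup.closure_induction`, or `Subgroup.Normal` via `MonoidHom.map_closure (MulAut.conj g)`) and not `⊥`, so `⊤`. `Vk_nonempty`: induction: if `Vk k` is nonempty and all its elements commute then `closure (Vk k) = ⊤` is commutative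
(`Subgroup.closure_induction₂` or: centralizer of `Vk k` contains `Vk k`, so is `⊤`, twice), against `hna`; so `a b ≠ b a` for some `a, b ∈ Vk k`, `a b a⁻¹ b⁻¹ ≠ 1`.
-/

set_option autoImplicit false

namespace Pool.Agent.LibCR14

variable {T : Type*} [Group T]

theorem Vk_ne_one {k : ℕ} {t : T} (h : t ∈ Vk T k) : t ≠ 1 := by
  cases k with
  | zero => exact h
  | succ k => exact h.1

theorem Vk_conj (k : ℕ) : ∀ t ∈ Vk T k, ∀ g : T, g * t * g⁻¹ ∈ Vk T k := by
  induction k with
  | zero =>
    intro t ht g h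
    exact ht (conj_eq_one_iff.1 h)
  | succ k ih =>
    rintro t ⟨ht, a, ha, b, hb, e⟩ g
    refine ⟨fun h => ht (conj_eq_one_iff.1 h), g * a * g⁻¹, ih a ha g, g * b * g⁻¹, ih b hb g, ?_⟩
    rw [e]
    group

theorem gen_of_conj [IsSimpleGroup T] {V : Set T} (hV : ∀ t ∈ V, ∀ g : T, g * t * g⁻¹ ∈ V) {v : T} (hv : v ∈ V)
    (h1 : v ≠ 1) : Subgroup.closure V = ⊤ := by
  have hn : (Subgroup.closure V).Normal := by
    refine ⟨fun n hn g => ?_⟩
    induction hn using Subgroup.closure_induction with
    | mem x hx => exact Subgroup.subset_closure (hV x hx g)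
    | one =>
      rw [mul_one, mul_inv_cancel]
      exact Subgroup.one_mem _
    | mul x y _ _ hx hy =>
      have e : g * (x * y) * g⁻¹ = (g * x * g⁻¹) * (g * y * g⁻¹) := by group
      rw [e]
      exact Subgroup.mul_mem _ hx hy
    | inv x _ hx =>
      have e : g * x⁻¹ * g⁻¹ = (g * x * g⁻¹)⁻¹ := by group
      rw [e]
      exact Subgroup.inv_mem _ hx
  rcases hn.eq_bot_or_eq_top with h | h
  · exfalso
    have h2 : v ∈ Subgroup.closure V := Subgroup.subset_closure hv
    rw [h, Subgroup.mem_bot] at h2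
    exact h1 h2
  · exact h

theorem Vk_nonempty [IsSimpleGroup T] (hna : ∃ a b : T, a * b ≠ b * a) (k : ℕ) : (Vk T k).Nonempty := by
  induction k with
  | zero =>
    obtain ⟨t, ht⟩ := exists_ne (1 : T)
    exact ⟨t, ht⟩
  | succ k ih =>
    obtain ⟨v, hv⟩ := ih
    have htop := gen_of_conj (Vk_conj k) hv (Vk_ne_one hv)
    by_contra hem
    have hc : ∀ a ∈ Vk T k, ∀ b ∈ Vk T k, a * b = b * a := by
      intro a ha b hb
      by_contra hab
      apply hem
      refine ⟨a * b * a⁻¹ * b⁻¹, fun h => hab ?_, a, ha, b, hb, rfl⟩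
      rw [mul_inv_eq_one, mul_inv_eq_iff_eq_mul] at h
      exact h
    have h1 : ∀ x : T, ∀ b ∈ Vk T k, b * x = x * b := by
      intro x
      have hx : x ∈ Subgroup.closure (Vk T k) := by
        rw [htop]
        exact Subgroup.mem_top x
      have hle : Subgroup.closure (Vk T k) ≤ Subgroup.centralizer (Vk T k) := by
        rw [Subgroup.closure_le]
        intro a ha
        exact Subgroup.mem_centralizer_iff.2 fun b hb => hc b hb a ha
      exact Subgroup.mem_centralizer_iff.1 (hle hx)
    obtain ⟨a, b, hab⟩ := hna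
    apply hab
    have hb : b ∈ Subgroup.closure (Vk T k) := by
      rw [htop]
      exact Subgroup.mem_top b
    have hle : Subgroup.closure (Vk T k) ≤ Subgroup.centralizer {a} := by
      rw [Subgroup.closure_le]
      intro c hc
      exact Subgroup.mem_centralizer_singleton_iff.2 (h1 a c hc)
    exact (Subgroup.mem_centralizer_singleton_iff.1 (hle hb)).symm

theorem Vk_closure [IsSimpleGroup T] (hna : ∃ a b : T, a * b ≠ b * a) (k : ℕ) :
    Subgroup.closure (Vk T k) = ⊤ := by
  obtain ⟨v, hv⟩ := Vk_nonempty hna k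
  exact gen_of_conj (Vk_conj k) hv (Vk_ne_one hv)

end Pool.Agent.LibCR14
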