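import Pool.Agent.LibCR14.D1

/-!
[CR14 D6c] (SHORT/MEDIUM) Short words with given coordinates `i`, `j`.
`pair_word`: homomorphism `F : (Fin n → T) →* T × T`, `x ↦ (x i, x j)` (`MonoidHom.prod` of `Pi.evalMonoidHom`). `g ∈ closure Z` with `g i = t`, `g j = 1`: `F g = (t, 1) ∈ closure (F '' Z)` (`MonoidHom.map_closure`), so in
`Bal (F '' Z) (Nat.card (T × T))` by `bal_card`; `bal_lift`. `Nat.card_prod`. `one_word`: the same with `F = Pi.evalMonoidHom _ i`, and `Nat.card T ≤ Nat.card T * Nat.card T` (bal_mono).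
-/

set_option autoImplicit false

namespace Pool.Agent.LibCR14

variable {T : Type*} [Group T] [Finite T] {n : ℕ} {Z : Set (Fin n → T)}

theorem pair_word {i j : Fin n} (h : Unl (Subgroup.closure Z) i j) (t : T) :
    ∃ w ∈ Bal Z (Nat.card T * Nat.card T), w i = t ∧ w j = 1 := by
  obtain ⟨g, hg, hgi, hgj⟩ := h t
  let F : (Fin n → T) →* T × T := (Pi.evalMonoidHom (fun _ => T) i).prod (Pi.evalMonoidHom (fun _ => T) j)
  have hF : ∀ x : Fin n → T, F x = (x i, x j) := fun x => rfl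
  have h1 : F g ∈ Subgroup.closure (F '' Z) := by
    rw [← MonoidHom.map_closure]
    exact Subgroup.mem_map_of_mem F hg
  have h2 := bal_card h1
  obtain ⟨w, hw, hwF⟩ := bal_lift F h2
  rw [Nat.card_prod] at hw
  rw [hF, hF, hgi, hgj, Prod.mk.injEq] at hwF
  exact ⟨w, hw, hwF.1, hwF.2⟩

theorem one_word {i : Fin n} (h : Ful (Subgroup.closure Z) i) (t : T) :
    ∃ w ∈ Bal Z (Nat.card T * Nat.card T), w i = t := by
  obtain ⟨g, hg, hgi⟩ := h t
  let F : (Fin n → T) →* T := Pi.evalMonoidHom (fun _ => T) i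
  have hF : ∀ x : Fin n → T, F x = x i := fun x => rfl
  have h1 : F g ∈ Subgroup.closure (F '' Z) := by
    rw [← MonoidHom.map_closure]
    exact Subgroup.mem_map_of_mem F hg
  have h2 := bal_card h1
  obtain ⟨w, hw, hwF⟩ := bal_lift F h2
  rw [hF, hF, hgi] at hwF
  exact ⟨w, bal_mono (Nat.le_mul_of_pos_left _ Nat.card_pos) hw, hwF⟩

end Pool.Agent.LibCR14
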