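import Pool.Agent.LibCR14.D4
import Pool.Agent.LibCR14.D6

/-!
[CR14 D7] (MEDIUM, two lemmas) Nonabelian simple groups. `e = Nat.card T`, `K = closure Y`, `J = {j | ¬ Ful K j}`.
`B := ∀ H : {H : Subgroup T // H ≠ ⊤}, H.1`: `Dia B` by `Dia_pi` (`{H // H ≠ ⊤}` is finite). `C_B` its constant.
`proper_part`: for every `g ∈ K` there is `t ∈ Bal Y ((n+2)^C_B)` with `t j = g j` for all `j ∈ J`. For `j ∈ J` the subgroup `K_j = K.map (Pi.evalMonoidHom _ j)` is `≠ ⊤`. Define `f : (Fin n → T) → (Fin n → B)` by `f g j H = ⟨g j, _⟩` if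
`j ∈ J`, `H = K_j` and `g j ∈ K_j`, and `1` otherwise (`classical`, dependent if). `f 1 = 1`; `f` is multiplicative on `K`; `f g ∈ closure (f '' Y)` for `g ∈ K` (by `closure_ind`); `bal_lift'` gives `t ∈ Bal Y _` with
`f t = f g`; both `t, g ∈ K`, so `t j = g j` on `J`.
`Dia_simple`: `N' = {x | ∀ j ∈ J, x j = 1}` (a subgroup). `schreier` with `l = (n+2)^C_B`: `g = z t`, `z ∈ closure Z`, `Z = N' ∩ Bal Y (l + 1 + e l)`, `Z ⊆ K ∩ N'`, and `closure Z = K ⊓ N'` (`schreier_mem`). For every `i`: if `i ∈ J` all elements of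
`closure Z` are `1` at `i`. If `i ∉ J`: `{g i : g ∈ K ⊓ N'}` is a subgroup of `T`, normal (conjugate with elements of `K`, `Ful K i`, `N'` is normal in `T^n`), so `⊥` or `⊤`: first or second alternative of `semisimple`. So `z ∈ Bal Z ((n+2)^C)`
with the constant of `semisimple`, `z ∈ Bal Y ((n+2)^C * (l + 1 + e l))`, `g ∈ Bal Y (... + l)`; bound as in D3.
-/

set_option autoImplicit false

namespace Pool.Agent.LibCR14

theorem proper_part.{u} (T : Type u) [Group T] [Finite T] (hP : ∀ H : Subgroup T, H ≠ ⊤ → Dia H) :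
    ∃ C : ℕ, ∀ (n : ℕ) (Y : Set (Fin n → T)), ∀ g ∈ Subgroup.closure Y, ∃ t ∈ Bal Y ((n + 2) ^ C),
      ∀ j, ¬ Ful (Subgroup.closure Y) j → t j = g j := by
  classical
  obtain ⟨C, hC⟩ := Dia_pi (fun H : {H : Subgroup T // H ≠ ⊤} => (H.1 : Type _)) (fun H => hP H.1 H.2)
  refine ⟨C, fun n Y g hg => ?_⟩
  set K := Subgroup.closure Y with hK
  have hmem : ∀ x ∈ K, ∀ j, x j ∈ K.map (Pi.evalMonoidHom (fun _ : Fin n => T) j) :=
    fun x hx j => ⟨x, hx, rfl⟩
  have hne : ∀ j, ¬ Ful K j → K.map (Pi.evalMonoidHom (fun _ : Fin n => T) j) ≠ ⊤ := by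
    intro j hj htop
    refine hj fun t => ?_
    have ht : t ∈ K.map (Pi.evalMonoidHom (fun _ : Fin n => T) j) := by
      rw [htop]
      exact Subgroup.mem_top t
    obtain ⟨x, hx, hxt⟩ := ht
    exact ⟨x, hx, hxt⟩
  let f : (Fin n → T) → (Fin n → ∀ H : {H : Subgroup T // H ≠ ⊤}, (H.1 : Type _)) := fun x j H =>
    if h : ¬ Ful K j ∧ H.1 = K.map (Pi.evalMonoidHom (fun _ : Fin n => T) j) ∧ x j ∈ H.1 then ⟨x j, h.2.2⟩ else 1
  have f1 : f 1 = 1 := by
    funext j H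
    by_cases h : ¬ Ful K j ∧ H.1 = K.map (Pi.evalMonoidHom (fun _ : Fin n => T) j) ∧ (1 : Fin n → T) j ∈ H.1
    · exact (dif_pos h).trans (Subtype.ext rfl)
    · exact dif_neg h
  have fpos : ∀ (x : Fin n → T) (j : Fin n) (H : {H : Subgroup T // H ≠ ⊤})
      (h : ¬ Ful K j ∧ H.1 = K.map (Pi.evalMonoidHom (fun _ : Fin n => T) j) ∧ x j ∈ H.1),
      f x j H = ⟨x j, h.2.2⟩ := fun x j H h => dif_pos h
  have fneg : ∀ (x : Fin n → T) (j : Fin n) (H : {H : Subgroup T // H ≠ ⊤})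
      (_ : ¬ (¬ Ful K j ∧ H.1 = K.map (Pi.evalMonoidHom (fun _ : Fin n => T) j) ∧ x j ∈ H.1)),
      f x j H = 1 := fun x j H h => dif_neg h
  have fm : ∀ x ∈ K, ∀ y ∈ Y, f (x * y) = f x * f y := by
    intro x hx y hy
    have hyK : y ∈ K := Subgroup.subset_closure hy
    funext j H
    by_cases h : ¬ Ful K j ∧ H.1 = K.map (Pi.evalMonoidHom (fun _ : Fin n => T) j)
    · have hxj : x j ∈ H.1 := by
        rw [h.2]
        exact hmem x hx j
      have hyj : y j ∈ H.1 := by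
        rw [h.2]
        exact hmem y hyK j
      rw [Pi.mul_apply, Pi.mul_apply, fpos (x * y) j H ⟨h.1, h.2, H.1.mul_mem hxj hyj⟩, fpos x j H ⟨h.1, h.2, hxj⟩,
        fpos y j H ⟨h.1, h.2, hyj⟩]
      exact Subtype.ext rfl
    · rw [Pi.mul_apply, Pi.mul_apply, fneg (x * y) j H (fun h' => h ⟨h'.1, h'.2.1⟩),
        fneg x j H (fun h' => h ⟨h'.1, h'.2.1⟩), fneg y j H (fun h' => h ⟨h'.1, h'.2.1⟩), mul_one]
  have hex : ∀ x : Fin n → T, x ^ Nat.card T = 1 := fun x => funext fun j => pow_card_eq_one'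
  have hcl : ∀ x ∈ K, f x ∈ Subgroup.closure (f '' Y) := by
    intro x hx
    refine closure_ind (P := fun x => f x ∈ Subgroup.closure (f '' Y)) Nat.card_pos hex ?_ ?_ hx
    · show f 1 ∈ _
      rw [f1]
      exact Subgroup.one_mem _
    · intro x hx hfx y hy
      show f (x * y) ∈ _
      rw [fm x hx y hy]
      exact Subgroup.mul_mem _ hfx (Subgroup.subset_closure ⟨y, hy, rfl⟩)
  obtain ⟨t, ht, hft⟩ := bal_lift' f f1 fm (hC n (f '' Y) (f g) (hcl g hg))
  refine ⟨t, ht, fun j hj => ?_⟩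
  have htK : t ∈ K := bal_closure ht
  have h1 := congrFun (congrFun hft j) ⟨_, hne j hj⟩
  rw [fpos t j ⟨_, hne j hj⟩ ⟨hj, rfl, hmem t htK j⟩, fpos g j ⟨_, hne j hj⟩ ⟨hj, rfl, hmem g hg j⟩] at h1
  exact congrArg Subtype.val h1

theorem Dia_simple.{u} (T : Type u) [Group T] [Finite T] [IsSimpleGroup T] (hna : ∃ a b : T, a * b ≠ b * a)
    (hP : ∀ H : Subgroup T, H ≠ ⊤ → Dia H) : Dia T := by
  obtain ⟨CB, hCB⟩ := proper_part T hP
  obtain ⟨CS, hCS⟩ := semisimple T hna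
  refine ⟨CS + CB + Nat.card T + 2, fun n Y g hg => ?_⟩
  set K := Subgroup.closure Y with hK
  set e := Nat.card T with he
  have hex : ∀ x : Fin n → T, x ^ e = 1 := fun x => funext fun j => pow_card_eq_one'
  have he0 : 0 < e := Nat.card_pos
  let N' : Subgroup (Fin n → T) :=
    { carrier := {x | ∀ j, ¬ Ful K j → x j = 1}
      one_mem' := fun j _ => rfl
      mul_mem' := fun {a b} ha hb j hj => by
        rw [Pi.mul_apply, ha j hj, hb j hj, mul_one]
      inv_mem' := fun {a} ha j hj => by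
        rw [Pi.inv_apply, ha j hj, inv_one] }
  have hN : ∀ x ∈ N', ∀ j, ¬ Ful K j → x j = 1 := fun x hx => hx
  have hN' : ∀ x : Fin n → T, (∀ j, ¬ Ful K j → x j = 1) → x ∈ N' := fun x hx => hx
  have hs : ∀ x ∈ Subgroup.closure Y, ∃ t ∈ Bal Y ((n + 2) ^ CB), x * t⁻¹ ∈ N' := by
    intro x hx
    obtain ⟨t, ht, htx⟩ := hCB n Y x hx
    refine ⟨t, ht, hN' _ fun j hj => ?_⟩
    rw [Pi.mul_apply, Pi.inv_apply, htx j hj, mul_inv_cancel]
  obtain ⟨z, hz, t, ht, hgz⟩ := schreier he0 hex N' hs hg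
  set l := (n + 2) ^ CB with hl
  set Z := (N' : Set (Fin n → T)) ∩ Bal Y (l + 1 + e * l) with hZ
  have hZK : ∀ x ∈ Subgroup.closure Z, x ∈ K ∧ x ∈ N' := by
    intro x hx
    refine ⟨?_, ?_⟩
    · exact (Subgroup.closure_le K).2 (fun y hy => bal_closure hy.2) hx
    · exact (Subgroup.closure_le N').2 (fun y hy => hy.1) hx
  have hKZ : ∀ x ∈ K, x ∈ N' → x ∈ Subgroup.closure Z := fun x hx hxN => schreier_mem he0 hex N' hs hx hxN
  have halt : ∀ i, (∀ x ∈ Subgroup.closure Z, x i = 1) ∨ Ful (Subgroup.closure Z) i := by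
    intro i
    by_cases hi : Ful K i
    · have hnorm : ((Subgroup.closure Z).map (Pi.evalMonoidHom (fun _ : Fin n => T) i)).Normal := by
        refine ⟨?_⟩
        rintro _ ⟨x, hx, rfl⟩ t
        obtain ⟨k, hk, hkt⟩ := hi t
        obtain ⟨hxK, hxN⟩ := hZK x hx
        refine ⟨k * x * k⁻¹, hKZ _ (K.mul_mem (K.mul_mem hk hxK) (K.inv_mem hk)) (hN' _ fun j hj => ?_), ?_⟩
        · rw [Pi.mul_apply, Pi.mul_apply, Pi.inv_apply, hN x hxN j hj, mul_one, mul_inv_cancel]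
        · show (k * x * k⁻¹) i = t * x i * t⁻¹
          rw [Pi.mul_apply, Pi.mul_apply, Pi.inv_apply, hkt]
      rcases hnorm.eq_bot_or_eq_top with h | h
      · left
        intro x hx
        have h1 : x i ∈ (Subgroup.closure Z).map (Pi.evalMonoidHom (fun _ : Fin n => T) i) := ⟨x, hx, rfl⟩
        rw [h] at h1
        exact Subgroup.mem_bot.1 h1
      · right
        intro t
        have h1 : t ∈ (Subgroup.closure Z).map (Pi.evalMonoidHom (fun _ : Fin n => T) i) := by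
          rw [h]
          exact Subgroup.mem_top t
        obtain ⟨x, hx, hxt⟩ := h1
        exact ⟨x, hx, hxt⟩
    · left
      intro x hx
      exact hN x (hZK x hx).2 i hi
  have h1 := hCS n Z halt z hz
  have h2 : z ∈ Bal Y ((n + 2) ^ CS * (l + 1 + e * l)) := bal_comp (fun y hy => hy.2) h1
  have h3 : g ∈ Bal Y ((n + 2) ^ CS * (l + 1 + e * l) + l) := by
    rw [hgz]
    exact bal_mul h2 ht
  refine bal_mono ?_ h3
  have hl1 : 1 ≤ l := Nat.one_le_pow _ _ (by omega)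
  have h4 : l + 1 + e * l ≤ (e + 2) * l := by nlinarith
  have h5 : e + 2 ≤ (n + 2) ^ (e + 1) := by
    calc e + 2 ≤ 2 ^ (e + 1) := by
          have := Nat.lt_two_pow_self (n := e + 1)
          omega
      _ ≤ (n + 2) ^ (e + 1) := Nat.pow_le_pow_left (by omega) _
  have h6 : (n + 2) ^ CS * (l + 1 + e * l) ≤ (n + 2) ^ (CS + CB + e + 1) := by
    calc (n + 2) ^ CS * (l + 1 + e * l) ≤ (n + 2) ^ CS * ((n + 2) ^ (e + 1) * l) :=
          Nat.mul_le_mul_left _ (h4.trans (Nat.mul_le_mul_right _ h5))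
      _ = (n + 2) ^ (CS + CB + e + 1) := by
          rw [hl]
          ring
  have h7 : l ≤ (n + 2) ^ (CS + CB + e + 1) := by
    rw [hl]
    exact Nat.pow_le_pow_right (by omega) (by omega)
  calc (n + 2) ^ CS * (l + 1 + e * l) + l ≤ (n + 2) ^ (CS + CB + e + 1) + (n + 2) ^ (CS + CB + e + 1) :=
        Nat.add_le_add h6 h7
    _ = (n + 2) ^ (CS + CB + e + 1) * 2 := by ring
    _ ≤ (n + 2) ^ (CS + CB + e + 1) * (n + 2) := Nat.mul_le_mul_left _ (by omega)
    _ = (n + 2) ^ (CS + CB + e + 2) := by rw [← pow_succ]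

end Pool.Agent.LibCR14
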