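import Pool.Agent.LibCR14.D7
import Pool.Agent.LibCR14.D5

/-!
[CR14 D8] (SHORT/MEDIUM) Every finite group has polynomial diameter in its powers. Strong induction on `m = Nat.card G`, all groups in the universe `u` (as `PO_of_solvable` in LibSMP/ProductOne.lean).
`G` trivial (`Subsingleton`): `Dia_trivial`. If there is a normal `N` with `N ≠ ⊥`, `N ≠ ⊤`: `Nat.card N < Nat.card G`, `Nat.card (G ⧸ N) < Nat.card G` (`Subgroup.card_lt_...`, `Subgroup.card_eq_card_quotient_mul_card_subgroup`), `Dia_ext`.
Otherwise `IsSimpleGroup G`. If `G` is commutative: `Dia_comm`. Otherwise `Dia_simple` with the induction hypothesis for the proper subgroups.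
-/

set_option autoImplicit false

namespace Pool.Agent.LibCR14

theorem Dia_all.{u} (G : Type u) [Group G] [Finite G] : Dia G := by
  suffices h : ∀ m : ℕ, ∀ (G : Type u) [Group G] [Finite G], Nat.card G = m → Dia G from h _ G rfl
  intro m
  induction m using Nat.strong_induction_on with
  | _ m ih =>
    intro G _ _ hm
    have hsub : ∀ H : Subgroup G, H ≠ ⊤ → Dia H := by
      intro H hH
      have hlt : Nat.card H < m := by
        rw [← hm]
        exact lt_of_le_of_ne (Subgroup.card_le_card_group H) fun h => hH (Subgroup.eq_top_of_card_eq H h)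
      exact ih _ hlt H rfl
    by_cases hs : Subsingleton G
    · exact Dia_trivial
    by_cases hN : ∃ N : Subgroup G, N.Normal ∧ N ≠ ⊥ ∧ N ≠ ⊤
    · obtain ⟨N, hN', h1, h2⟩ := hN
      have hn : N.Normal := hN'
      refine Dia_ext N (hsub N h2) ?_
      have hq : Nat.card (G ⧸ N) < m := by
        have h3 := Subgroup.card_eq_card_quotient_mul_card_subgroup N
        have h4 : 1 < Nat.card N := (Subgroup.one_lt_card_iff_ne_bot N).2 h1
        have h5 : 0 < Nat.card (G ⧸ N) := Nat.card_pos
        rw [← hm, h3]
        exact lt_mul_of_one_lt_right h5 h4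
      exact ih _ hq (G ⧸ N) rfl
    · have hnt : Nontrivial G := not_subsingleton_iff_nontrivial.1 hs
      have hsimple : IsSimpleGroup G :=
        { exists_pair_ne := hnt.exists_pair_ne
          eq_bot_or_eq_top_of_normal := fun N hN' => by
            by_contra hcon
            exact hN ⟨N, hN', fun h => hcon (Or.inl h), fun h => hcon (Or.inr h)⟩ }
      by_cases hc : ∀ a b : G, a * b = b * a
      · exact Dia_comm hc
      · refine Dia_simple G ?_ hsub
        by_contra hcon
        refine hc fun a b => ?_
        by_contra hab
        exact hcon ⟨a, b, hab⟩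

end Pool.Agent.LibCR14
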