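import Mathlib

/-!
# LibCR14, part 1: balls and polynomial diameter
-/

set_option autoImplicit false

namespace Pool.Agent.LibCR14

/-- products of at most `l` elements of `Y` -/
def Bal {G : Type*} [Group G] (Y : Set G) (l : ℕ) : Set G :=
  {g | ∃ L : List G, L.length ≤ l ∧ (∀ x ∈ L, x ∈ Y) ∧ L.prod = g}

/-- polynomial diameter of all subgroups of the powers of `G` -/
def Dia (G : Type*) [Group G] : Prop :=
  ∃ C : ℕ, ∀ (n : ℕ) (Y : Set (Fin n → G)), ∀ g ∈ Subgroup.closure Y, g ∈ Bal Y ((n + 2) ^ C)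

/-- iterated commutator sets -/
def Vk (T : Type*) [Group T] : ℕ → Set T
  | 0 => {t | t ≠ 1}
  | k + 1 => {t | t ≠ 1 ∧ ∃ a ∈ Vk T k, ∃ b ∈ Vk T k, t = a * b * a⁻¹ * b⁻¹}

/-- `i` is a full coordinate of the subgroup `K` -/
def Ful {T : Type*} [Group T] {n : ℕ} (K : Subgroup (Fin n → T)) (i : Fin n) : Prop :=
  ∀ t : T, ∃ g ∈ K, g i = t

/-- the coordinates `i`, `j` are unlinked -/
def Unl {T : Type*} [Group T] {n : ℕ} (K : Subgroup (Fin n → T)) (i j : Fin n) : Prop :=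
  ∀ t : T, ∃ g ∈ K, g i = t ∧ g j = 1

end Pool.Agent.LibCR14
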