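import Pool.Agent.LibSMP.Green

/-!
# LibCR14, part 2: nets and paths

`M` is a monoid. A net has vertices (in `Q`) carrying `n` idempotents of `M` with completely regular local monoids, and edges (in `E`) carrying `n` elements of `M` that fit to the idempotents at their ends.
-/

set_option autoImplicit false

namespace Pool.Agent.LibCR14

open Pool.Agent.LibSMP

/-- `e` is idempotent and the local monoid `eMe` is completely regular -/
def CRat {M : Type*} [Monoid M] (e : M) : Prop :=
  e * e = e ∧ ∀ x : M, e * x = x → x * e = x → ∃ y : M, x * y * x = x ∧ x * y = y * x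

structure Net (M : Type*) [Monoid M] (n : ℕ) (Q E : Type*) where
  src : E → Q
  tgt : E → Q
  ep : Q → Fin n → M
  vl : E → Fin n → M
  cr : ∀ q i, CRat (ep q i)
  hl : ∀ a i, ep (src a) i * vl a i = vl a i
  hr : ∀ a i, vl a i * ep (tgt a) i = vl a i

section
variable {M : Type*} [Monoid M] {n : ℕ} {Q E : Type*}

/-- `l` is a path from `q` to `q'` -/
def Pt (N : Net M n Q E) : Q → List E → Q → Prop
  | q, [], q' => q = q'
  | q, a :: l, q' => N.src a = q ∧ Pt N (N.tgt a) l q'

/-- the value of a path starting at `q` -/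
def pv (N : Net M n Q E) : Q → List E → Fin n → M
  | q, [], i => N.ep q i
  | _, a :: l, i => N.vl a i * pv N (N.tgt a) l i

/-- `v` can be reached from `q₀` by edges of `w` -/
def Ov (N : Net M n Q E) (w : List E) (q₀ v : Q) : Prop := ∃ l, Pt N q₀ l v ∧ ∀ a ∈ l, a ∈ w

/-- same principal right ideal -/
def Req (x y : M) : Prop := (∃ s, x = y * s) ∧ ∃ s, y = x * s

/-- same principal left ideal -/
def Leq (x y : M) : Prop := (∃ s, x = s * y) ∧ ∃ s, y = s * x

/-- number of elements strictly J-above -/
noncomputable def dep (x : M) : ℕ := Set.ncard {y : M | JLe x y ∧ ¬ JLe y x}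

/-- the group containing all the maximal subgroups of `M` -/
abbrev GGp (M : Type*) [Monoid M] : Type _ := ∀ e : {e : M // e * e = e}, (Cor e)ˣ

end

/-- short paths with given values on the coordinates where the value has depth less than `d` -/
def SPn (M : Type*) [Monoid M] (d : ℕ) : Prop :=
  ∃ C : ℕ, ∀ (n : ℕ) (Q E : Type) [Fintype Q] (N : Net M n Q E) (A : Finset (Fin n)) (q q' : Q) (w : List E),
    Pt N q w q' → (∀ i ∈ A, dep (pv N q w i) < d) →
      ∃ w' : List E, Pt N q w' q' ∧ (∀ a ∈ w', a ∈ w) ∧ (∀ i ∈ A, pv N q w' i = pv N q w i) ∧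
        w'.length ≤ (n + Fintype.card Q + 2) ^ C

/-- in the net `N`: short paths (length at most `p`) with given values on the coordinates where the value has depth
less than `d` -/
def SPb {M : Type*} [Monoid M] {n : ℕ} {Q E : Type*} (N : Net M n Q E) (d p : ℕ) : Prop :=
  ∀ (A : Finset (Fin n)) (q q' : Q) (w : List E), Pt N q w q' → (∀ i ∈ A, dep (pv N q w i) < d) →
    ∃ w' : List E, Pt N q w' q' ∧ (∀ a ∈ w', a ∈ w) ∧ (∀ i ∈ A, pv N q w' i = pv N q w i) ∧ w'.length ≤ p

end Pool.Agent.LibCR14
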