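import Pool.Agent.LibCR14.Defs2

/-!
[CR14 N1] (SHORT, 4 lemmas) Removal of a loop.
`removal`: `f = f * f = (p x l y q) (p x l y q) = (p x l) (y q p x) (l y q)`, so `JLe f (y q p x)`, `JLe f ((y q p x)(y q p x))` by `hu`, and `(y q p x)(y q p x) = (y q p) (x y) (q p x)`.
`cr_sq`: `x = x y x = x (y x) = x x y` (`x y = y x`), so `x = (x * x) * y`: `⟨1, y, _⟩`; check: `x * y * x = x * (y * x) = x * (x * y) = (x * x) * y`.
`rem_at`: `h : f = p (x l y) q`; `u = y q p x` satisfies `e u = u = u e`; `cr_sq`, `removal`.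
`ds_at`: `f = p A q'`, `f = r B t`, `f = f f = p (A (q' r) B) t`; `rem_at` with `x = A`, `l = q' r`, `y = B`.
-/

set_option autoImplicit false

namespace Pool.Agent.LibCR14

open Pool.Agent.LibSMP

variable {M : Type*} [Monoid M]

theorem removal {f p x l y q : M} (hf : f * f = f) (h : f = p * (x * l * y) * q)
    (hu : JLe (y * q * p * x) ((y * q * p * x) * (y * q * p * x))) : JLe f (x * y) := by
  have h1 : JLe f (y * q * p * x) := by
    refine ⟨p * x * l, l * y * q, ?_⟩
    calc f = f * f := hf.symm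
      _ = (p * (x * l * y) * q) * (p * (x * l * y) * q) := by rw [← h]
      _ = p * x * l * (y * q * p * x) * (l * y * q) := by simp only [mul_assoc]
  have h2 : JLe ((y * q * p * x) * (y * q * p * x)) (x * y) := by
    refine ⟨y * q * p, q * p * x, ?_⟩
    simp only [mul_assoc]
  exact (h1.trans hu).trans h2

theorem cr_sq {e x : M} (he : CRat e) (h1 : e * x = x) (h2 : x * e = x) : JLe x (x * x) := by
  obtain ⟨y, hy1, hy2⟩ := he.2 x h1 h2
  refine ⟨1, y, ?_⟩
  rw [one_mul, mul_assoc, hy2, ← mul_assoc, hy1]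

theorem rem_at {e f x l y : M} (he : CRat e) (hf : f * f = f) (hx : x * e = x) (hy : e * y = y)
    (h : JLe f (x * l * y)) : JLe f (x * y) := by
  obtain ⟨p, q, hpq⟩ := h
  refine removal hf hpq (cr_sq he ?_ ?_)
  · rw [← mul_assoc, ← mul_assoc, ← mul_assoc, hy]
  · rw [mul_assoc, hx]

theorem ds_at {e f A B : M} (he : CRat e) (hf : f * f = f) (hA : A * e = A) (hB : e * B = B)
    (h1 : JLe f A) (h2 : JLe f B) : JLe f (A * B) := by
  obtain ⟨p, q', h3⟩ := h1
  obtain ⟨r, t, h4⟩ := h2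
  refine rem_at (l := q' * r) he hf hA hB ⟨p, t, ?_⟩
  calc f = f * f := hf.symm
    _ = (p * A * q') * (r * B * t) := by rw [← h3, ← h4]
    _ = p * (A * (q' * r) * B) * t := by simp only [mul_assoc]

end Pool.Agent.LibCR14
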