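import Pool.Agent.LibCR14.N0
import Pool.Agent.LibCR14.N1

/-!
[CR14 N2] (MEDIUM) Content lemma. `W = pv N q w i` is in the local monoid at `q` (`pv_left`, `pv_right`); `(N.cr q i).2` gives `W'` with `W W' W = W`, `W W' = W' W`; `f := W * W'` is idempotent; `JLe W f` (`W = f W`), `JLe f W`.
`ret_path`: for every path `x` from `q` to `s` over `w` there is a path `y` from `s` to `q` over `w` with `JLe f (pv N q x i * pv N s y i)`: induction on `x` from the right (`List.reverseRecOn`, generalizing `s`).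
`x = []`: `s = q`, `y = w`: `ep q * W = W`. `x = x₀ ++ [a]`: `y₀` for `x₀` (to `N.src a`); `a ∈ w`: `pt_split`: `w = w₁ ++ a :: w₂`; `y := w₂ : N.tgt a → q`. `A := pv x₀ * pv y₀`, `B := W = pv w₁ * (vl a * pv w₂)`. `ds_at` at `ep q`
(`A ep = A`, `ep B = B`): `JLe f (A * B)`, `A * B = pv x₀ * (pv y₀ * pv w₁) * (vl a * pv w₂)`; `rem_at` at `ep (N.src a)`: `JLe f (pv x₀ * (vl a * pv w₂))`, which is `pv (x₀ ++ [a]) * pv w₂` (`pv_snoc`).
`content`: `ret_path` for the loop `x` gives `JLe f (pv x * pv y)`, so `JLe f (pv x)`, `JLe W f`.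
-/

set_option autoImplicit false

namespace Pool.Agent.LibCR14

open Pool.Agent.LibSMP

variable {M : Type*} [Monoid M] {n : ℕ} {Q E : Type*} {N : Net M n Q E}

private lemma N2_ret {q : Q} {w : List E} (hw : Pt N q w q) (i : Fin n) {f : M} (hf : f * f = f)
    (hfW : JLe f (pv N q w i)) :
    ∀ (x : List E) (s : Q), Pt N q x s → (∀ a ∈ x, a ∈ w) →
      ∃ y, Pt N s y q ∧ JLe f (pv N q x i * pv N s y i) := by
  intro x
  induction x using List.reverseRecOn with
  | nil =>
    intro s hs _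
    have hs' : q = s := hs
    subst hs'
    refine ⟨w, hw, ?_⟩
    rw [pv_nil, pv_left hw]
    exact hfW
  | append_singleton x₀ a ih =>
    intro s hs hsub
    obtain ⟨s₁, h0, h1⟩ := pt_append.1 hs
    obtain ⟨hsrc, htgt⟩ := h1
    have htgt' : N.tgt a = s := htgt
    subst hsrc
    subst htgt'
    obtain ⟨y₀, hy₀, hJ⟩ := ih (N.src a) h0 (fun b hb => hsub b (by simp [hb]))
    have haw : a ∈ w := hsub a (by simp)
    obtain ⟨w₁, w₂, hweq, hw₁, hw₂⟩ := pt_split hw haw
    refine ⟨w₂, hw₂, ?_⟩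
    have hA : (pv N q x₀ i * pv N (N.src a) y₀ i) * N.ep q i = pv N q x₀ i * pv N (N.src a) y₀ i := by
      rw [mul_assoc, pv_right hy₀]
    have hB : N.ep q i * pv N q w i = pv N q w i := pv_left hw i
    have h2 := ds_at (N.cr q i) hf hA hB hJ hfW
    have hW : pv N q w i = pv N q w₁ i * (N.vl a i * pv N (N.tgt a) w₂ i) := by
      have h3 : pv N q (w₁ ++ a :: w₂) i = pv N q w₁ i * pv N (N.src a) (a :: w₂) i :=
        pv_append hw₁ (show Pt N (N.src a) (a :: w₂) q from ⟨rfl, hw₂⟩) i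
      rw [hweq, h3, pv_cons]
    have h3 : JLe f (pv N q x₀ i * (pv N (N.src a) y₀ i * pv N q w₁ i) * (N.vl a i * pv N (N.tgt a) w₂ i)) := by
      rw [hW] at h2
      simpa only [mul_assoc] using h2
    have h4 := rem_at (N.cr (N.src a) i) hf (pv_right h0 i)
      (by rw [← mul_assoc, N.hl]) h3
    rw [pv_snoc h0, mul_assoc]
    exact h4

theorem content {q : Q} {w x : List E} (hw : Pt N q w q) (hx : Pt N q x q) (hs : ∀ a ∈ x, a ∈ w) (i : Fin n) :
    JLe (pv N q w i) (pv N q x i) := by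
  obtain ⟨W', h1, h2⟩ := (N.cr q i).2 (pv N q w i) (pv_left hw i) (pv_right hw i)
  have hf : (pv N q w i * W') * (pv N q w i * W') = pv N q w i * W' := by
    rw [← mul_assoc, h1]
  have hfW : JLe (pv N q w i * W') (pv N q w i) := JLe_mul_right _ _
  have hWf : JLe (pv N q w i) (pv N q w i * W') := ⟨1, pv N q w i, by rw [one_mul, h1]⟩
  obtain ⟨y, -, hy⟩ := N2_ret hw i hf hfW x q hx hs
  exact hWf.trans (JLe_of_mul_left hy)

end Pool.Agent.LibCR14
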