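import Pool.Agent.LibCR14.N0
import Pool.Agent.LibCR14.N2

/-!
[CR14 N3] (MEDIUM, 6 lemmas) Connecting paths, and the context lemma.
`connect`: take a path `c` from `q` to `q'` with edges in `x` of minimal length (`Nat.find` on the set of lengths). If `c.length > Fintype.card Q`: for `j ≤ c.length` let `v j` be the vertex after `c.take j` (`pt_append` with
`List.take_append_drop`; `choose`); two of the `c.length + 1 > card Q` vertices are equal (`Fintype.exists_ne_map_eq_of_card_lt`), `i < j`: `c.take i ++ c.drop j` is a shorter path. (Even `c.length + 1 ≤ card Q`.)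
`back`: `Ov N w q₀ v` and `w` a loop at `q₀`: if `l = []` then `v = q₀`: the empty path. Otherwise the last edge `a` of `l` is in `w`, `N.tgt a = v` (`pt_append`), `pt_split`: `w₂` is a path from `N.tgt a = v` to `q₀`.
`short_to`, `short_back`: `connect` applied to `l` and to the path of `back`. `ov_step`: `Ov` is preserved along paths over `w`. `ctx`: `z : v → v'` over `w`: `l ++ z ++ b`, `l : q₀ → v`, `b : v' → q₀` (`back`) is a loop at `q₀` over `w`: `content`,
its value is `pv l * pv z * pv b` (`pv_append`), J-below `pv z` (`JLe_mid`).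
-/

set_option autoImplicit false

namespace Pool.Agent.LibCR14

open Pool.Agent.LibSMP

variable {M : Type*} [Monoid M] {n : ℕ} {Q E : Type*} {N : Net M n Q E}

theorem N3_aux [Fintype Q] {q q' : Q} (x : List E) : ∀ (k : ℕ) (c : List E), c.length = k → Pt N q c q' →
    (∀ a ∈ c, a ∈ x) → ∃ c, Pt N q c q' ∧ (∀ a ∈ c, a ∈ x) ∧ c.length ≤ Fintype.card Q := by
  intro k
  induction k using Nat.strong_induction_on with
  | _ k ih =>
    intro c hk hc hs
    by_cases hle : c.length ≤ Fintype.card Q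
    · exact ⟨c, hc, hs, hle⟩
    have hv : ∀ j : Fin (c.length + 1), ∃ v : Q, Pt N q (c.take j) v ∧ Pt N v (c.drop j) q' := by
      intro j
      have h1 := hc
      rw [← List.take_append_drop (j : ℕ) c] at h1
      exact pt_append.1 h1
    choose v hv1 hv2 using hv
    have hcard : Fintype.card Q < Fintype.card (Fin (c.length + 1)) := by
      rw [Fintype.card_fin]
      omega
    obtain ⟨i, j, hij, hvij⟩ := Fintype.exists_ne_map_eq_of_card_lt v hcard
    have key : ∀ i j : Fin (c.length + 1), (i : ℕ) < j → v i = v j →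
        ∃ c, Pt N q c q' ∧ (∀ a ∈ c, a ∈ x) ∧ c.length ≤ Fintype.card Q := by
      intro i j hij hvij
      have h1 : Pt N q (c.take i ++ c.drop j) q' := by
        refine pt_append.2 ⟨v i, hv1 i, ?_⟩
        rw [hvij]
        exact hv2 j
      refine ih (c.take i ++ c.drop j).length ?_ _ rfl h1 ?_
      · rw [← hk, List.length_append, List.length_take, List.length_drop]
        have h2 := j.2
        have h3 := i.2
        rw [Nat.min_eq_left (by omega)]
        omega
      · intro a ha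
        rcases List.mem_append.1 ha with h | h
        · exact hs a (List.mem_of_mem_take h)
        · exact hs a (List.mem_of_mem_drop h)
    rcases Nat.lt_or_gt_of_ne (fun h => hij (Fin.ext h)) with h | h
    · exact key i j h hvij
    · exact key j i h hvij.symm

theorem connect [Fintype Q] {q q' : Q} {x : List E} (h : Pt N q x q') :
    ∃ c, Pt N q c q' ∧ (∀ a ∈ c, a ∈ x) ∧ c.length ≤ Fintype.card Q :=
  N3_aux x x.length x rfl h fun _ ha => ha

theorem back {q₀ v : Q} {w : List E} (hw : Pt N q₀ w q₀) (hv : Ov N w q₀ v) :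
    ∃ b, Pt N v b q₀ ∧ ∀ a ∈ b, a ∈ w := by
  obtain ⟨l, hl, hs⟩ := hv
  rcases List.eq_nil_or_concat l with h | ⟨l', a, h⟩
  · rw [h] at hl
    refine ⟨[], ?_, fun a ha => absurd ha List.not_mem_nil⟩
    exact Eq.symm hl
  · rw [List.concat_eq_append] at h
    rw [h] at hl
    obtain ⟨q'', _, h2⟩ := pt_append.1 hl
    have h3 : N.tgt a = v := h2.2
    have ha : a ∈ w := hs a (by rw [h]; exact List.mem_append_right _ (List.mem_singleton.2 rfl))
    obtain ⟨w₁, w₂, hw12, _, hw2⟩ := pt_split hw ha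
    refine ⟨w₂, ?_, ?_⟩
    · rw [← h3]
      exact hw2
    · intro b hb
      rw [hw12]
      exact List.mem_append_right _ (List.mem_cons_of_mem _ hb)

theorem short_to [Fintype Q] {q₀ v : Q} {w : List E} (hv : Ov N w q₀ v) :
    ∃ c, Pt N q₀ c v ∧ (∀ a ∈ c, a ∈ w) ∧ c.length ≤ Fintype.card Q := by
  obtain ⟨l, hl, hs⟩ := hv
  obtain ⟨c, hc, hs', hlen⟩ := connect hl
  exact ⟨c, hc, fun a ha => hs a (hs' a ha), hlen⟩

theorem short_back [Fintype Q] {q₀ v : Q} {w : List E} (hw : Pt N q₀ w q₀) (hv : Ov N w q₀ v) :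
    ∃ b, Pt N v b q₀ ∧ (∀ a ∈ b, a ∈ w) ∧ b.length ≤ Fintype.card Q := by
  obtain ⟨l, hl, hs⟩ := back hw hv
  obtain ⟨c, hc, hs', hlen⟩ := connect hl
  exact ⟨c, hc, fun a ha => hs a (hs' a ha), hlen⟩

theorem ov_step {q₀ v v' : Q} {w z : List E} (hv : Ov N w q₀ v) (hz : Pt N v z v') (hs : ∀ a ∈ z, a ∈ w) :
    Ov N w q₀ v' := by
  obtain ⟨l, hl, hsl⟩ := hv
  refine ⟨l ++ z, pt_append.2 ⟨v, hl, hz⟩, ?_⟩
  intro a ha
  rcases List.mem_append.1 ha with h | h
  · exact hsl a h
  · exact hs a h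

theorem ctx {q₀ v v' : Q} {w z : List E} (hw : Pt N q₀ w q₀) (hv : Ov N w q₀ v) (hz : Pt N v z v')
    (hs : ∀ a ∈ z, a ∈ w) (i : Fin n) : JLe (pv N q₀ w i) (pv N v z i) := by
  obtain ⟨b, hb, hsb⟩ := back hw (ov_step hv hz hs)
  obtain ⟨l, hl, hsl⟩ := hv
  have hlz : Pt N q₀ (l ++ z) v' := pt_append.2 ⟨v, hl, hz⟩
  have hx : Pt N q₀ (l ++ z ++ b) q₀ := pt_append.2 ⟨v', hlz, hb⟩
  have hsx : ∀ a ∈ l ++ z ++ b, a ∈ w := by
    intro a ha
    rcases List.mem_append.1 ha with h | h
    · rcases List.mem_append.1 h with h | h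
      · exact hsl a h
      · exact hs a h
    · exact hsb a h
  have h1 := content hw hx hsx i
  rw [pv_append hlz hb, pv_append hl hz] at h1
  obtain ⟨s, t, h2⟩ := h1
  refine ⟨s * pv N q₀ l i, pv N v' b i * t, ?_⟩
  rw [h2]
  simp only [mul_assoc]

end Pool.Agent.LibCR14
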