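import Pool.Agent.LibCR14.N3

/-!
[CR14 N4] (MEDIUM/STRONG) R-data. Context: `w` a loop at `q₀`, `dep (W i) < d + 1` on `A`, `W i = pv N q₀ w i`. `r₀ : v₀ → v` and `z : v → v'` over `w`. All values of paths over `w` are J-above `W i` (`ctx`).
Induction on `a`, generalizing everything (`A'`, `v`, `r₀`, `z`). Let `A'' = {i ∈ A' | ¬ JLe (pv N v₀ r₀ i) (W i)}`.
Case `A'' = ∅`: `r₁ = []`: for `i ∈ A'`: `pv (r₀ ++ z) i = pv r₀ i * pv z i`, `JLe (pv r₀ i) (W i)`, `JLe (W i) (pv (r₀ ++ z) i)` (`ctx`), so `Req (pv r₀ i) (pv (r₀ ++ z) i)` by `Req_of`.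
Case `A'' ≠ ∅` (so `a ≥ 1`): among the prefixes of `z` (`z.take t`) take the least `t` such that `JLe (pv v₀ (r₀ ++ z.take t) i) (W i)` for some `i ∈ A''` (`Nat.find`; `t = z.length` is one by `hJ`; `t ≠ 0`). So `z = u ++ b :: z'` with
`u = z.take (t-1)`, `¬ JLe (pv (r₀ ++ u) i) (W i)` for all `i ∈ A''`, and `JLe (pv (r₀ ++ u ++ [b]) i₀) (W i₀)` for some `i₀ ∈ A''`. For `i ∈ A''`: `JLe (W i) (pv u i)` (`ctx`), and not `JLe (pv u i) (W i)` (else
`JLe (pv (r₀ ++ u) i) (W i)`), so `dep (pv N v u i) < dep (W i) < d + 1`: `dep < d`. `hP A'' v _ u` gives `u'` with the same values on `A''`. `r₀' = r₀ ++ u' ++ [b]`, `A''' = {i ∈ A'' | ¬ JLe (pv v₀ r₀' i) (W i)}`: card `≤ a - 1` (`i₀` is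
missing: `pv (r₀ ++ u' ++ [b]) i = pv (r₀ ++ u ++ [b]) i` on `A''`). Induction hypothesis for `a - 1`, `A'''`, `r₀'`, `z'`: `r₂`. `r₁ = u' ++ b :: r₂`, length `≤ p + 1 + (a-1)(p+1)`.
Values: `i ∈ A'''`: `pv (r₀' ++ z') i = pv (r₀ ++ z) i` (same `u`-value) and the induction hypothesis. `i ∈ A' \ A'''`: there is a prefix `s` of `r₀ ++ r₁` (`s = r₀` if `i ∉ A''`, `s = r₀'` otherwise) with `pv s i` equal to the value of the
corresponding prefix of `r₀ ++ z`, and J-below `W i`; `pv (r₀ ++ r₁) i = pv s i * _` and `pv (r₀ ++ z) i = pv s i * _` are both J-above `W i` (`ctx`), so both are `Req` to `pv s i` (`Req_of`).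
-/

set_option autoImplicit false

namespace Pool.Agent.LibCR14

open Pool.Agent.LibSMP

variable {M : Type*} [Monoid M] {n : ℕ} {Q E : Type*} {N : Net M n Q E}

private theorem N4_split {α : Type*} (P : List α → Prop) (h0 : ¬ P []) :
    ∀ z : List α, P z → ∃ (u : List α) (b : α) (z' : List α), z = u ++ b :: z' ∧ ¬ P u ∧
      P (u ++ [b]) := by
  intro z
  induction z using List.reverseRecOn with
  | nil =>
    intro h
    exact absurd h h0
  | append_singleton z0 c ih =>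
    intro h
    by_cases h1 : P z0
    · obtain ⟨u, b, z', h2, h3, h4⟩ := ih h1
      refine ⟨u, b, z' ++ [c], ?_, h3, h4⟩
      rw [h2, List.append_assoc, List.cons_append]
    · exact ⟨z0, c, [], rfl, h1, h⟩

/-- a prefix whose value is J-below the value of the loop determines the R-class -/
private theorem N4_R [Finite M] {q₀ : Q} {w : List E} (hw : Pt N q₀ w q₀) {v₀ u u' : Q}
    (hv₀ : Ov N w q₀ v₀) {s x : List E} (hs : Pt N v₀ s u) (hsw : ∀ a ∈ s, a ∈ w)
    (hx : Pt N u x u') (hxw : ∀ a ∈ x, a ∈ w) {i : Fin n}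
    (hJ : JLe (pv N v₀ s i) (pv N q₀ w i)) : Req (pv N v₀ s i) (pv N v₀ (s ++ x) i) := by
  have h1 : Pt N v₀ (s ++ x) u' := pt_append.2 ⟨u, hs, hx⟩
  have h2 : ∀ a ∈ s ++ x, a ∈ w := by
    intro a ha
    rcases List.mem_append.1 ha with h | h
    · exact hsw a h
    · exact hxw a h
  have h3 := ctx hw hv₀ h1 h2 i
  have h4 := hJ.trans h3
  rw [pv_append hs hx i] at h4 ⊢
  exact Req_of h4

theorem RD [Finite M] {d p : ℕ} (hP : SPb N d p) {q₀ : Q} {w : List E} (hw : Pt N q₀ w q₀) {A : Finset (Fin n)}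
    (hA : ∀ i ∈ A, dep (pv N q₀ w i) < d + 1) (a : ℕ) :
    ∀ (A' : Finset (Fin n)) (v₀ v v' : Q) (r₀ z : List E), A' ⊆ A → A'.card ≤ a → Ov N w q₀ v₀ → Pt N v₀ r₀ v →
      (∀ x ∈ r₀, x ∈ w) → Pt N v z v' → (∀ x ∈ z, x ∈ w) →
      (∀ i ∈ A', JLe (pv N v₀ (r₀ ++ z) i) (pv N q₀ w i)) →
      ∃ (r₁ : List E) (v'' : Q), Pt N v r₁ v'' ∧ (∀ x ∈ r₁, x ∈ w) ∧ r₁.length ≤ a * (p + 1) ∧
        ∀ i ∈ A', Req (pv N v₀ (r₀ ++ z) i) (pv N v₀ (r₀ ++ r₁) i) := by
  classical
  induction a with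
  | zero =>
    intro A' v₀ v v' r₀ z hA' hcard hv₀ hr₀ hr₀w hz hzw hJ
    have hE : A' = ∅ := Finset.card_eq_zero.1 (Nat.le_zero.1 hcard)
    refine ⟨[], v, rfl, ?_, Nat.zero_le _, ?_⟩
    · intro x hx
      exact absurd hx List.not_mem_nil
    · intro i hi
      rw [hE] at hi
      exact absurd hi (Finset.notMem_empty i)
  | succ a ih =>
    intro A' v₀ v v' r₀ z hA' hcard hv₀ hr₀ hr₀w hz hzw hJ
    obtain ⟨A2, hA2⟩ : ∃ A2 : Finset (Fin n), A2 = A'.filter
      (fun i => ¬ JLe (pv N v₀ r₀ i) (pv N q₀ w i)) := ⟨_, rfl⟩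
    have hmem2 : ∀ i, i ∈ A2 ↔ i ∈ A' ∧ ¬ JLe (pv N v₀ r₀ i) (pv N q₀ w i) := by
      intro i
      rw [hA2, Finset.mem_filter]
    by_cases hE : A2 = ∅
    · refine ⟨[], v, rfl, ?_, Nat.zero_le _, ?_⟩
      · intro x hx
        exact absurd hx List.not_mem_nil
      · intro i hi
        have h1 : JLe (pv N v₀ r₀ i) (pv N q₀ w i) := by
          by_contra h2
          have h3 : i ∈ A2 := (hmem2 i).2 ⟨hi, h2⟩
          rw [hE] at h3
          exact Finset.notMem_empty i h3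
        rw [List.append_nil]
        exact Req_symm (N4_R hw hv₀ hr₀ hr₀w hz hzw h1)
    · obtain ⟨k, hk⟩ := Finset.nonempty_iff_ne_empty.2 hE
      obtain ⟨u, b, z', hzeq, hu1, hu2⟩ := N4_split
        (fun s => ∃ i ∈ A2, JLe (pv N v₀ (r₀ ++ s) i) (pv N q₀ w i))
        (by
          rintro ⟨i, hi, h1⟩
          rw [List.append_nil] at h1
          exact ((hmem2 i).1 hi).2 h1) z ⟨k, hk, hJ k ((hmem2 k).1 hk).1⟩
      have hu1' : ∀ i ∈ A2, ¬ JLe (pv N v₀ (r₀ ++ u) i) (pv N q₀ w i) :=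
        fun i hi h1 => hu1 ⟨i, hi, h1⟩
      obtain ⟨i₀, hi₀, hJ₀⟩ := hu2
      rw [hzeq] at hz
      obtain ⟨v₁, hu, hbz⟩ := pt_append.1 hz
      have hsrc : N.src b = v₁ := hbz.1
      have hz' : Pt N (N.tgt b) z' v' := hbz.2
      have huw : ∀ x ∈ u, x ∈ w := fun x hx => hzw x (by
        rw [hzeq]
        exact List.mem_append_left _ hx)
      have hbw : b ∈ w := hzw b (by
        rw [hzeq]
        exact List.mem_append_right _ List.mem_cons_self)
      have hz'w : ∀ x ∈ z', x ∈ w := fun x hx => hzw x (by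
        rw [hzeq]
        exact List.mem_append_right _ (List.mem_cons_of_mem _ hx))
      have hvv : Ov N w q₀ v := ov_step hv₀ hr₀ hr₀w
      have hdep : ∀ i ∈ A2, dep (pv N v u i) < d := by
        intro i hi
        have h1 := ctx hw hvv hu huw i
        have h2 : ¬ JLe (pv N v u i) (pv N q₀ w i) := by
          intro h3
          apply hu1' i hi
          rw [pv_append hr₀ hu i]
          exact (JLe_mul_left _ _).trans h3
        have h4 := dep_lt h1 h2
        have h5 := hA i (hA' ((hmem2 i).1 hi).1)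
        omega
      obtain ⟨u', hu', hu'w, huval, hulen⟩ := hP A2 v v₁ u hu hdep
      have hu'w2 : ∀ x ∈ u', x ∈ w := fun x hx => huw x (hu'w x hx)
      -- values
      have hval : ∀ (y : List E) (v₂ : Q), Pt N v₁ (b :: y) v₂ → ∀ i ∈ A2,
          pv N v₀ (r₀ ++ (u' ++ b :: y)) i = pv N v₀ (r₀ ++ (u ++ b :: y)) i := by
        intro y v₂ hy i hi
        rw [pv_append hr₀ (pt_append.2 ⟨v₁, hu', hy⟩) i, pv_append hu' hy i,
          pv_append hr₀ (pt_append.2 ⟨v₁, hu, hy⟩) i, pv_append hu hy i, huval i hi]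
      have hb1 : Pt N v₁ [b] (N.tgt b) := ⟨hsrc, rfl⟩
      obtain ⟨r', hr'⟩ : ∃ r' : List E, r' = r₀ ++ (u' ++ [b]) := ⟨_, rfl⟩
      have hr'p : Pt N v₀ r' (N.tgt b) := by
        rw [hr']
        exact pt_append.2 ⟨v, hr₀, pt_append.2 ⟨v₁, hu', hb1⟩⟩
      have hr'w : ∀ x ∈ r', x ∈ w := by
        intro x hx
        rw [hr'] at hx
        rcases List.mem_append.1 hx with h | h
        · exact hr₀w x h
        · rcases List.mem_append.1 h with h | h
          · exact hu'w2 x h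
          · rw [List.mem_singleton] at h
            rw [h]
            exact hbw
      have hr'app : ∀ y : List E, r' ++ y = r₀ ++ (u' ++ b :: y) := by
        intro y
        rw [hr', List.append_assoc, List.append_assoc]
        rfl
      have hzval : ∀ i ∈ A2, pv N v₀ (r' ++ z') i = pv N v₀ (r₀ ++ z) i := by
        intro i hi
        rw [hr'app, hzeq]
        exact hval z' v' hbz i hi
      obtain ⟨A3, hA3⟩ : ∃ A3 : Finset (Fin n), A3 = A2.filter
        (fun i => ¬ JLe (pv N v₀ r' i) (pv N q₀ w i)) := ⟨_, rfl⟩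
      have hmem3 : ∀ i, i ∈ A3 ↔ i ∈ A2 ∧ ¬ JLe (pv N v₀ r' i) (pv N q₀ w i) := by
        intro i
        rw [hA3, Finset.mem_filter]
      have hcard3 : A3.card ≤ a := by
        have h1 : A3 ⊆ A2.erase i₀ := by
          intro i hi
          rw [Finset.mem_erase]
          refine ⟨?_, ((hmem3 i).1 hi).1⟩
          rintro rfl
          apply ((hmem3 i).1 hi).2
          have h2 := hval [] (N.tgt b) hb1 i hi₀
          rw [hr', h2]
          exact hJ₀
        have h2 := Finset.card_le_card h1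
        have h3 := Finset.card_erase_lt_of_mem hi₀
        have h4 : A2.card ≤ A'.card := Finset.card_le_card (fun i hi => ((hmem2 i).1 hi).1)
        omega
      obtain ⟨r₂, v'', hr₂, hr₂w, hr₂len, hR⟩ := ih A3 v₀ (N.tgt b) v' r' z'
        (fun i hi => hA' ((hmem2 i).1 ((hmem3 i).1 hi).1).1) hcard3 hv₀ hr'p hr'w hz' hz'w
        (fun i hi => by
          rw [hzval i ((hmem3 i).1 hi).1]
          exact hJ i ((hmem2 i).1 ((hmem3 i).1 hi).1).1)
      have hr₁ : Pt N v (u' ++ b :: r₂) v'' := pt_append.2 ⟨v₁, hu', ⟨hsrc, hr₂⟩⟩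
      have hr₁w : ∀ x ∈ u' ++ b :: r₂, x ∈ w := by
        intro x hx
        rcases List.mem_append.1 hx with h | h
        · exact hu'w2 x h
        · rcases List.mem_cons.1 h with h | h
          · rw [h]
            exact hbw
          · exact hr₂w x h
      refine ⟨u' ++ b :: r₂, v'', hr₁, hr₁w, ?_, ?_⟩
      · rw [List.length_append, List.length_cons]
        have h1 : (a + 1) * (p + 1) = a * (p + 1) + (p + 1) := by ring
        omega
      · intro i hi
        by_cases h2 : i ∈ A2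
        · rw [← hzval i h2, ← hr'app r₂]
          by_cases h3 : i ∈ A3
          · exact hR i h3
          · have h4 : JLe (pv N v₀ r' i) (pv N q₀ w i) := by
              by_contra h5
              exact h3 ((hmem3 i).2 ⟨h2, h5⟩)
            exact Req_trans (Req_symm (N4_R hw hv₀ hr'p hr'w hz' hz'w h4))
              (N4_R hw hv₀ hr'p hr'w hr₂ hr₂w h4)
        · have h4 : JLe (pv N v₀ r₀ i) (pv N q₀ w i) := by
            by_contra h5
            exact h2 ((hmem2 i).2 ⟨hi, h5⟩)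
          rw [← hzeq] at hz
          exact Req_trans (Req_symm (N4_R hw hv₀ hr₀ hr₀w hz hzw h4))
            (N4_R hw hv₀ hr₀ hr₀w hr₁ hr₁w h4)

end Pool.Agent.LibCR14
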