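import Pool.Agent.LibCR14.N3

/-!
[CR14 N4L] (MEDIUM/STRONG) L-data, the mirror image of row N4 (read its plan in N4.lean). Context: `w` a loop at `q₀`, `dep (W i) < d + 1` on `A`. `z : v' → v` and `r₀ : v → v₀` over `w`, `Ov N w q₀ v'`.
Induction on `a`, generalizing everything. `A'' = {i ∈ A' | ¬ JLe (pv N v r₀ i) (W i)}`. Case `A'' = ∅`: `l₁ = []`, `v'' = v`: `pv (z ++ r₀) i = pv z i * pv r₀ i`, `Leq_of`. Case `A'' ≠ ∅`: the least `t` such that
`JLe (pv (z.drop (z.length - t) ++ r₀) i) (W i)` for some `i ∈ A''`; `z = z' ++ b :: u`, `u` the suffix of length `t - 1`: for `i ∈ A''` `pv (u ++ r₀) i` is not J-below `W i`, so `dep (pv N (N.tgt b) u i) < d`; `hP A'' _ _ u` gives `u'`.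
`r₀' = b :: u' ++ r₀` (a path from `N.src b`), induction hypothesis for `z'`, `r₀'`: `l₂ : v'' → N.src b`. `l₁ = l₂ ++ b :: u'`. Values as in N4 with `Leq_of`, `ctx` (all start vertices are `Ov`: `ov_step`).
-/

set_option autoImplicit false

namespace Pool.Agent.LibCR14

open Pool.Agent.LibSMP

variable {M : Type*} [Monoid M] {n : ℕ} {Q E : Type*} {N : Net M n Q E}

private lemma N4L_find {α : Type*} {P : List α → Prop} (h0 : ¬ P []) :
    ∀ z : List α, P z → ∃ z' b u, z = z' ++ b :: u ∧ ¬ P u ∧ P (b :: u) := by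
  intro z
  induction z with
  | nil => intro h; exact absurd h h0
  | cons c z ih =>
    intro h
    by_cases hz : P z
    · obtain ⟨z', b, u, e, h1, h2⟩ := ih hz
      exact ⟨c :: z', b, u, by rw [e, List.cons_append], h1, h2⟩
    · exact ⟨[], c, z, rfl, hz, h⟩

private lemma N4L_both [Finite M] {x s s' W : M} (h : JLe x W) (h1 : JLe W (s * x)) (h2 : JLe W (s' * x)) :
    Leq (s * x) (s' * x) :=
  Leq_trans (Leq_symm (Leq_of (h.trans h1))) (Leq_of (h.trans h2))

theorem LD [Finite M] {d p : ℕ} (hP : SPb N d p) {q₀ : Q} {w : List E} (hw : Pt N q₀ w q₀) {A : Finset (Fin n)}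
    (hA : ∀ i ∈ A, dep (pv N q₀ w i) < d + 1) (a : ℕ) :
    ∀ (A' : Finset (Fin n)) (v' v v₀ : Q) (z r₀ : List E), A' ⊆ A → A'.card ≤ a → Ov N w q₀ v' → Pt N v' z v →
      (∀ x ∈ z, x ∈ w) → Pt N v r₀ v₀ → (∀ x ∈ r₀, x ∈ w) →
      (∀ i ∈ A', JLe (pv N v' (z ++ r₀) i) (pv N q₀ w i)) →
      ∃ (l₁ : List E) (v'' : Q), Ov N w q₀ v'' ∧ Pt N v'' l₁ v ∧ (∀ x ∈ l₁, x ∈ w) ∧ l₁.length ≤ a * (p + 1) ∧
        ∀ i ∈ A', Leq (pv N v' (z ++ r₀) i) (pv N v'' (l₁ ++ r₀) i) := by
  classical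
  induction a with
  | zero =>
    intro A' v' v v₀ z r₀ _ hcard hv' hz hzw _ _ _
    have hemp : A' = ∅ := Finset.card_eq_zero.mp (Nat.le_zero.mp hcard)
    subst hemp
    exact ⟨[], v, ov_step hv' hz hzw, rfl, by simp, by simp, by simp⟩
  | succ a ih =>
    intro A' v' v v₀ z r₀ hA' hcard hv' hz hzw hr hrw hJ
    have hvO : Ov N w q₀ v := ov_step hv' hz hzw
    have hzr : ∀ i, pv N v' (z ++ r₀) i = pv N v' z i * pv N v r₀ i := fun i => pv_append hz hr i
    have hzrP : Pt N v' (z ++ r₀) v₀ := pt_append.2 ⟨v, hz, hr⟩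
    have hzrw : ∀ x ∈ z ++ r₀, x ∈ w := by
      intro x hx
      rcases List.mem_append.1 hx with h | h
      · exact hzw x h
      · exact hrw x h
    have hzrJ : ∀ i, JLe (pv N q₀ w i) (pv N v' (z ++ r₀) i) := fun i => ctx hw hv' hzrP hzrw i
    by_cases hemp : ∀ i ∈ A', JLe (pv N v r₀ i) (pv N q₀ w i)
    · refine ⟨[], v, hvO, rfl, by simp, by simp, ?_⟩
      intro i hi
      have h1 := hzrJ i
      rw [hzr i] at h1 ⊢
      rw [List.nil_append]
      exact Leq_symm (Leq_of ((hemp i hi).trans h1))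
    · -- the coordinates not yet reached
      set A'' : Finset (Fin n) := A'.filter (fun i => ¬ JLe (pv N v r₀ i) (pv N q₀ w i)) with hA''
      have hP0 : ¬ (∃ i ∈ A'', ∃ s, Pt N s [] v ∧ JLe (pv N s ([] ++ r₀) i) (pv N q₀ w i)) := by
        rintro ⟨i, hi, s, hs, hJs⟩
        have hs' : s = v := hs
        subst hs'
        exact (Finset.mem_filter.1 hi).2 hJs
      have hP1 : ∃ i ∈ A'', ∃ s, Pt N s z v ∧ JLe (pv N s (z ++ r₀) i) (pv N q₀ w i) := by
        push Not at hemp
        obtain ⟨i, hi, hi'⟩ := hemp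
        exact ⟨i, Finset.mem_filter.2 ⟨hi, hi'⟩, v', hz, hJ i hi⟩
      obtain ⟨z', b, u, hzeq, hnot, i₀, hi₀, s, hs, hJs⟩ := N4L_find
        (P := fun u => ∃ i ∈ A'', ∃ s, Pt N s u v ∧ JLe (pv N s (u ++ r₀) i) (pv N q₀ w i)) hP0 z hP1
      subst hzeq
      obtain ⟨s1, hz'P, hbuP⟩ := pt_append.1 hz
      obtain ⟨hb1, huP⟩ := hbuP
      obtain ⟨hb2, -⟩ := hs
      subst hb1
      have hbw : b ∈ w := hzw b (by simp)
      have hz'w : ∀ x ∈ z', x ∈ w := fun x hx => hzw x (by simp [hx])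
      have huw : ∀ x ∈ u, x ∈ w := fun x hx => hzw x (by simp [hx])
      have hsrcO : Ov N w q₀ (N.src b) := ov_step hv' hz'P hz'w
      have htgtO : Ov N w q₀ (N.tgt b) := ov_step (z := [b]) hsrcO ⟨rfl, rfl⟩ (by simpa using hbw)
      have hdep : ∀ i ∈ A'', dep (pv N (N.tgt b) u i) < d := by
        intro i hi
        have h1 : JLe (pv N q₀ w i) (pv N (N.tgt b) u i) := ctx hw htgtO huP huw i
        have h2 : ¬ JLe (pv N (N.tgt b) u i) (pv N q₀ w i) := by
          intro h
          refine hnot ⟨i, hi, N.tgt b, huP, ?_⟩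
          rw [pv_append huP hr i]
          exact (JLe_mul_right _ _).trans h
        have h3 := dep_lt h1 h2
        have h4 := hA i (hA' (Finset.mem_filter.1 hi).1)
        omega
      obtain ⟨u', hu'P, hu'u, hu'v, hu'l⟩ := hP A'' (N.tgt b) v u huP hdep
      have hu'w : ∀ x ∈ u', x ∈ w := fun x hx => huw x (hu'u x hx)
      have hr'P : Pt N (N.src b) (b :: u' ++ r₀) v₀ := by
        rw [List.cons_append]
        exact ⟨rfl, pt_append.2 ⟨v, hu'P, hr⟩⟩
      have hr'w : ∀ x ∈ b :: u' ++ r₀, x ∈ w := by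
        intro x hx
        rcases List.mem_append.1 hx with h | h
        · rcases List.mem_cons.1 h with h | h
          · rw [h]; exact hbw
          · exact hu'w x h
        · exact hrw x h
      have hr'v : ∀ i ∈ A'', pv N (N.src b) (b :: u' ++ r₀) i = pv N (N.src b) (b :: u ++ r₀) i := by
        intro i hi
        rw [List.cons_append, List.cons_append, pv_cons, pv_cons, pv_append hu'P hr, pv_append huP hr, hu'v i hi]
      have hburP : Pt N (N.src b) (b :: u ++ r₀) v₀ := by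
        rw [List.cons_append]
        exact ⟨rfl, pt_append.2 ⟨v, huP, hr⟩⟩
      have hsame : ∀ i ∈ A'', pv N v' (z' ++ (b :: u' ++ r₀)) i = pv N v' ((z' ++ b :: u) ++ r₀) i := by
        intro i hi
        rw [pv_append hz'P hr'P, hr'v i hi, ← pv_append hz'P hburP, List.append_assoc]
      have hi₀' : JLe (pv N (N.src b) (b :: u' ++ r₀) i₀) (pv N q₀ w i₀) := by
        rw [hr'v i₀ hi₀, List.cons_append, pv_cons]
        rw [List.cons_append, pv_cons] at hJs
        exact hJs
      set A₃ : Finset (Fin n) := A''.filter (fun i => ¬ JLe (pv N (N.src b) (b :: u' ++ r₀) i) (pv N q₀ w i))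
        with hA₃
      have hA₃A'' : A₃ ⊆ A'' := Finset.filter_subset _ _
      have hA''A' : A'' ⊆ A' := Finset.filter_subset _ _
      have hc3 : A₃.card ≤ a := by
        have h1 : A₃ ⊂ A'' := by
          refine Finset.ssubset_iff_subset_ne.2 ⟨hA₃A'', fun h => ?_⟩
          have h2 : i₀ ∈ A₃ := by rw [h]; exact hi₀
          exact (Finset.mem_filter.1 h2).2 hi₀'
        have h2 := Finset.card_lt_card h1
        have h3 := Finset.card_le_card hA''A'
        omega
      obtain ⟨l₂, v'', hv''O, hl₂P, hl₂w, hl₂l, hl₂v⟩ := ih A₃ v' (N.src b) v₀ z' (b :: u' ++ r₀)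
        (hA₃A''.trans (hA''A'.trans hA')) hc3 hv' hz'P hz'w hr'P hr'w
        (by
          intro i hi
          rw [hsame i (hA₃A'' hi)]
          exact hJ i (hA''A' (hA₃A'' hi)))
      have hl₁P : Pt N v'' (l₂ ++ b :: u') v := pt_append.2 ⟨N.src b, hl₂P, rfl, hu'P⟩
      have hl₁w : ∀ x ∈ l₂ ++ b :: u', x ∈ w := by
        intro x hx
        rcases List.mem_append.1 hx with h | h
        · exact hl₂w x h
        · rcases List.mem_cons.1 h with h | h
          · rw [h]; exact hbw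
          · exact hu'w x h
      have hassoc : (l₂ ++ b :: u') ++ r₀ = l₂ ++ (b :: u' ++ r₀) := by rw [List.append_assoc]
      have hl₁rP : Pt N v'' ((l₂ ++ b :: u') ++ r₀) v₀ := pt_append.2 ⟨v, hl₁P, hr⟩
      have hl₁rw : ∀ x ∈ (l₂ ++ b :: u') ++ r₀, x ∈ w := by
        intro x hx
        rcases List.mem_append.1 hx with h | h
        · exact hl₁w x h
        · exact hrw x h
      have hl₁J : ∀ i, JLe (pv N q₀ w i) (pv N v'' ((l₂ ++ b :: u') ++ r₀) i) :=
        fun i => ctx hw hv''O hl₁rP hl₁rw i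
      refine ⟨l₂ ++ b :: u', v'', hv''O, hl₁P, hl₁w, ?_, ?_⟩
      · rw [List.length_append, List.length_cons]
        calc l₂.length + (u'.length + 1) ≤ a * (p + 1) + (p + 1) := by omega
          _ = (a + 1) * (p + 1) := by ring
      · intro i hi
        by_cases h1 : JLe (pv N v r₀ i) (pv N q₀ w i)
        · have h2 := hzrJ i
          have h3 := hl₁J i
          rw [hzr i] at h2 ⊢
          rw [pv_append hl₁P hr i] at h3 ⊢
          exact N4L_both h1 h2 h3
        · have hi'' : i ∈ A'' := Finset.mem_filter.2 ⟨hi, h1⟩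
          by_cases h4 : JLe (pv N (N.src b) (b :: u' ++ r₀) i) (pv N q₀ w i)
          · have h2 := hzrJ i
            have h3 := hl₁J i
            rw [← hsame i hi'', pv_append hz'P hr'P i] at h2 ⊢
            rw [hassoc, pv_append hl₂P hr'P i] at h3 ⊢
            exact N4L_both h4 h2 h3
          · have hi3 : i ∈ A₃ := Finset.mem_filter.2 ⟨hi'', h4⟩
            have h5 := hl₂v i hi3
            rw [hsame i hi''] at h5
            rw [hassoc]
            exact h5

end Pool.Agent.LibCR14
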