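import Pool.Agent.LibCR14.N0

/-!
[CR14 N6] (SHORT/MEDIUM, 4 lemmas) Algebra at one idempotent `f` of a finite monoid.
`exists_exp`: for every `x` there is `k x > 0` with `x ^ k x` idempotent (`exists_idem_pow`); `e = 2 * ∏ x, k x` (`Fintype.ofFinite`): `x ^ e` is a power of an idempotent with positive exponent.
`grp_pow`: `h f = h`, `f h = h`, `JLe f h`. `stab_R` for `f`, `y = h`: `JLe f (f * h)`: `f = f * h * z = h z`. By induction `f = h ^ k * (z')` for some `z'` for every `k` (`f = f f = h z f`, `z f = z (h^k z')`... : `f = h * z = (h * f) * z = h * (h^k * z') * z`). So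
`f = h ^ e * z'`, `h ^ e * f = h ^ e * h ^ e * z' = h ^ e * z' = f`, and `h ^ e * f = h ^ e` (`h * f = h`, `e ≥ 1`).
`turn`: `x = s * ρ`: `(x q) h^(e-1) ρ = s (ρ q) (ρ q)^(e-1) ρ = s h^e ρ = s f ρ = s ρ = x`, `h = ρ * q` (`pow_succ'`, `grp_pow`).
`unit_of`: `f y = y = y f`, `JLe f y`: `y ^ e = f` (`grp_pow`), inverse `f * y ^ (e-1)` = `y ^ (e-1)` (`e ≥ 2`): build `u : (Cor ⟨f, hf⟩)ˣ` with `val = ⟨y, _⟩`, `inv = ⟨y ^ (e-1), _⟩`.
-/

set_option autoImplicit false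

namespace Pool.Agent.LibCR14

open Pool.Agent.LibSMP

theorem exists_exp (M : Type*) [Monoid M] [Finite M] : ∃ e : ℕ, 2 ≤ e ∧ ∀ x : M, x ^ e * x ^ e = x ^ e := by
  classical
  have _ := Fintype.ofFinite M
  choose k hk hidem using fun x : M => exists_idem_pow x
  have hpos : 0 < ∏ x : M, k x := Finset.prod_pos fun x _ => hk x
  refine ⟨2 * ∏ x : M, k x, by omega, fun y => ?_⟩
  obtain ⟨m, hm⟩ := Finset.dvd_prod_of_mem k (Finset.mem_univ y)
  have hm0 : 0 < m := by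
    rcases Nat.eq_zero_or_pos m with h | h
    · rw [h, mul_zero] at hm
      omega
    · exact h
  obtain ⟨r, hr⟩ : ∃ r, 2 * m = r + 1 := ⟨2 * m - 1, by omega⟩
  have h1 : 2 * ∏ x : M, k x = k y * (r + 1) := by
    rw [hm, ← hr]
    ring
  have h2 : (y ^ k y) ^ (r + 1) = y ^ k y := IsIdempotentElem.pow_succ_eq r (hidem y)
  rw [h1, pow_mul, h2]
  exact hidem y

variable {M : Type*} [Monoid M] [Finite M]

theorem grp_pow {e : ℕ} (he : 2 ≤ e) (hex : ∀ x : M, x ^ e * x ^ e = x ^ e) {f h : M} (hf : f * f = f)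
    (h1 : f * h = h) (h2 : h * f = h) (hJ : JLe f h) : h ^ e = f := by
  have _ := hf
  have hJ' : JLe f (f * h) := by
    rw [h1]
    exact hJ
  obtain ⟨z, hz⟩ := stab_R hJ'
  rw [h1] at hz
  have claim : ∀ k : ℕ, ∃ z' : M, f = h ^ k * z' := by
    intro k
    induction k with
    | zero => exact ⟨f, by rw [pow_zero, one_mul]⟩
    | succ k ih =>
      obtain ⟨z', hz'⟩ := ih
      refine ⟨z' * z, ?_⟩
      calc f = h * z := hz
        _ = h * f * z := by rw [h2]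
        _ = h * (h ^ k * z') * z := by rw [← hz']
        _ = h ^ (k + 1) * (z' * z) := by rw [pow_succ']; simp only [mul_assoc]
  obtain ⟨z', hz'⟩ := claim e
  have h3 : h ^ e * f = f := by
    calc h ^ e * f = h ^ e * (h ^ e * z') := by rw [← hz']
      _ = h ^ e * h ^ e * z' := by rw [mul_assoc]
      _ = h ^ e * z' := by rw [hex]
      _ = f := hz'.symm
  have h4 : h ^ e * f = h ^ e := by
    obtain ⟨e', rfl⟩ : ∃ e', e = e' + 1 := ⟨e - 1, by omega⟩
    rw [pow_succ, mul_assoc, h2]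
  rw [← h4, h3]

theorem turn {e : ℕ} (he : 2 ≤ e) (hex : ∀ x : M, x ^ e * x ^ e = x ^ e) {f s ρ x q : M} (hf : f * f = f)
    (hρ : f * ρ = ρ) (h1 : f * (ρ * q) = ρ * q) (h2 : ρ * q * f = ρ * q) (hJ : JLe f (ρ * q)) (hx : x = s * ρ) :
    x * q * (ρ * q) ^ (e - 1) * ρ = x := by
  have h3 : (ρ * q) ^ e = f := grp_pow he hex hf h1 h2 hJ
  have h4 : ρ * q * (ρ * q) ^ (e - 1) = f := by
    rw [← pow_succ', Nat.sub_add_cancel (by omega), h3]
  calc x * q * (ρ * q) ^ (e - 1) * ρ = s * (ρ * q * (ρ * q) ^ (e - 1)) * ρ := by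
        rw [hx]
        simp only [mul_assoc]
    _ = s * f * ρ := by rw [h4]
    _ = s * ρ := by rw [mul_assoc, hρ]
    _ = x := hx.symm

theorem unit_of {f y : M} (hf : f * f = f) (h1 : f * y = y) (h2 : y * f = y) (hJ : JLe f y) :
    ∃ u : (Cor ⟨f, hf⟩)ˣ, (u.1 : Cor ⟨f, hf⟩).1 = y := by
  obtain ⟨e, he, hex⟩ := exists_exp M
  have h3 : y ^ e = f := grp_pow he hex hf h1 h2 hJ
  obtain ⟨r, rfl⟩ : ∃ r, e = r + 2 := ⟨e - 2, by omega⟩
  have h4 : f * y ^ (r + 1) = y ^ (r + 1) := by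
    rw [pow_succ', ← mul_assoc, h1]
  have h5 : y ^ (r + 1) * f = y ^ (r + 1) := by
    rw [pow_succ, mul_assoc, h2]
  have h6 : y * y ^ (r + 1) = f := by
    rw [← pow_succ', h3]
  have h7 : y ^ (r + 1) * y = f := by
    rw [← pow_succ, h3]
  exact ⟨⟨⟨y, h1, h2⟩, ⟨y ^ (r + 1), h4, h5⟩, Subtype.ext h6, Subtype.ext h7⟩, rfl⟩

end Pool.Agent.LibCR14
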