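import Pool.Agent.LibCR14.N5b
import Pool.Agent.LibCR14.N6

/-!
[CR14 N5c] (MEDIUM/STRONG) Short loops. `W i = pv N q₀ w i`, `f i = pv N q₀ φ i` idempotent, `JLe (f i) (W i)` on `A`, `m = card Q`, `B = m + n (p+1)`.
`one_loop`: `ρ = φ ++ P`, `ρ' = φ ++ P'` where `P : q₀ → N.src b`, `P' : q₀ → N.tgt b` are over `w`, `b ∈ w`, and `Leq (pv (φ ++ P ++ [b]) i) (pv (φ ++ P') i)` on `A`. `b' : N.tgt b → q₀` over `w`, length `≤ m` (`short_back`).
`y := (φ ++ P ++ [b] ++ b' ++ φ) ++ (e - 1) copies of (φ ++ P' ++ b' ++ φ)`. With `x = pv (φ ++ P ++ [b]) i`, `ρ' = pv (φ ++ P') i`, `q = pv (b' ++ φ) i`: `pv y i = x * q * (ρ' * q) ^ (e-1)` (for the path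
`(List.replicate (e-1) l).flatten`, `e - 1 ≥ 1`, as in N5a), and `turn` gives `pv y i * ρ' = x` (`JLe (f i) (ρ' * q)` by `JLe (f i) (W i)` and `ctx`).
`loops`: for a path `z : q₀ → v` over `w` and `P : q₀ → v` over `w` of length `≤ B` with `Leq (pv (φ ++ z) i) (pv (φ ++ P) i)`: there is a list `ys` of short loops with `pv (φ ++ z) i = (ys.map (fun y => pv N q₀ y i)).prod * pv (φ ++ P) i` on `A`: induction on `z`
from the right (`List.reverseRecOn`, generalizing `v P`). `z = []`: `v = q₀`, `f i = s * pv (φ++P) i`: use ONE loop: `y := φ ++ (e-1 copies of (φ ++ P ++ φ))`... as in `one_loop` with `x = f i`, `b' = []`: `turn` with `x = f i`, `ρ = pv (φ ++ P) i`, `q = f i`: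
`f * f * (ρ f)^(e-1) * ρ = f`. `z = z₀ ++ [b]`: `access` for `z₀` gives `P₀ : q₀ → N.src b` with `Leq (pv (φ ++ z₀) i) (pv (φ ++ P₀) i)`; induction hypothesis `ys₀`; `Leq (pv (φ ++ P₀ ++ [b]) i) (pv (φ ++ z₀ ++ [b]) i)` (multiply by `vl b`),
`= pv (φ ++ z) i`, so `Leq (pv (φ ++ P₀ ++ [b]) i) (pv (φ ++ P) i)`; `one_loop` gives `y` with `pv y i * pv (φ ++ P) i = pv (φ ++ P₀) i * vl b i`; `ys = ys₀ ++ [y]`.
Every `y` in `ys` satisfies `f i * pv y i = pv y i = pv y i * f i` on `A` (it begins and ends with `φ`).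
-/

set_option autoImplicit false

namespace Pool.Agent.LibCR14

open Pool.Agent.LibSMP

variable {M : Type*} [Monoid M] {n : ℕ} {Q E : Type*} {N : Net M n Q E}

private theorem N5c_rep {q₀ : Q} {l : List E} (hl : Pt N q₀ l q₀) (k : ℕ) : ∀ u : List E, Pt N q₀ u q₀ →
    Pt N q₀ (u ++ (List.replicate k l).flatten) q₀ ∧
      ∀ i, pv N q₀ (u ++ (List.replicate k l).flatten) i = pv N q₀ u i * pv N q₀ l i ^ k := by
  induction k with
  | zero =>
    intro u hu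
    rw [List.replicate_zero, List.flatten_nil, List.append_nil]
    exact ⟨hu, fun i => by rw [pow_zero, mul_one]⟩
  | succ k ih =>
    intro u hu
    have hul : Pt N q₀ (u ++ l) q₀ := pt_append.2 ⟨q₀, hu, hl⟩
    obtain ⟨h1, h2⟩ := ih (u ++ l) hul
    rw [List.replicate_succ, List.flatten_cons, ← List.append_assoc]
    refine ⟨h1, fun i => ?_⟩
    rw [h2 i, pv_append hu hl, pow_succ', mul_assoc]

private theorem N5c_len (l : List E) (k : ℕ) : (List.replicate k l).flatten.length = k * l.length := by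
  induction k with
  | zero => simp
  | succ k ih =>
    rw [List.replicate_succ, List.flatten_cons, List.length_append, ih]
    ring

private theorem N5c_memf {l : List E} {k : ℕ} {x : E} (hx : x ∈ (List.replicate k l).flatten) : x ∈ l := by
  obtain ⟨l', hl', hx'⟩ := List.mem_flatten.1 hx
  rw [List.eq_of_mem_replicate hl'] at hx'
  exact hx'

private theorem N5c_alg {f x q h : M} (hq : q * f = q) (hh : h * f = h) (k : ℕ) :
    x * q * h ^ k * f = x * q * h ^ k := by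
  cases k with
  | zero => rw [pow_zero, mul_one, mul_assoc, hq]
  | succ k => rw [pow_succ, mul_assoc, mul_assoc (h ^ k) h f, hh]

private theorem N5c_one [Finite M] [Fintype Q] {e : ℕ} (he : 2 ≤ e) (hex : ∀ x : M, x ^ e * x ^ e = x ^ e)
    {q₀ : Q} {w : List E} (hw : Pt N q₀ w q₀)
    {A : Finset (Fin n)} {φ : List E} (hφ : Pt N q₀ φ q₀)
    (hφs : ∀ x ∈ φ, x ∈ w) (hφi : ∀ i ∈ A, pv N q₀ φ i * pv N q₀ φ i = pv N q₀ φ i)
    (hφJ : ∀ i ∈ A, JLe (pv N q₀ φ i) (pv N q₀ w i)) {v : Q} {X P : List E}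
    (hX : Pt N q₀ X v) (hXs : ∀ x ∈ X, x ∈ w) (hPt : Pt N q₀ P v) (hPs : ∀ x ∈ P, x ∈ w)
    {B : ℕ} (hXl : X.length ≤ B) (hPl : P.length ≤ B)
    (hL : ∀ i ∈ A, Leq (pv N q₀ (φ ++ X) i) (pv N q₀ (φ ++ P) i)) :
    ∃ y : List E, Pt N q₀ y q₀ ∧ (∀ x ∈ y, x ∈ w) ∧
        y.length ≤ e * (2 * φ.length + Fintype.card Q + B) ∧
        ∀ i ∈ A, (pv N q₀ φ i * pv N q₀ y i = pv N q₀ y i ∧ pv N q₀ y i * pv N q₀ φ i = pv N q₀ y i) ∧
          pv N q₀ y i * pv N q₀ (φ ++ P) i = pv N q₀ (φ ++ X) i := by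
  have hov : Ov N w q₀ v := ⟨P, hPt, hPs⟩
  have hov0 : Ov N w q₀ q₀ := ⟨[], rfl, fun a ha => absurd ha List.not_mem_nil⟩
  obtain ⟨b', hb', hbs, hbl⟩ := short_back hw hov
  have hφX : Pt N q₀ (φ ++ X) v := pt_append.2 ⟨q₀, hφ, hX⟩
  have hφP : Pt N q₀ (φ ++ P) v := pt_append.2 ⟨q₀, hφ, hPt⟩
  have hbφ : Pt N v (b' ++ φ) q₀ := pt_append.2 ⟨q₀, hb', hφ⟩
  have hu : Pt N q₀ ((φ ++ X) ++ (b' ++ φ)) q₀ := pt_append.2 ⟨v, hφX, hbφ⟩
  have hl : Pt N q₀ ((φ ++ P) ++ (b' ++ φ)) q₀ := pt_append.2 ⟨v, hφP, hbφ⟩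
  obtain ⟨hy, hyv⟩ := N5c_rep hl (e - 1) _ hu
  refine ⟨((φ ++ X) ++ (b' ++ φ)) ++ (List.replicate (e - 1) ((φ ++ P) ++ (b' ++ φ))).flatten, hy, ?_, ?_, ?_⟩
  · intro x hx
    rw [List.mem_append] at hx
    rcases hx with hx | hx
    · simp only [List.mem_append] at hx
      rcases hx with (hx | hx) | hx | hx
      · exact hφs x hx
      · exact hXs x hx
      · exact hbs x hx
      · exact hφs x hx
    · have hx' := N5c_memf hx
      simp only [List.mem_append] at hx'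
      rcases hx' with (hx | hx) | hx | hx
      · exact hφs x hx
      · exact hPs x hx
      · exact hbs x hx
      · exact hφs x hx
  · rw [List.length_append, N5c_len]
    simp only [List.length_append]
    obtain ⟨e', rfl⟩ : ∃ e', e = e' + 1 := ⟨e - 1, by omega⟩
    rw [Nat.add_sub_cancel]
    have h1 : φ.length + X.length + (b'.length + φ.length) ≤ 2 * φ.length + Fintype.card Q + B := by omega
    have h2 : φ.length + P.length + (b'.length + φ.length) ≤ 2 * φ.length + Fintype.card Q + B := by omega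
    calc φ.length + X.length + (b'.length + φ.length) + e' * (φ.length + P.length + (b'.length + φ.length)) ≤
        (2 * φ.length + Fintype.card Q + B) + e' * (2 * φ.length + Fintype.card Q + B) :=
          Nat.add_le_add h1 (Nat.mul_le_mul_left e' h2)
      _ = (e' + 1) * (2 * φ.length + Fintype.card Q + B) := by ring
  · intro i hi
    have hval := hyv i
    rw [pv_append hφX hbφ, pv_append hφP hbφ] at hval
    have hf := hφi i hi
    have hρ : pv N q₀ φ i * pv N q₀ (φ ++ P) i = pv N q₀ (φ ++ P) i := by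
      rw [pv_append hφ hPt, ← mul_assoc, hf]
    have hx : pv N q₀ φ i * pv N q₀ (φ ++ X) i = pv N q₀ (φ ++ X) i := by
      rw [pv_append hφ hX, ← mul_assoc, hf]
    have hq : pv N v (b' ++ φ) i * pv N q₀ φ i = pv N v (b' ++ φ) i := by
      rw [pv_append hb' hφ, mul_assoc, hf]
    have h1 : pv N q₀ φ i * (pv N q₀ (φ ++ P) i * pv N v (b' ++ φ) i) = pv N q₀ (φ ++ P) i * pv N v (b' ++ φ) i := by
      rw [← mul_assoc, hρ]
    have h2 : pv N q₀ (φ ++ P) i * pv N v (b' ++ φ) i * pv N q₀ φ i = pv N q₀ (φ ++ P) i * pv N v (b' ++ φ) i := by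
      rw [mul_assoc, hq]
    have hJ : JLe (pv N q₀ φ i) (pv N q₀ (φ ++ P) i * pv N v (b' ++ φ) i) := by
      rw [← pv_append hφP hbφ]
      refine (hφJ i hi).trans (ctx hw hov0 hl ?_ i)
      intro x hx
      simp only [List.mem_append] at hx
      rcases hx with (hx | hx) | hx | hx
      · exact hφs x hx
      · exact hPs x hx
      · exact hbs x hx
      · exact hφs x hx
    obtain ⟨⟨s, hs⟩, -⟩ := hL i hi
    rw [hval]
    refine ⟨⟨?_, N5c_alg hq h2 (e - 1)⟩, turn he hex hf hρ h1 h2 hJ hs⟩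
    rw [← mul_assoc, ← mul_assoc, hx]

theorem loops [Finite M] [Fintype Q] {e : ℕ} (he : 2 ≤ e) (hex : ∀ x : M, x ^ e * x ^ e = x ^ e) {d p : ℕ}
    (hP : SPb N d p) {q₀ : Q} {w : List E} (hw : Pt N q₀ w q₀)
    {A : Finset (Fin n)} (hA : ∀ i ∈ A, dep (pv N q₀ w i) < d + 1) {φ : List E} (hφ : Pt N q₀ φ q₀)
    (hφs : ∀ x ∈ φ, x ∈ w) (hφi : ∀ i ∈ A, pv N q₀ φ i * pv N q₀ φ i = pv N q₀ φ i)
    (hφJ : ∀ i ∈ A, JLe (pv N q₀ φ i) (pv N q₀ w i)) {v : Q} {z P : List E}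
    (hz : Pt N q₀ z v) (hzs : ∀ x ∈ z, x ∈ w) (hPt : Pt N q₀ P v) (hPs : ∀ x ∈ P, x ∈ w)
    (hPl : P.length ≤ Fintype.card Q + n * (p + 1))
    (hL : ∀ i ∈ A, Leq (pv N q₀ (φ ++ z) i) (pv N q₀ (φ ++ P) i)) :
    ∃ ys : List (List E), (∀ y ∈ ys, Pt N q₀ y q₀ ∧ (∀ x ∈ y, x ∈ w) ∧
        y.length ≤ e * (2 * φ.length + 2 * Fintype.card Q + n * (p + 1) + 1) ∧
        ∀ i ∈ A, pv N q₀ φ i * pv N q₀ y i = pv N q₀ y i ∧ pv N q₀ y i * pv N q₀ φ i = pv N q₀ y i) ∧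
      ∀ i ∈ A, pv N q₀ (φ ++ z) i = (ys.map (fun y => pv N q₀ y i)).prod * pv N q₀ (φ ++ P) i := by
  have hB : 2 * φ.length + Fintype.card Q + (Fintype.card Q + n * (p + 1) + 1) =
      2 * φ.length + 2 * Fintype.card Q + n * (p + 1) + 1 := by ring
  induction z using List.reverseRecOn generalizing v P with
  | nil =>
    obtain ⟨y, h1, h2, h3, h4⟩ := N5c_one he hex hw hφ hφs hφi hφJ hz hzs hPt hPs
      (B := Fintype.card Q + n * (p + 1) + 1) (Nat.zero_le _) (hPl.trans (Nat.le_succ _)) hL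
    rw [hB] at h3
    refine ⟨[y], ?_, ?_⟩
    · intro y' hy'
      rw [List.mem_singleton] at hy'
      subst hy'
      exact ⟨h1, h2, h3, fun i hi => (h4 i hi).1⟩
    · intro i hi
      rw [List.map_cons, List.map_nil, List.prod_cons, List.prod_nil, mul_one]
      exact (h4 i hi).2.symm
  | append_singleton z₀ b ih =>
    obtain ⟨v₁, hz₀, hb⟩ := pt_append.1 hz
    obtain ⟨hb1, hb2⟩ := hb
    have hb2' : N.tgt b = v := hb2
    subst hb1
    subst hb2'
    have hz₀s : ∀ x ∈ z₀, x ∈ w := fun x hx => hzs x (List.mem_append_left _ hx)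
    have hbw : b ∈ w := hzs b (List.mem_append_right _ (List.mem_singleton_self b))
    obtain ⟨P₀, hP₀, hP₀s, hP₀l, hP₀L⟩ := access hP hw hA hφ hφs hφJ hz₀ hz₀s
    obtain ⟨ys₀, hys, hval⟩ := ih hz₀ hz₀s hP₀ hP₀s hP₀l hP₀L
    have hφz : Pt N q₀ (φ ++ z₀) (N.src b) := pt_append.2 ⟨q₀, hφ, hz₀⟩
    have hφP : Pt N q₀ (φ ++ P₀) (N.src b) := pt_append.2 ⟨q₀, hφ, hP₀⟩
    have e1 : ∀ i, pv N q₀ (φ ++ (z₀ ++ [b])) i = pv N q₀ (φ ++ z₀) i * N.vl b i := by
      intro i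
      rw [← List.append_assoc, pv_snoc hφz]
    have e2 : ∀ i, pv N q₀ (φ ++ (P₀ ++ [b])) i = pv N q₀ (φ ++ P₀) i * N.vl b i := by
      intro i
      rw [← List.append_assoc, pv_snoc hφP]
    have hL' : ∀ i ∈ A, Leq (pv N q₀ (φ ++ (P₀ ++ [b])) i) (pv N q₀ (φ ++ P) i) := by
      intro i hi
      refine Leq_trans ?_ (hL i hi)
      obtain ⟨⟨s, hs⟩, ⟨t, ht⟩⟩ := hP₀L i hi
      rw [e1, e2]
      refine ⟨⟨t, ?_⟩, ⟨s, ?_⟩⟩
      · rw [← mul_assoc, ← ht]
      · rw [← mul_assoc, ← hs]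
    obtain ⟨y, h1, h2, h3, h4⟩ := N5c_one he hex hw hφ hφs hφi hφJ (pt_snoc hP₀)
      (by
        intro x hx
        rw [List.mem_append, List.mem_singleton] at hx
        rcases hx with hx | rfl
        · exact hP₀s x hx
        · exact hbw) hPt hPs
      (B := Fintype.card Q + n * (p + 1) + 1)
      (by rw [List.length_append, List.length_singleton]; omega) (hPl.trans (Nat.le_succ _)) hL'
    rw [hB] at h3
    refine ⟨ys₀ ++ [y], ?_, ?_⟩
    · intro y' hy'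
      rw [List.mem_append, List.mem_singleton] at hy'
      rcases hy' with hy' | rfl
      · exact hys y' hy'
      · exact ⟨h1, h2, h3, fun i hi => (h4 i hi).1⟩
    · intro i hi
      rw [List.map_append, List.prod_append, List.map_cons, List.map_nil, List.prod_cons, List.prod_nil, mul_one,
        mul_assoc, (h4 i hi).2, e1, e2, hval i hi, mul_assoc]

end Pool.Agent.LibCR14
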