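import Pool.Agent.LibCR14.N6
import Pool.Agent.LibCR14.D8

/-!
[CR14 N5d] Compression of a product of group elements.
-/

set_option autoImplicit false

namespace Pool.Agent.LibCR14

open Pool.Agent.LibSMP

private theorem N5d_lift {α β : Type*} (F : α → β) (ys : List α) :
    ∀ L : List β, (∀ x ∈ L, ∃ y ∈ ys, F y = x) → ∃ ys' : List α, (∀ y ∈ ys', y ∈ ys) ∧ ys'.map F = L
  | [], _ => ⟨[], fun y hy => absurd hy List.not_mem_nil, rfl⟩
  | x :: L, h => by
    obtain ⟨y, hy, hyx⟩ := h x List.mem_cons_self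
    obtain ⟨ys', h1, h2⟩ := N5d_lift F ys L fun z hz => h z (List.mem_cons_of_mem _ hz)
    refine ⟨y :: ys', ?_, ?_⟩
    · intro z hz
      rcases List.mem_cons.1 hz with h3 | h3
      · rw [h3]
        exact hy
      · exact h1 z h3
    · rw [List.map_cons, hyx, h2]

private theorem N5d_val {M : Type*} [Monoid M] (e : {e : M // e * e = e}) {α : Type*} (z : α → M)
    (u : α → (Cor e)ˣ) : ∀ zs : List α, (∀ y ∈ zs, (u y).1.1 = z y ∧ e.1 * z y = z y ∧ z y * e.1 = z y) →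
      ((zs.map u).prod.1).1 = e.1 * (zs.map z).prod
  | [], _ => by
    rw [List.map_nil, List.map_nil, List.prod_nil, List.prod_nil, mul_one]
    rfl
  | y :: zs, h => by
    have ih := N5d_val e z u zs fun x hx => h x (List.mem_cons_of_mem _ hx)
    obtain ⟨h1, h2, h3⟩ := h y List.mem_cons_self
    rw [List.map_cons, List.map_cons, List.prod_cons, List.prod_cons, Units.val_mul, Cor.mul_val, ih, h1,
      ← mul_assoc, h3, ← mul_assoc, h2]

theorem compress (M : Type*) [Monoid M] [Finite M] :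
    ∃ C : ℕ, ∀ (n : ℕ) (f : Fin n → M) (A : Finset (Fin n)) (ys : List (Fin n → M)),
      (∀ i ∈ A, f i * f i = f i) →
      (∀ y ∈ ys, ∀ i ∈ A, f i * y i = y i ∧ y i * f i = y i ∧ JLe (f i) (y i)) →
      ∃ ys' : List (Fin n → M), (∀ y ∈ ys', y ∈ ys) ∧ ys'.length ≤ (n + 2) ^ C ∧
        ∀ i ∈ A, f i * (ys'.map (fun y => y i)).prod = f i * (ys.map (fun y => y i)).prod := by
  classical
  obtain ⟨C, hC⟩ := Dia_all (GGp M)
  refine ⟨C, fun n f A ys hf hy => ?_⟩
  let E : Fin n → {e : M // e * e = e} := fun i =>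
    if h : i ∈ A then ⟨f i, hf i h⟩ else ⟨1, one_mul 1⟩
  have hE : ∀ i (hi : i ∈ A), E i = ⟨f i, hf i hi⟩ := fun i hi => dif_pos hi
  have hE1 : ∀ i, i ∈ A → (E i).1 = f i := fun i hi => by rw [hE i hi]
  have hunit : ∀ y ∈ ys, ∀ i ∈ A, ∃ u : (Cor (E i))ˣ, (u.1).1 = y i := by
    intro y hy1 i hi
    rw [hE i hi]
    obtain ⟨h1, h2, h3⟩ := hy y hy1 i hi
    exact unit_of (hf i hi) h1 h2 h3
  let F : (Fin n → M) → (Fin n → GGp M) := fun y i =>
    if h : ∃ u : (Cor (E i))ˣ, (u.1).1 = y i then Pi.mulSingle (E i) h.choose else 1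
  let ψ : ∀ i, (Fin n → GGp M) →* (Cor (E i))ˣ := fun i =>
    (Pi.evalMonoidHom (fun e : {e : M // e * e = e} => (Cor e)ˣ) (E i)).comp
      (Pi.evalMonoidHom (fun _ : Fin n => GGp M) i)
  have hψ : ∀ y ∈ ys, ∀ i ∈ A, ((ψ i (F y)).1).1 = y i := by
    intro y hy1 i hi
    have hex := hunit y hy1 i hi
    have h1 : F y i = Pi.mulSingle (E i) hex.choose := dif_pos hex
    have h2 : ψ i (F y) = hex.choose := by
      change F y i (E i) = _
      rw [h1, Pi.mulSingle_eq_same]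
    rw [h2]
    exact hex.choose_spec
  have hval : ∀ zs : List (Fin n → M), (∀ y ∈ zs, y ∈ ys) → ∀ i ∈ A,
      ((ψ i (zs.map F).prod).1).1 = f i * (zs.map fun y => y i).prod := by
    intro zs hzs i hi
    have h1 := N5d_val (E i) (fun y : Fin n → M => y i) (fun y => ψ i (F y)) zs (by
      intro y hy1
      obtain ⟨h1, h2, _⟩ := hy y (hzs y hy1) i hi
      refine ⟨hψ y (hzs y hy1) i hi, ?_, ?_⟩
      · rw [hE1 i hi]
        exact h1
      · rw [hE1 i hi]
        exact h2)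
    have h2 : (E i).1 * (zs.map fun y => y i).prod = f i * (zs.map fun y => y i).prod := by
      rw [hE1 i hi]
    refine Eq.trans ?_ (h1.trans h2)
    rw [map_list_prod, List.map_map]
    rfl
  have hmem : (ys.map F).prod ∈ Subgroup.closure {g | ∃ y ∈ ys, F y = g} := by
    refine Subgroup.list_prod_mem _ fun x hx => ?_
    obtain ⟨y, hy1, hyx⟩ := List.mem_map.1 hx
    exact Subgroup.subset_closure ⟨y, hy1, hyx⟩
  obtain ⟨L, hL1, hL2, hL3⟩ := hC n _ _ hmem
  obtain ⟨ys', h1, h2⟩ := N5d_lift F ys L hL2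
  refine ⟨ys', h1, ?_, fun i hi => ?_⟩
  · rw [← h2, List.length_map] at hL1
    exact hL1
  · rw [← hval ys' h1 i hi, h2, hL3]
    exact hval ys (fun y hy1 => hy1) i hi

end Pool.Agent.LibCR14
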