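import Pool.Agent.LibCR14.N5a
import Pool.Agent.LibCR14.N5c
import Pool.Agent.LibCR14.N5d

/-!
[CR14 N5] (MEDIUM) Short loops with given values. Hypothesis `hC` is the conclusion of `compress M` (row N5d) with constant `C`.
`φ` from `exists_phi`, `f i = pv N q₀ φ i`. `P` from `access` with `z = w` (`v = q₀`): `Leq (pv (φ ++ w) i) (pv (φ ++ P) i)`. `loops` with `z = w`: `ys`; `pv (φ ++ w) i = f i * W i = W i`. For `y ∈ ys`: `JLe (f i) (pv y i)` (`JLe (f i) (W i)` and `ctx`).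
`hC` for the list `ys.map (fun y => pv N q₀ y)`: get a list of members, lift it to `ys'` (a list of members of `ys` with `ys'.map (pv N q₀) = _`; `List.exists_of_mem_map` elementwise, induction), length `≤ (n+2)^C`.
`w' = φ ++ ys'.flatten ++ (φ ++ P)`: `pv w' i = f i * (∏ ys') * pv (φ ++ P) i = f i * (∏ ys) * pv (φ ++ P) i = f i * W i = W i` (`pv` of a flatten of loops at `q₀` after `φ`: induction, `pv_append`).
Length `≤ φ + (n+2)^C * Lb + φ + P`, `Lb = e (2 φ + 2 m + n (p+1) + 1)`, `φ ≤ e (n (p+1) + m)`. Everything is `≤ T * ((n+2)^C + 1)` with `T = e (2 e (n (p+1) + m) + 2 m + n (p+1) + 1) + 2 e (n (p+1) + m) + m + n (p+1)`; the statement has a larger bound: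
with `s = n + m + 2 ≥ 2`, `P1 = p + 1`: `n (p+1) + m ≤ s P1`, `e (2 e s P1 + 2 s P1 + s P1 + 1) ≤ 6 e² s P1`, sum `≤ (6 e² + 3 e + ..) s P1 (s^C + 1) ≤ 20 e² s P1 * 2 s^C`.
-/

set_option autoImplicit false

namespace Pool.Agent.LibCR14

open Pool.Agent.LibSMP

variable {M : Type*} [Monoid M] {n : ℕ} {Q E : Type*} {N : Net M n Q E}

private theorem N5_flat {v : Q} {R : List E} {q₀ : Q} (hR : Pt N q₀ R v) :
    ∀ ys : List (List E), (∀ y ∈ ys, Pt N q₀ y q₀) →
      Pt N q₀ (ys.flatten ++ R) v ∧ ∀ i, pv N q₀ (ys.flatten ++ R) i =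
        (ys.map (fun y => pv N q₀ y i)).prod * pv N q₀ R i := by
  intro ys
  induction ys with
  | nil =>
    intro _
    refine ⟨by simpa using hR, fun i => ?_⟩
    simp
  | cons y ys ih =>
    intro h
    have hy : Pt N q₀ y q₀ := h y (by simp)
    obtain ⟨h1, h2⟩ := ih (fun z hz => h z (List.mem_cons_of_mem _ hz))
    have e1 : (y :: ys).flatten ++ R = y ++ (ys.flatten ++ R) := by
      rw [List.flatten_cons, List.append_assoc]
    refine ⟨?_, fun i => ?_⟩
    · rw [e1, pt_append]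
      exact ⟨q₀, hy, h1⟩
    · rw [e1, pv_append hy h1, h2, List.map_cons, List.prod_cons, mul_assoc]

private theorem N5_lift {α β : Type*} (g : α → β) (ys : List α) :
    ∀ L : List β, (∀ y ∈ L, y ∈ ys.map g) → ∃ ys' : List α, ys'.map g = L ∧ ∀ y ∈ ys', y ∈ ys := by
  intro L
  induction L with
  | nil => exact fun _ => ⟨[], rfl, by simp⟩
  | cons b L ih =>
    intro h
    obtain ⟨ys', h1, h2⟩ := ih (fun y hy => h y (List.mem_cons_of_mem _ hy))
    obtain ⟨a, ha, hab⟩ := List.mem_map.mp (h b (by simp))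
    refine ⟨a :: ys', by rw [List.map_cons, h1, hab], ?_⟩
    intro y hy
    rcases List.mem_cons.mp hy with rfl | hy
    · exact ha
    · exact h2 y hy

private theorem N5_len {L : ℕ} : ∀ ys : List (List E), (∀ y ∈ ys, y.length ≤ L) →
    ys.flatten.length ≤ ys.length * L := by
  intro ys
  induction ys with
  | nil => intro _; simp
  | cons y ys ih =>
    intro h
    have h1 := h y (by simp)
    have h2 := ih (fun z hz => h z (List.mem_cons_of_mem _ hz))
    rw [List.flatten_cons, List.length_append, List.length_cons, Nat.add_mul, one_mul]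
    omega

private theorem N5_arith {e n m p C F Y R : ℕ} (he : 2 ≤ e) (hF : F ≤ e * (n * (p + 1) + m))
    (hY : Y ≤ (n + 2) ^ C * (e * (2 * F + 2 * m + n * (p + 1) + 1)))
    (hR : R ≤ m + n * (p + 1)) :
    F + (Y + (F + R)) ≤ 40 * e ^ 2 * (n + m + 2) ^ (C + 1) * (p + 1) := by
  have hm : m ≤ m * (p + 1) := Nat.le_mul_of_pos_right m (Nat.succ_pos p)
  have hX0 : n * (p + 1) + m ≤ (n + m + 2) * (p + 1) := by nlinarith
  have hX1 : 2 * m + n * (p + 1) + 1 ≤ 2 * ((n + m + 2) * (p + 1)) := by nlinarith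
  generalize hX : (n + m + 2) * (p + 1) = X at hX0 hX1
  have hF1 : F ≤ e * X := hF.trans (Nat.mul_le_mul_left e hX0)
  have hR1 : R ≤ X := by omega
  have hb : 2 * F + 2 * m + n * (p + 1) + 1 ≤ 3 * (e * X) := by nlinarith
  have hs : (n + 2) ^ C ≤ (n + m + 2) ^ C := Nat.pow_le_pow_left (by omega) C
  have hs1 : 1 ≤ (n + m + 2) ^ C := Nat.one_le_pow _ _ (by omega)
  have hY1 : Y ≤ (n + m + 2) ^ C * (e * (3 * (e * X))) :=
    hY.trans (Nat.mul_le_mul hs (Nat.mul_le_mul_left e hb))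
  have hfin : 40 * e ^ 2 * (n + m + 2) ^ (C + 1) * (p + 1) =
      40 * ((n + m + 2) ^ C * (e * (e * X))) := by
    rw [← hX]
    ring
  rw [hfin]
  have h3 : (n + m + 2) ^ C * (e * (3 * (e * X))) = 3 * ((n + m + 2) ^ C * (e * (e * X))) := by
    ring
  rw [h3] at hY1
  have h4 : e * X ≤ e * (e * X) := Nat.le_mul_of_pos_left _ (by omega)
  have h5 : X ≤ e * X := Nat.le_mul_of_pos_left _ (by omega)
  have h6 : e * (e * X) ≤ (n + m + 2) ^ C * (e * (e * X)) := Nat.le_mul_of_pos_left _ hs1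
  omega

theorem short_loop [Finite M] [Fintype Q] {e : ℕ} (he : 2 ≤ e) (hex : ∀ x : M, x ^ e * x ^ e = x ^ e) {C : ℕ}
    (hC : ∀ (n : ℕ) (f : Fin n → M) (A : Finset (Fin n)) (ys : List (Fin n → M)),
      (∀ i ∈ A, f i * f i = f i) →
      (∀ y ∈ ys, ∀ i ∈ A, f i * y i = y i ∧ y i * f i = y i ∧ JLe (f i) (y i)) →
      ∃ ys' : List (Fin n → M), (∀ y ∈ ys', y ∈ ys) ∧ ys'.length ≤ (n + 2) ^ C ∧
        ∀ i ∈ A, f i * (ys'.map (fun y => y i)).prod = f i * (ys.map (fun y => y i)).prod)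
    {d p : ℕ} (hP : SPb N d p) {q₀ : Q} {w : List E} (hw : Pt N q₀ w q₀)
    {A : Finset (Fin n)} (hA : ∀ i ∈ A, dep (pv N q₀ w i) < d + 1) :
    ∃ w' : List E, Pt N q₀ w' q₀ ∧ (∀ a ∈ w', a ∈ w) ∧ (∀ i ∈ A, pv N q₀ w' i = pv N q₀ w i) ∧
      w'.length ≤ 40 * e ^ 2 * (n + Fintype.card Q + 2) ^ (C + 1) * (p + 1) := by
  obtain ⟨φ, hφ, hφs, hφl, hφA⟩ := exists_phi he hex hP hw hA
  obtain ⟨P, hPt, hPs, hPl, hPL⟩ := access hP hw hA hφ hφs (fun i hi => (hφA i hi).2.2) hw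
    (fun x hx => hx)
  obtain ⟨ys, hys, hprod⟩ := loops he hex hP hw hA hφ hφs (fun i hi => (hφA i hi).1)
    (fun i hi => (hφA i hi).2.2) hw (fun x hx => hx) hPt hPs hPl hPL
  have hov : Ov N w q₀ q₀ := ⟨[], rfl, by simp⟩
  obtain ⟨Ls, hL1, hL2, hL3⟩ := hC n (fun i => pv N q₀ φ i) A (ys.map (fun y => pv N q₀ y))
    (fun i hi => (hφA i hi).1) (by
      intro y hy i hi
      obtain ⟨z, hz, rfl⟩ := List.mem_map.mp hy
      obtain ⟨h1, h2, _, h4⟩ := hys z hz
      exact ⟨(h4 i hi).1, (h4 i hi).2, (hφA i hi).2.2.trans (ctx hw hov h1 h2 i)⟩)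
  obtain ⟨ys', hy1, hy2⟩ := N5_lift (fun y => pv N q₀ y) ys Ls hL1
  have hφP : Pt N q₀ (φ ++ P) q₀ := pt_append.mpr ⟨q₀, hφ, hPt⟩
  obtain ⟨hf1, hf2⟩ := N5_flat hφP ys' (fun y hy => (hys y (hy2 y hy)).1)
  refine ⟨φ ++ (ys'.flatten ++ (φ ++ P)), pt_append.mpr ⟨q₀, hφ, hf1⟩, ?_, ?_, ?_⟩
  · intro a ha
    rcases List.mem_append.mp ha with h | h
    · exact hφs a h
    · rcases List.mem_append.mp h with h | h
      · obtain ⟨y, hy, hay⟩ := List.mem_flatten.mp h
        exact (hys y (hy2 y hy)).2.1 a hay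
      · rcases List.mem_append.mp h with h | h
        · exact hφs a h
        · exact hPs a h
  · intro i hi
    have h1 := hL3 i hi
    rw [← hy1, List.map_map, List.map_map] at h1
    have h2 := hprod i hi
    rw [pv_append hφ hw] at h2
    rw [pv_append hφ hf1, hf2, ← mul_assoc]
    have h3 : pv N q₀ φ i * (ys'.map (fun y => pv N q₀ y i)).prod =
        pv N q₀ φ i * (ys.map (fun y => pv N q₀ y i)).prod := h1
    rw [h3, mul_assoc, ← h2, ← mul_assoc, (hφA i hi).1, (hφA i hi).2.1]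
  · rw [List.length_append, List.length_append, List.length_append]
    refine N5_arith he hφl ?_ hPl
    have h1 : ys'.length ≤ (n + 2) ^ C := by
      have h2 : ys'.length = Ls.length := by rw [← hy1, List.length_map]
      rw [h2]
      exact hL2
    exact (N5_len ys' (fun y hy => (hys y (hy2 y hy)).2.2.1)).trans (Nat.mul_le_mul_right _ h1)

end Pool.Agent.LibCR14
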