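import Pool.Agent.LibCR14.N4
import Pool.Agent.LibCR14.N6

/-!
[CR14 N5a] (MEDIUM) The idempotent loop `φ`. `W i = pv N q₀ w i`, `m = card Q`.
`RD` with `a = n` (`A.card ≤ n`: `Finset.card_le_univ`/`Fintype.card_fin`), `A' = A`, `v₀ = v = v' = q₀`, `r₀ = []`, `z = w` (`Ov N w q₀ q₀` by `[]`): `r₁ : q₀ → v''` over `w`, length `≤ n (p+1)`, `Req (W i) (pv r₁ i)` on `A`. `c : v'' → q₀` over `w`, length `≤ m`
(`short_back`, `ov_step`). `r = r₁ ++ c`: loop, `pv r i = pv r₁ i * pv c i`, J-above `W i` (`ctx`), so `Req (pv r₁ i) (pv r i)` (`Req_of`, `Req_J`), so `Req (W i) (pv r i)`.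
`φ = (List.replicate e r).flatten`: loop at `q₀` over `w`, length `e * r.length`, `pv N q₀ φ i = (pv N q₀ r i) ^ e` for `e ≥ 1` (induction, `pv_append`, `ep * x = x`). Let `x = pv r i`, `x ∈` local monoid at `q₀`: `(N.cr q₀ i).2`: `x y x = x`, `x y = y x`: then `x ^ e * x = x`
(`x = x^(k+1) y^k` for all `k`: `x = x * x * y`; so `x ^ e * x = x ^ e * (x ^ (e+1) * y ^ e) = x ^(e) x ^ e (x y^e) = x ^ e x y ^ e = x`). So for `φ i = x ^ e`: idempotent (`hex`), `W i = x s`, `φ i * W i = x ^ e x s = W i`; `JLe (φ i) (W i)`: `JLe (x^e) x`,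
`JLe x (W i)` (`Req`).
-/

set_option autoImplicit false

namespace Pool.Agent.LibCR14

open Pool.Agent.LibSMP

variable {M : Type*} [Monoid M] {n : ℕ} {Q E : Type*} {N : Net M n Q E}

private theorem N5a_rep {q₀ : Q} {r : List E} (hr : Pt N q₀ r q₀) (k : ℕ) :
    Pt N q₀ (List.replicate (k + 1) r).flatten q₀ ∧
      ∀ i, pv N q₀ (List.replicate (k + 1) r).flatten i = (pv N q₀ r i) ^ (k + 1) := by
  induction k with
  | zero =>
    have h1 : (List.replicate (0 + 1) r).flatten = r := by simp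
    rw [h1]
    exact ⟨hr, fun i => by rw [zero_add, pow_one]⟩
  | succ k ih =>
    have h1 : (List.replicate (k + 1 + 1) r).flatten =
        r ++ (List.replicate (k + 1) r).flatten := by
      rw [List.replicate_succ, List.flatten_cons]
    rw [h1]
    refine ⟨pt_append.2 ⟨q₀, hr, ih.1⟩, fun i => ?_⟩
    rw [pv_append hr ih.1, ih.2, ← pow_succ']

private theorem N5a_alg {x y : M} (h1 : x * y * x = x) (h2 : x * y = y * x) {e : ℕ}
    (hid : x ^ e * x ^ e = x ^ e) : x ^ e * x = x := by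
  have h3 : x = x * (x * y) := by
    rw [h2, ← mul_assoc]
    exact h1.symm
  have hc : Commute x y := h2
  have key : ∀ k : ℕ, x = x ^ (k + 1) * y ^ k := by
    intro k
    induction k with
    | zero => rw [zero_add, pow_one, pow_zero, mul_one]
    | succ k ih =>
      have h4 : y ^ k * x = x * y ^ k := ((hc.pow_right k).eq).symm
      calc x = x * (x * y) := h3
        _ = (x ^ (k + 1) * y ^ k) * (x * y) := by rw [← ih]
        _ = x ^ (k + 1) * (y ^ k * x) * y := by simp only [mul_assoc]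
        _ = x ^ (k + 1) * (x * y ^ k) * y := by rw [h4]
        _ = (x ^ (k + 1) * x) * (y ^ k * y) := by simp only [mul_assoc]
        _ = x ^ (k + 1 + 1) * y ^ (k + 1) := by rw [← pow_succ, ← pow_succ]
  have h5 := key e
  calc x ^ e * x = x ^ e * (x ^ (e + 1) * y ^ e) := by rw [← h5]
    _ = (x ^ e * x ^ e) * x * y ^ e := by rw [pow_succ]; simp only [mul_assoc]
    _ = x ^ e * x * y ^ e := by rw [hid]
    _ = x := by rw [← pow_succ]; exact h5.symm

theorem exists_phi [Finite M] [Fintype Q] {e : ℕ} (he : 2 ≤ e) (hex : ∀ x : M, x ^ e * x ^ e = x ^ e) {d p : ℕ}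
    (hP : SPb N d p) {q₀ : Q} {w : List E} (hw : Pt N q₀ w q₀) {A : Finset (Fin n)}
    (hA : ∀ i ∈ A, dep (pv N q₀ w i) < d + 1) :
    ∃ φ : List E, Pt N q₀ φ q₀ ∧ (∀ x ∈ φ, x ∈ w) ∧ φ.length ≤ e * (n * (p + 1) + Fintype.card Q) ∧
      ∀ i ∈ A, pv N q₀ φ i * pv N q₀ φ i = pv N q₀ φ i ∧ pv N q₀ φ i * pv N q₀ w i = pv N q₀ w i ∧
        JLe (pv N q₀ φ i) (pv N q₀ w i) := by
  have hov : Ov N w q₀ q₀ := ⟨[], rfl, fun a ha => absurd ha (by simp)⟩
  obtain ⟨r₁, v'', h1, h2, h3, h4⟩ := RD hP hw hA n A q₀ q₀ q₀ [] w (Finset.Subset.refl A)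
    ((Finset.card_le_univ A).trans (by rw [Fintype.card_fin])) hov rfl
    (fun x hx => absurd hx (by simp)) hw (fun _ hx => hx) (fun i _ => JLe.refl _)
  have hov'' : Ov N w q₀ v'' := ov_step hov h1 h2
  obtain ⟨c, h5, h6, h7⟩ := short_back hw hov''
  have hr : Pt N q₀ (r₁ ++ c) q₀ := pt_append.2 ⟨v'', h1, h5⟩
  have hrw : ∀ x ∈ r₁ ++ c, x ∈ w := by
    intro x hx
    rcases List.mem_append.1 hx with h | h
    · exact h2 x h
    · exact h6 x h
  obtain ⟨e', rfl⟩ : ∃ e', e = e' + 1 := ⟨e - 1, by omega⟩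
  obtain ⟨h8, h9⟩ := N5a_rep hr e'
  refine ⟨(List.replicate (e' + 1) (r₁ ++ c)).flatten, h8, ?_, ?_, ?_⟩
  · intro x hx
    obtain ⟨l, hl, hxl⟩ := List.mem_flatten.1 hx
    rw [(List.mem_replicate.1 hl).2] at hxl
    exact hrw x hxl
  · rw [List.length_flatten, List.map_replicate, List.sum_replicate, smul_eq_mul,
      List.length_append]
    exact Nat.mul_le_mul_left _ (add_le_add h3 h7)
  · intro i hi
    have h10 : Req (pv N q₀ w i) (pv N q₀ r₁ i) := h4 i hi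
    have h11 : JLe (pv N q₀ w i) (pv N q₀ (r₁ ++ c) i) := ctx hw hov hr hrw i
    have h12 : pv N q₀ (r₁ ++ c) i = pv N q₀ r₁ i * pv N v'' c i := pv_append h1 h5 i
    have h13 : Req (pv N q₀ r₁ i) (pv N q₀ (r₁ ++ c) i) := by
      rw [h12]
      apply Req_of
      rw [← h12]
      exact (Req_J (Req_symm h10)).trans h11
    have h14 : Req (pv N q₀ w i) (pv N q₀ (r₁ ++ c) i) := Req_trans h10 h13
    rw [h9 i]
    obtain ⟨y, hy1, hy2⟩ := (N.cr q₀ i).2 (pv N q₀ (r₁ ++ c) i) (pv_left hr i) (pv_right hr i)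
    have h15 : pv N q₀ (r₁ ++ c) i ^ (e' + 1) * pv N q₀ (r₁ ++ c) i = pv N q₀ (r₁ ++ c) i :=
      N5a_alg hy1 hy2 (hex _)
    refine ⟨hex _, ?_, ?_⟩
    · obtain ⟨s, hs⟩ := h14.1
      rw [hs, ← mul_assoc, h15]
    · refine JLe.trans (y := pv N q₀ (r₁ ++ c) i) ?_ (Req_J (Req_symm h14))
      rw [pow_succ]
      exact JLe_mul_left _ _

end Pool.Agent.LibCR14
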