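import Pool.Agent.LibCR14.N4L

/-!
[CR14 N5b] (SHORT/MEDIUM) Access paths. `φ` a loop at `q₀` over `w` with `JLe (pv φ i) (W i)` on `A`; `z` a path from `q₀` to `v` over `w`. For `i ∈ A` the value of `φ ++ z` is J-below `pv φ i`, so J-below `W i`.
`LD` with `a = n`, `A' = A`, `v' = q₀`, `z := φ ++ z`, `r₀ = []` (`v₀ = v`): `l₁ : v'' → v` over `w`, length `≤ n (p+1)`, `Ov N w q₀ v''`, `Leq (pv (φ ++ z) i) (pv N v'' l₁ i)` (simp with `List.append_nil`). `c : q₀ → v''` over `w`, length `≤ m` (`short_to`). `P = c ++ l₁`.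
`pv (φ ++ P) i = (pv φ i * pv c i) * pv l₁ i`: J-above `W i` (`ctx`), and `pv l₁ i` is J-below `W i`, so `Leq (pv l₁ i) (pv (φ ++ P) i)` (`Leq_of`), `Leq_trans`.
-/

set_option autoImplicit false

namespace Pool.Agent.LibCR14

open Pool.Agent.LibSMP

variable {M : Type*} [Monoid M] {n : ℕ} {Q E : Type*} {N : Net M n Q E}

theorem access [Finite M] [Fintype Q] {d p : ℕ} (hP : SPb N d p) {q₀ : Q} {w : List E} (hw : Pt N q₀ w q₀)
    {A : Finset (Fin n)} (hA : ∀ i ∈ A, dep (pv N q₀ w i) < d + 1) {φ : List E} (hφ : Pt N q₀ φ q₀)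
    (hφs : ∀ x ∈ φ, x ∈ w) (hφJ : ∀ i ∈ A, JLe (pv N q₀ φ i) (pv N q₀ w i)) {v : Q} {z : List E}
    (hz : Pt N q₀ z v) (hzs : ∀ x ∈ z, x ∈ w) :
    ∃ P : List E, Pt N q₀ P v ∧ (∀ x ∈ P, x ∈ w) ∧ P.length ≤ Fintype.card Q + n * (p + 1) ∧
      ∀ i ∈ A, Leq (pv N q₀ (φ ++ z) i) (pv N q₀ (φ ++ P) i) := by
  classical
  have hφz : Pt N q₀ (φ ++ z) v := pt_append.2 ⟨q₀, hφ, hz⟩
  have hφzs : ∀ x ∈ φ ++ z, x ∈ w := by
    intro x hx
    rcases List.mem_append.1 hx with h | h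
    · exact hφs x h
    · exact hzs x h
  have hov0 : Ov N w q₀ q₀ := ⟨[], rfl, by simp⟩
  have hJ1 : ∀ i ∈ A, JLe (pv N q₀ (φ ++ z) i) (pv N q₀ w i) := by
    intro i hi
    rw [pv_append hφ hz]
    exact (JLe_mul_right _ _).trans (hφJ i hi)
  obtain ⟨l₁, v'', hov, hl₁, hl₁s, hlen, hLeq⟩ := LD hP hw hA n A q₀ v v (φ ++ z) []
    (Finset.Subset.refl A) (by simpa using Finset.card_le_univ A) hov0 hφz hφzs rfl (by simp)
    (by
      intro i hi
      rw [List.append_nil]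
      exact hJ1 i hi)
  obtain ⟨c, hc, hcs, hclen⟩ := short_to hov
  have hP' : Pt N q₀ (c ++ l₁) v := pt_append.2 ⟨v'', hc, hl₁⟩
  have hPs : ∀ x ∈ c ++ l₁, x ∈ w := by
    intro x hx
    rcases List.mem_append.1 hx with h | h
    · exact hcs x h
    · exact hl₁s x h
  refine ⟨c ++ l₁, hP', hPs, ?_, ?_⟩
  · rw [List.length_append]
    omega
  · intro i hi
    have h1 := hLeq i hi
    rw [List.append_nil, List.append_nil] at h1
    have h2 : JLe (pv N v'' l₁ i) (pv N q₀ w i) :=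
      (Leq_J (Leq_symm h1)).trans (hJ1 i hi)
    have h3 : JLe (pv N q₀ w i) (pv N q₀ (φ ++ (c ++ l₁)) i) :=
      ctx hw hov0 (pt_append.2 ⟨q₀, hφ, hP'⟩) (by
        intro x hx
        rcases List.mem_append.1 hx with h | h
        · exact hφs x h
        · exact hPs x h) i
    have h4 : pv N q₀ (φ ++ (c ++ l₁)) i = (pv N q₀ φ i * pv N q₀ c i) * pv N v'' l₁ i := by
      rw [pv_append hφ hP', pv_append hc hl₁, mul_assoc]
    rw [h4] at h3 ⊢
    exact Leq_trans h1 (Leq_of (h2.trans h3))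

end Pool.Agent.LibCR14
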